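import Pool.Agent.H34.RT.Defs

/-!
# Ang : the angles of the chord triangles

For `σ ≥ 0` small let `bi = √(αi² - σ²)`. Put `θ01 σ = π - arccos ((b0² + b1² - α2²) / (2 b0 b1))` and cyclically; `cos (π - x) = - cos x` gives the
three identities as long as the arguments are in `[-1, 1]` (at `σ = 0` they are in the open interval, by the strict triangle inequalities; all
functions are continuous at `0`). Since `α2² = b2² + σ²` the argument is `x2 - σ² / (2 b0 b1)`, `x2 = (b0² + b1² - b2²) / (2 b0 b1)`, and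
`arccos x0 + arccos x1 + arccos x2 = π` is the angle sum of the Euclidean triangle with the sides `b0, b1, b2`
(`InnerProductGeometry.angle_add_angle_sub_add_angle_sub_eq_pi` for two complex numbers or two vectors of `EuclideanSpace ℝ (Fin 2)`,
or any other way; `arcsum`). `arccos` is strictly decreasing on `[-1, 1]`: `2 π - (θ01 + θ12 + θ20) = ∑ arccos (xi - σ²/..) - π > 0` for `σ > 0`. Upper
bound: with `τ = σ²` the function `τ ↦ ∑ arccos ((b0² + b1² - α2²) / (2 b0 b1)) - π` (`bi = √(αi² - τ)`) is differentiable at `τ = 0` and vanishes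
there, so it is `O(τ)` (`HasDerivAt.isBigO_sub`). The last two identities at `σ = 0`: with the interior angles
`φ2 = π - θ01 0`, `φ1 = π - θ20 0`: `α1 cos φ2 = (α0² + α1² - α2²) / (2 α0)`, `α2 cos φ1 = (α0² + α2² - α1²) / (2 α0)`.
-/

set_option autoImplicit false

open Real

namespace Pool.Agent.H34.RT

private theorem cos_bound {a b c : ℝ} (ha : 0 < a) (hb : 0 < b) (t0 : a < b + c) (t1 : b < a + c)
    (t2 : c < a + b) : |(a ^ 2 + b ^ 2 - c ^ 2) / (2 * a * b)| < 1 := by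
  have hp : 0 < 2 * a * b := by positivity
  rw [abs_lt]
  constructor
  · rw [lt_div_iff₀ hp]
    nlinarith
  · rw [div_lt_iff₀ hp]
    nlinarith

/-- angle sum of a Euclidean triangle with the sides `b0, b1, b2` -/
theorem arcsum {b0 b1 b2 : ℝ} (h0 : 0 < b0) (h1 : 0 < b1) (h2 : 0 < b2) (t0 : b0 < b1 + b2) (t1 : b1 < b0 + b2)
    (t2 : b2 < b0 + b1) :
    arccos ((b0 ^ 2 + b1 ^ 2 - b2 ^ 2) / (2 * b0 * b1)) + arccos ((b1 ^ 2 + b2 ^ 2 - b0 ^ 2) / (2 * b1 * b2)) +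
      arccos ((b2 ^ 2 + b0 ^ 2 - b1 ^ 2) / (2 * b2 * b0)) = π := by
  set c := (b0 ^ 2 + b1 ^ 2 - b2 ^ 2) / (2 * b0 * b1) with hc
  have hcb : |c| < 1 := cos_bound h0 h1 t0 t1 t2
  have hcc : c ^ 2 ≤ 1 := by
    rw [sq_le_one_iff_abs_le_one]; exact hcb.le
  have hcm : 2 * b0 * b1 * c = b0 ^ 2 + b1 ^ 2 - b2 ^ 2 := by
    rw [hc]; field_simp
  set s := √(1 - c ^ 2) with hs
  have hss : s ^ 2 = 1 - c ^ 2 := by rw [hs]; exact Real.sq_sqrt (by linarith)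
  let x : ℂ := ⟨b0, 0⟩
  let y : ℂ := ⟨b1 * c, b1 * s⟩
  have nx : ‖x‖ = b0 := by
    rw [← sq_eq_sq₀ (norm_nonneg _) h0.le, Complex.sq_norm, Complex.normSq_mk]
    ring
  have ny : ‖y‖ = b1 := by
    rw [← sq_eq_sq₀ (norm_nonneg _) h1.le, Complex.sq_norm, Complex.normSq_mk]
    have : b1 * c * (b1 * c) + b1 * s * (b1 * s) = b1 ^ 2 * (c ^ 2 + s ^ 2) := by ring
    rw [this, hss]; ring
  have nxy : ‖x - y‖ = b2 := by
    rw [← sq_eq_sq₀ (norm_nonneg _) h2.le]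
    have e : x - y = ⟨b0 - b1 * c, 0 - b1 * s⟩ := rfl
    rw [e, Complex.sq_norm, Complex.normSq_mk]
    have : (b0 - b1 * c) * (b0 - b1 * c) + (0 - b1 * s) * (0 - b1 * s)
        = b0 ^ 2 - 2 * b0 * b1 * c + b1 ^ 2 * (c ^ 2 + s ^ 2) := by ring
    rw [this, hss, hcm]; ring
  have hy : y ≠ 0 := by
    intro h; rw [h, norm_zero] at ny; linarith
  have ixy : inner ℝ x y = (b0 ^ 2 + b1 ^ 2 - b2 ^ 2) / 2 := by
    rw [real_inner_eq_norm_mul_self_add_norm_mul_self_sub_norm_sub_mul_self_div_two, nx, ny, nxy]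
    ring
  have a1 : InnerProductGeometry.angle x y = arccos c := by
    unfold InnerProductGeometry.angle
    rw [ixy, nx, ny, hc]
    congr 1
    field_simp
  have a2 : InnerProductGeometry.angle x (x - y)
      = arccos ((b2 ^ 2 + b0 ^ 2 - b1 ^ 2) / (2 * b2 * b0)) := by
    unfold InnerProductGeometry.angle
    rw [inner_sub_right, ixy, real_inner_self_eq_norm_sq, nx, nxy]
    congr 1
    field_simp
    ring
  have a3 : InnerProductGeometry.angle y (y - x)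
      = arccos ((b1 ^ 2 + b2 ^ 2 - b0 ^ 2) / (2 * b1 * b2)) := by
    unfold InnerProductGeometry.angle
    rw [inner_sub_right, real_inner_comm x y, ixy, real_inner_self_eq_norm_sq, norm_sub_rev, nxy, ny]
    congr 1
    field_simp
    ring
  have h := InnerProductGeometry.angle_add_angle_sub_add_angle_sub_eq_pi x hy
  rw [← a1, ← a2, ← a3]
  linarith

private noncomputable def cc (a b c τ : ℝ) : ℝ :=
  ((a ^ 2 - τ) + (b ^ 2 - τ) - c ^ 2) / (2 * √(a ^ 2 - τ) * √(b ^ 2 - τ))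

private theorem cc_diff {a b : ℝ} (c : ℝ) (ha : 0 < a) (hb : 0 < b) :
    DifferentiableAt ℝ (cc a b c) 0 := by
  have ea : a ^ 2 - 0 ≠ 0 := by rw [sub_zero]; positivity
  have eb : b ^ 2 - 0 ≠ 0 := by rw [sub_zero]; positivity
  have sa : DifferentiableAt ℝ (fun τ : ℝ => √(a ^ 2 - τ)) 0 :=
    DifferentiableAt.sqrt (by fun_prop) ea
  have sb : DifferentiableAt ℝ (fun τ : ℝ => √(b ^ 2 - τ)) 0 :=
    DifferentiableAt.sqrt (by fun_prop) eb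
  have h1 : DifferentiableAt ℝ (fun τ : ℝ => (a ^ 2 - τ) + (b ^ 2 - τ) - c ^ 2) 0 := by fun_prop
  refine DifferentiableAt.div h1 ((sa.const_mul 2).mul sb) ?_
  have pa : 0 < √(a ^ 2 - 0) := Real.sqrt_pos.mpr (by rw [sub_zero]; positivity)
  have pb : 0 < √(b ^ 2 - 0) := Real.sqrt_pos.mpr (by rw [sub_zero]; positivity)
  positivity

private theorem cc_zero_lt {a b c : ℝ} (ha : 0 < a) (hb : 0 < b) (t0 : a < b + c) (t1 : b < a + c)
    (t2 : c < a + b) : |cc a b c 0| < 1 := by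
  unfold cc
  rw [sub_zero, sub_zero, Real.sqrt_sq ha.le, Real.sqrt_sq hb.le]
  exact cos_bound ha hb t0 t1 t2

/-- the law of cosines with the angle `π - arccos cc` -/
private theorem cc_law {a b c τ : ℝ} (ha : τ < a ^ 2) (hb : τ < b ^ 2) (h : |cc a b c τ| < 1) :
    c ^ 2 = (a ^ 2 - τ) + (b ^ 2 - τ) + 2 * √(a ^ 2 - τ) * √(b ^ 2 - τ) * cos (π - arccos (cc a b c τ)) := by
  obtain ⟨h1, h2⟩ := abs_lt.mp h
  rw [Real.cos_pi_sub, Real.cos_arccos h1.le h2.le]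
  have pa : 0 < √(a ^ 2 - τ) := Real.sqrt_pos.mpr (by linarith)
  have pb : 0 < √(b ^ 2 - τ) := Real.sqrt_pos.mpr (by linarith)
  unfold cc
  field_simp
  ring

/-- `arccos cc` is larger than the angle of the triangle with the sides `β` -/
private theorem cc_lt {a b c τ : ℝ} (hτ : 0 < τ) (ha : τ < a ^ 2) (hb : τ < b ^ 2) (hc : τ < c ^ 2)
    (h : |cc a b c τ| < 1) (t0 : √(a ^ 2 - τ) < √(b ^ 2 - τ) + √(c ^ 2 - τ))
    (t1 : √(b ^ 2 - τ) < √(a ^ 2 - τ) + √(c ^ 2 - τ))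
    (t2 : √(c ^ 2 - τ) < √(a ^ 2 - τ) + √(b ^ 2 - τ)) :
    arccos ((√(a ^ 2 - τ) ^ 2 + √(b ^ 2 - τ) ^ 2 - √(c ^ 2 - τ) ^ 2) / (2 * √(a ^ 2 - τ) * √(b ^ 2 - τ)))
      < arccos (cc a b c τ) := by
  have pa : 0 < √(a ^ 2 - τ) := Real.sqrt_pos.mpr (by linarith)
  have pb : 0 < √(b ^ 2 - τ) := Real.sqrt_pos.mpr (by linarith)
  have hb1 := cos_bound pa pb t0 t1 t2
  obtain ⟨h1, h2⟩ := abs_lt.mp h
  obtain ⟨h3, h4⟩ := abs_lt.mp hb1
  apply Real.strictAntiOn_arccos ⟨h1.le, h2.le⟩ ⟨h3.le, h4.le⟩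
  rw [Real.sq_sqrt (by linarith), Real.sq_sqrt (by linarith), Real.sq_sqrt (by linarith)]
  unfold cc
  apply div_lt_div_of_pos_right _ (by positivity)
  linarith

theorem angles {α0 α1 α2 : ℝ} (h0 : 0 < α0) (h1 : 0 < α1) (h2 : 0 < α2) (t0 : α0 < α1 + α2) (t1 : α1 < α0 + α2)
    (t2 : α2 < α0 + α1) :
    ∃ (θ01 θ12 θ20 : ℝ → ℝ) (σ0 C : ℝ), 0 < σ0 ∧ σ0 ≤ α0 ∧ σ0 ≤ α1 ∧ σ0 ≤ α2 ∧
      ContinuousAt θ01 0 ∧ ContinuousAt θ12 0 ∧ ContinuousAt θ20 0 ∧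
      0 < θ01 0 ∧ θ01 0 < π ∧ 0 < θ20 0 ∧ θ20 0 < π ∧ θ01 0 + θ12 0 + θ20 0 = 2 * π ∧
      (∀ σ, 0 ≤ σ → σ < σ0 →
        α2 ^ 2 = (α0 ^ 2 - σ ^ 2) + (α1 ^ 2 - σ ^ 2) + 2 * √(α0 ^ 2 - σ ^ 2) * √(α1 ^ 2 - σ ^ 2) * cos (θ01 σ) ∧
        α0 ^ 2 = (α1 ^ 2 - σ ^ 2) + (α2 ^ 2 - σ ^ 2) + 2 * √(α1 ^ 2 - σ ^ 2) * √(α2 ^ 2 - σ ^ 2) * cos (θ12 σ) ∧
        α1 ^ 2 = (α2 ^ 2 - σ ^ 2) + (α0 ^ 2 - σ ^ 2) + 2 * √(α2 ^ 2 - σ ^ 2) * √(α0 ^ 2 - σ ^ 2) * cos (θ20 σ)) ∧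
      (∀ σ, 0 < σ → σ < σ0 → 0 < 2 * π - (θ01 σ + θ12 σ + θ20 σ) ∧
        2 * π - (θ01 σ + θ12 σ + θ20 σ) ≤ C * σ ^ 2) := by
  have b2 : |cc α0 α1 α2 0| < 1 := cc_zero_lt h0 h1 t0 t1 t2
  have b0 : |cc α1 α2 α0 0| < 1 := cc_zero_lt h1 h2 (by linarith) (by linarith) (by linarith)
  have b1 : |cc α2 α0 α1 0| < 1 := cc_zero_lt h2 h0 (by linarith) (by linarith) (by linarith)
  have d2 := cc_diff α2 h0 h1
  have d0 := cc_diff α0 h1 h2
  have d1 := cc_diff α1 h2 h0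
  have hdiff : ∀ {f : ℝ → ℝ}, DifferentiableAt ℝ f 0 → |f 0| < 1 →
      DifferentiableAt ℝ (fun τ => arccos (f τ)) 0 := by
    intro f hf hb
    obtain ⟨e1, e2⟩ := abs_lt.mp hb
    exact (Real.differentiableAt_arccos.mpr ⟨e1.ne', e2.ne⟩).comp 0 hf
  have D2 := hdiff d2 b2
  have D0 := hdiff d0 b0
  have D1 := hdiff d1 b1
  set F : ℝ → ℝ := fun τ => arccos (cc α0 α1 α2 τ) + arccos (cc α1 α2 α0 τ)
    + arccos (cc α2 α0 α1 τ) with hF
  have DF : DifferentiableAt ℝ F 0 := (D2.add D0).add D1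
  have hF0 : F 0 = π := by
    have := arcsum h0 h1 h2 t0 t1 t2
    rw [hF]
    simp only [cc, sub_zero]
    rw [Real.sqrt_sq h0.le, Real.sqrt_sq h1.le, Real.sqrt_sq h2.le]
    exact this
  obtain ⟨C, hC⟩ := DF.isBigO_sub.bound
  -- what holds near `τ = 0`
  have habs : ∀ {f : ℝ → ℝ}, DifferentiableAt ℝ f 0 → |f 0| < 1 →
      ∀ᶠ τ in nhds (0:ℝ), |f τ| < 1 := by
    intro f hf hb
    exact hf.continuousAt.abs.eventually_lt continuousAt_const hb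
  have hsq : ∀ a : ℝ, 0 < a → ∀ᶠ τ in nhds (0:ℝ), τ < a ^ 2 := by
    intro a ha
    exact eventually_lt_nhds (by positivity)
  have hsc : ∀ a : ℝ, ContinuousAt (fun τ : ℝ => √(a ^ 2 - τ)) 0 := by
    intro a
    fun_prop
  have htri : ∀ a b c : ℝ, 0 < a → 0 < b → 0 < c → a < b + c →
      ∀ᶠ τ in nhds (0:ℝ), √(a ^ 2 - τ) < √(b ^ 2 - τ) + √(c ^ 2 - τ) := by
    intro a b c ha hb hc h
    refine (hsc a).eventually_lt ((hsc b).add (hsc c)) ?_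
    rw [sub_zero, sub_zero, sub_zero, Real.sqrt_sq ha.le, Real.sqrt_sq hb.le, Real.sqrt_sq hc.le]
    exact h
  have hev : ∀ᶠ τ in nhds (0:ℝ), (|cc α0 α1 α2 τ| < 1 ∧ |cc α1 α2 α0 τ| < 1 ∧ |cc α2 α0 α1 τ| < 1) ∧
      (τ < α0 ^ 2 ∧ τ < α1 ^ 2 ∧ τ < α2 ^ 2) ∧
      (√(α0 ^ 2 - τ) < √(α1 ^ 2 - τ) + √(α2 ^ 2 - τ) ∧
        √(α1 ^ 2 - τ) < √(α0 ^ 2 - τ) + √(α2 ^ 2 - τ) ∧
        √(α2 ^ 2 - τ) < √(α0 ^ 2 - τ) + √(α1 ^ 2 - τ)) ∧ ‖F τ - F 0‖ ≤ C * ‖τ - 0‖ := by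
    filter_upwards [habs d2 b2, habs d0 b0, habs d1 b1, hsq α0 h0, hsq α1 h1, hsq α2 h2,
      htri α0 α1 α2 h0 h1 h2 t0, htri α1 α0 α2 h1 h0 h2 t1, htri α2 α0 α1 h2 h0 h1 t2, hC]
      with τ e1 e2 e3 e4 e5 e6 e7 e8 e9 e10
    exact ⟨⟨e1, e2, e3⟩, ⟨e4, e5, e6⟩, ⟨e7, e8, e9⟩, e10⟩
  obtain ⟨δ, hδ, hball⟩ := Metric.eventually_nhds_iff.mp hev
  set σ0 := min (min 1 δ) (min α0 (min α1 α2)) with hσ0
  have hσpos : 0 < σ0 := lt_min (lt_min one_pos hδ) (lt_min h0 (lt_min h1 h2))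
  have hl1 : σ0 ≤ 1 := (min_le_left _ _).trans (min_le_left _ _)
  have hlδ : σ0 ≤ δ := (min_le_left _ _).trans (min_le_right _ _)
  have hl0 : σ0 ≤ α0 := (min_le_right _ _).trans (min_le_left _ _)
  have hla1 : σ0 ≤ α1 := (min_le_right _ _).trans ((min_le_right _ _).trans (min_le_left _ _))
  have hla2 : σ0 ≤ α2 := (min_le_right _ _).trans ((min_le_right _ _).trans (min_le_right _ _))
  have hP : ∀ σ : ℝ, 0 ≤ σ → σ < σ0 → dist (σ ^ 2) (0:ℝ) < δ := by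
    intro σ hs0 hs1
    rw [Real.dist_eq, sub_zero, abs_of_nonneg (by positivity)]
    nlinarith
  have hcont : ∀ {f : ℝ → ℝ}, DifferentiableAt ℝ (fun τ => arccos (f τ)) 0 →
      ContinuousAt (fun σ : ℝ => π - arccos (f (σ ^ 2))) 0 := by
    intro f hf
    have e : ContinuousAt (fun σ : ℝ => σ ^ 2) 0 := by fun_prop
    have e2 : ContinuousAt (fun τ => arccos (f τ)) ((fun σ : ℝ => σ ^ 2) 0) := by
      have : (fun σ : ℝ => σ ^ 2) 0 = 0 := by simp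
      rw [this]
      exact hf.continuousAt
    have e3 : ContinuousAt (fun σ : ℝ => arccos (f (σ ^ 2))) 0 :=
      ContinuousAt.comp (g := fun τ => arccos (f τ)) (f := fun σ : ℝ => σ ^ 2) e2 e
    exact continuousAt_const.sub e3
  have hrange : ∀ x : ℝ, |x| < 1 → 0 < π - arccos x ∧ π - arccos x < π := by
    intro x hx
    obtain ⟨e1, e2⟩ := abs_lt.mp hx
    constructor
    · have : arccos x < π := by
        rcases lt_or_eq_of_le (Real.arccos_le_pi x) with h | h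
        · exact h
        · exfalso
          rw [Real.arccos_eq_pi] at h
          linarith
      linarith
    · have := Real.arccos_pos.mpr e2
      linarith
  refine ⟨fun σ => π - arccos (cc α0 α1 α2 (σ ^ 2)), fun σ => π - arccos (cc α1 α2 α0 (σ ^ 2)),
    fun σ => π - arccos (cc α2 α0 α1 (σ ^ 2)), σ0, C, hσpos, hl0, hla1, hla2, hcont D2, hcont D0,
    hcont D1, ?_, ?_, ?_, ?_, ?_, ?_, ?_⟩
  · simp only [ne_eq, OfNat.ofNat_ne_zero, not_false_eq_true, zero_pow]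
    exact (hrange _ b2).1
  · simp only [ne_eq, OfNat.ofNat_ne_zero, not_false_eq_true, zero_pow]
    exact (hrange _ b2).2
  · simp only [ne_eq, OfNat.ofNat_ne_zero, not_false_eq_true, zero_pow]
    exact (hrange _ b1).1
  · simp only [ne_eq, OfNat.ofNat_ne_zero, not_false_eq_true, zero_pow]
    exact (hrange _ b1).2
  · simp only [ne_eq, OfNat.ofNat_ne_zero, not_false_eq_true, zero_pow]
    have : arccos (cc α0 α1 α2 0) + arccos (cc α1 α2 α0 0) + arccos (cc α2 α0 α1 0) = π := hF0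
    linarith
  · intro σ hs0 hs1
    obtain ⟨⟨e1, e2, e3⟩, ⟨e4, e5, e6⟩, -, -⟩ := hball (hP σ hs0 hs1)
    exact ⟨cc_law e4 e5 e1, cc_law e5 e6 e2, cc_law e6 e4 e3⟩
  · intro σ hs0 hs1
    obtain ⟨⟨e1, e2, e3⟩, ⟨e4, e5, e6⟩, ⟨e7, e8, e9⟩, e10⟩ := hball (hP σ hs0.le hs1)
    have hτ : 0 < σ ^ 2 := by positivity
    have p0 : 0 < √(α0 ^ 2 - σ ^ 2) := Real.sqrt_pos.mpr (by linarith)
    have p1 : 0 < √(α1 ^ 2 - σ ^ 2) := Real.sqrt_pos.mpr (by linarith)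
    have p2 : 0 < √(α2 ^ 2 - σ ^ 2) := Real.sqrt_pos.mpr (by linarith)
    have hsum := arcsum p0 p1 p2 e7 e8 e9
    have l2 := cc_lt hτ e4 e5 e6 e1 e7 e8 e9
    have l0 := cc_lt hτ e5 e6 e4 e2 (by linarith) (by linarith) (by linarith)
    have l1 := cc_lt hτ e6 e4 e5 e3 (by linarith) (by linarith) (by linarith)
    have hFσ : F (σ ^ 2) = arccos (cc α0 α1 α2 (σ ^ 2)) + arccos (cc α1 α2 α0 (σ ^ 2))
      + arccos (cc α2 α0 α1 (σ ^ 2)) := rfl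
    rw [hF0, sub_zero, Real.norm_eq_abs, Real.norm_eq_abs, abs_of_pos hτ, hFσ] at e10
    have e11 := (abs_le.mp e10).2
    constructor
    · linarith
    · linarith

end Pool.Agent.H34.RT
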