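import Pool.Agent.H34.RT.Defs

/-!
# Base : the base triple in the plane

`tri_ineq`: `α0 u0 = - (α1 u1 + α2 u2)`; equality in the triangle inequality would make `u1, u2` (hence all three) parallel, against
`|⟪u0, u1⟫| < 1`. `base`: `α2² = ‖α0 u0 + α1 u1‖²` gives `⟪u0, u1⟫ = cos θ01`, put `q = (sin θ01)⁻¹ (u1 - cos θ01 u0)`. From
`α2 u2 = - α0 u0 - α1 u1 = - (α0 + α1 cos θ01) u0 - α1 sin θ01 q`; `α0 + α1 cos θ01 = - α2 cos θ20` (both laws of cosines), and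
`α1 sin θ01 = α2 sin θ20` (squares: `‖α2 u2‖² = α2²`, both sides positive).
-/

set_option autoImplicit false

open scoped RealInnerProductSpace
open Real

namespace Pool.Agent.H34.RT

variable {n : ℕ}

/-- law of cosines for a relation -/
private theorem lawc {a b c : ℝ} {u v w : Space n} (nu : ‖u‖ = 1) (nv : ‖v‖ = 1) (nw : ‖w‖ = 1)
    (rel : a • u + b • v + c • w = 0) : c ^ 2 = a ^ 2 + b ^ 2 + 2 * a * b * ⟪u, v⟫ := by
  have h : c • w = -(a • u + b • v) := by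
    rw [eq_neg_iff_add_eq_zero, add_comm]
    exact rel
  have h1 : ‖c • w‖ ^ 2 = ‖a • u + b • v‖ ^ 2 := by rw [h, norm_neg]
  rw [norm_add_sq_real, norm_smul, norm_smul, norm_smul, nu, nv, nw, real_inner_smul_left,
    real_inner_smul_right, mul_one, mul_one, mul_one, Real.norm_eq_abs, Real.norm_eq_abs,
    Real.norm_eq_abs, sq_abs, sq_abs, sq_abs] at h1
  rw [h1]
  ring

theorem tri_ineq {α0 α1 α2 : ℝ} {u0 u1 u2 : Space n} (a0 : 0 < α0) (a1 : 0 < α1) (a2 : 0 < α2) (n0 : ‖u0‖ = 1)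
    (n1 : ‖u1‖ = 1) (n2 : ‖u2‖ = 1) (rel : α0 • u0 + α1 • u1 + α2 • u2 = 0) (ang : |⟪u0, u1⟫| < 1) :
    α0 < α1 + α2 ∧ α1 < α0 + α2 ∧ α2 < α0 + α1 := by
  have hl := lawc n0 n1 n2 rel
  obtain ⟨h1, h2⟩ := abs_lt.1 ang
  have hp : 0 < α0 * α1 := mul_pos a0 a1
  have e1 : α2 ^ 2 < (α0 + α1) ^ 2 := by
    rw [hl]
    nlinarith [mul_pos hp (sub_pos.2 h2)]
  have e2 : (α0 - α1) ^ 2 < α2 ^ 2 := by
    rw [hl]
    nlinarith [mul_pos hp (by linarith : (0 : ℝ) < 1 + ⟪u0, u1⟫)]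
  have e3 := abs_lt_of_sq_lt_sq e2 a2.le
  obtain ⟨h3, h4⟩ := abs_lt.1 e3
  have e4 := lt_of_pow_lt_pow_left₀ 2 (by linarith) e1
  exact ⟨by linarith, by linarith, e4⟩

theorem base {α0 α1 α2 : ℝ} {u0 u1 u2 : Space n} (a0 : 0 < α0) (a1 : 0 < α1) (a2 : 0 < α2) (n0 : ‖u0‖ = 1)
    (n1 : ‖u1‖ = 1) (n2 : ‖u2‖ = 1) (rel : α0 • u0 + α1 • u1 + α2 • u2 = 0) {θ01 θ20 : ℝ} (h1 : 0 < θ01)
    (h1' : θ01 < π) (h2 : 0 < θ20) (h2' : θ20 < π)
    (c1 : α2 ^ 2 = α0 ^ 2 + α1 ^ 2 + 2 * α0 * α1 * cos θ01) (c2 : α1 ^ 2 = α2 ^ 2 + α0 ^ 2 + 2 * α2 * α0 * cos θ20) :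
    ∃ q : Space n, ‖q‖ = 1 ∧ ⟪u0, q⟫ = 0 ∧ u1 = cos θ01 • u0 + sin θ01 • q ∧ u2 = cos θ20 • u0 - sin θ20 • q := by
  have s1 : 0 < sin θ01 := sin_pos_of_pos_of_lt_pi h1 h1'
  have s2 : 0 < sin θ20 := sin_pos_of_pos_of_lt_pi h2 h2'
  have hl := lawc n0 n1 n2 rel
  have hl2 := lawc n2 n0 n1 (show α2 • u2 + α0 • u0 + α1 • u1 = 0 by rw [← rel]; abel)
  have hp : (0 : ℝ) < 2 * α0 * α1 := by positivity
  have hp2 : (0 : ℝ) < 2 * α2 * α0 := by positivity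
  have hc : ⟪u0, u1⟫ = cos θ01 := by
    have : 2 * α0 * α1 * ⟪u0, u1⟫ = 2 * α0 * α1 * cos θ01 := by linarith
    exact mul_left_cancel₀ hp.ne' this
  have hc2 : ⟪u2, u0⟫ = cos θ20 := by
    have : 2 * α2 * α0 * ⟪u2, u0⟫ = 2 * α2 * α0 * cos θ20 := by linarith
    exact mul_left_cancel₀ hp2.ne' this
  have i00 : ⟪u0, u0⟫ = 1 := by rw [real_inner_self_eq_norm_sq, n0, one_pow]
  have i11 : ⟪u1, u1⟫ = 1 := by rw [real_inner_self_eq_norm_sq, n1, one_pow]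
  have hsum : α0 + α1 * cos θ01 + α2 * cos θ20 = 0 := by
    have h3 : ⟪u0, α0 • u0 + α1 • u1 + α2 • u2⟫ = 0 := by rw [rel, inner_zero_right]
    rw [inner_add_right, inner_add_right, real_inner_smul_right, real_inner_smul_right,
      real_inner_smul_right, i00, hc, real_inner_comm u2 u0, hc2, mul_one] at h3
    exact h3
  have hs : α1 * sin θ01 = α2 * sin θ20 := by
    have h4 : (α1 * sin θ01) ^ 2 = (α2 * sin θ20) ^ 2 := by
      rw [mul_pow, mul_pow, sin_sq, sin_sq]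
      have h5 : α2 * cos θ20 = -(α0 + α1 * cos θ01) := by linarith
      have h6 : α2 ^ 2 * (1 - cos θ20 ^ 2) = α2 ^ 2 - (α2 * cos θ20) ^ 2 := by ring
      rw [h6, h5, c1]
      ring
    have h5 := abs_eq_abs.2 (sq_eq_sq_iff_eq_or_eq_neg.1 h4)
    rwa [abs_of_pos (mul_pos a1 s1), abs_of_pos (mul_pos a2 s2)] at h5
  obtain ⟨q, hq⟩ : ∃ q : Space n, q = (sin θ01)⁻¹ • (u1 - cos θ01 • u0) := ⟨_, rfl⟩
  have hu1 : u1 = cos θ01 • u0 + sin θ01 • q := by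
    rw [hq, smul_inv_smul₀ s1.ne']
    abel
  have hq0 : ⟪u0, q⟫ = 0 := by
    rw [hq, real_inner_smul_right, inner_sub_right, real_inner_smul_right, i00, hc, mul_one, sub_self,
      mul_zero]
  have hqn : ‖q‖ = 1 := by
    have h5 : ‖q‖ ^ 2 = 1 := by
      have h6 : ⟪u1, u1⟫ = cos θ01 ^ 2 + sin θ01 ^ 2 * ⟪q, q⟫ := by
        have h7 : ⟪u1, u1⟫ = ⟪cos θ01 • u0 + sin θ01 • q, cos θ01 • u0 + sin θ01 • q⟫ := by
          rw [← hu1]
        rw [h7, inner_add_left, inner_add_right, inner_add_right, real_inner_smul_left,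
          real_inner_smul_left, real_inner_smul_left, real_inner_smul_left, real_inner_smul_right,
          real_inner_smul_right, real_inner_smul_right, real_inner_smul_right, i00, hq0,
          real_inner_comm u0 q, hq0]
        ring
      rw [i11, real_inner_self_eq_norm_sq] at h6
      have h8 := sin_sq_add_cos_sq θ01
      have h9 : sin θ01 ^ 2 * ‖q‖ ^ 2 = sin θ01 ^ 2 * 1 := by linarith
      exact mul_left_cancel₀ (pow_pos s1 2).ne' h9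
    have h10 : ‖q‖ ^ 2 = 1 ^ 2 := by rw [h5, one_pow]
    exact (pow_left_inj₀ (norm_nonneg q) zero_le_one two_ne_zero).1 h10
  refine ⟨q, hqn, hq0, hu1, ?_⟩
  have h11 : α2 • u2 = α2 • (cos θ20 • u0 - sin θ20 • q) := by
    have h12 : α2 • u2 = -(α0 • u0 + α1 • u1) := by
      rw [eq_neg_iff_add_eq_zero, add_comm]
      exact rel
    rw [h12, smul_sub, smul_smul, smul_smul, ← hs, hu1, smul_add, smul_smul, smul_smul]
    have h13 : α2 * cos θ20 = -(α0 + α1 * cos θ01) := by linarith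
    rw [h13]
    module
  exact smul_right_injective (Space n) a2.ne' h11

end Pool.Agent.H34.RT
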