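import Pool.Agent.H34.RT.Defs

/-!
# Circ : a relation with independent vectors and non zero coefficients

`exists_linearIndependent` gives a linearly independent subset `B` of `{w | (∃ i, u i = w) ∧ w ≠ u j ∧ w ≠ -u j}` with the same span; write `u j` as a
finite combination of elements of `B` and keep the support. The support is not empty (`u j ≠ 0`) and has not one element (unit vectors `w`,
`u j = a w` gives `a = ± 1`).
-/

set_option autoImplicit false

open scoped RealInnerProductSpace

namespace Pool.Agent.H34.RT

variable {n : ℕ}

theorem circ {J : Type} {u : J → Space n} (hu : ∀ j, ‖u j‖ = 1) {j : J} (hj : Dep u j) :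
    ∃ (m : ℕ) (k : Fin m → J) (lam : Fin m → ℝ), 2 ≤ m ∧ LinearIndependent ℝ (fun i => u (k i)) ∧
      (∀ i, lam i ≠ 0) ∧ u j = ∑ i, lam i • u (k i) := by
  classical
  set W : Set (Space n) := {w | (∃ i, u i = w) ∧ w ≠ u j ∧ w ≠ -u j} with hW
  obtain ⟨b, hbW, hspan, hli⟩ := exists_linearIndependent ℝ W
  have hj' : u j ∈ Submodule.span ℝ (Set.range ((↑) : b → Space n)) := by
    rw [Subtype.range_coe, hspan]; exact hj
  obtain ⟨c, hc⟩ := Finsupp.mem_span_range_iff_exists_finsupp.1 hj'
  have hex : ∀ x : b, ∃ i, u i = (x : Space n) := fun x => (hbW x.2).1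
  choose idx hidx using hex
  set e := c.support.equivFin with he
  set m := c.support.card with hm
  refine ⟨m, fun i => idx (e.symm i), fun i => c (e.symm i), ?_, ?_, ?_, ?_⟩
  rotate_left
  · have h1 : LinearIndependent ℝ (fun i : Fin m => (((e.symm i : c.support) : b) : Space n)) := by
      refine hli.comp (fun i : Fin m => ((e.symm i : c.support) : b)) ?_
      intro i i' h
      exact e.symm.injective (Subtype.ext h)
    have h2 : (fun i : Fin m => u (idx (e.symm i))) =
        (fun i : Fin m => (((e.symm i : c.support) : b) : Space n)) := by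
      funext i; exact hidx _
    rw [h2]; exact h1
  · intro i
    exact Finsupp.mem_support_iff.1 (e.symm i).2
  · have h3 : ∑ i : Fin m, c (e.symm i) • u (idx (e.symm i)) = ∑ x : c.support, c x • ((x : b) : Space n) := by
      rw [← Equiv.sum_comp e.symm]
      exact Finset.sum_congr rfl (fun i _ => by rw [hidx])
    rw [h3, ← hc, Finsupp.sum]
    exact (Finset.sum_coe_sort c.support (fun x => c x • (x : Space n))).symm
  · by_contra hlt
    have h3 : ∑ i : Fin m, c (e.symm i) • ((e.symm i : b) : Space n) = u j := by
      have h4 : ∑ i : Fin m, c (e.symm i) • ((e.symm i : b) : Space n) =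
          ∑ x : c.support, c x • ((x : b) : Space n) := by
        rw [← Equiv.sum_comp e.symm]
      rw [h4, ← hc, Finsupp.sum]
      exact (Finset.sum_coe_sort c.support (fun x => c x • (x : Space n)))
    have hm2 : m = 0 ∨ m = 1 := by omega
    rcases hm2 with h0 | h1
    · have : u j = 0 := by
        rw [← h3]
        have : IsEmpty (Fin m) := by rw [h0]; infer_instance
        exact Finset.sum_of_isEmpty _
      have h5 := hu j
      rw [this, norm_zero] at h5
      exact zero_ne_one h5
    · have : Unique (Fin m) := by rw [h1]; infer_instance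
      rw [Fintype.sum_unique] at h3
      set x : b := ((e.symm default : c.support) : b) with hx
      have hxW := hbW x.2
      have hxn : ‖(x : Space n)‖ = 1 := by rw [← hidx x]; exact hu _
      have h6 : ‖u j‖ = |c x| * ‖(x : Space n)‖ := by
        rw [← h3, norm_smul, Real.norm_eq_abs]
      rw [hu j, hxn, mul_one] at h6
      rcases eq_or_eq_neg_of_abs_eq h6.symm with h7 | h7
      · apply hxW.2.1
        rw [← h3, h7, one_smul]
      · apply hxW.2.2
        rw [← h3, h7, neg_smul, one_smul, neg_neg]

end Pool.Agent.H34.RT
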