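import Pool.Agent.H34.RT.Loc

/-!
# Width : the case of independent normals

`width_of_rotor`: for a unit `x` take `A` with `Aᵀ u j = x` (`exists_rot_vec`) and add `supp K x = b j - ⟪u j, t⟫` and
`supp K (-x) = b k - ⟪u k, t⟫` (`touch_supp`, `u k = - u j`). `rotor_of_width`: no `j` is dependent. Choose a set `R` of indices with exactly one
element of each class `{i | u i = ± u j}`; the `u j`, `j ∈ R`, are linearly independent (otherwise some `u j` is in the span of the others, which are
not `± u j`). For `A` in `SO(n)` there is `t` with `⟪u j, t⟫ = b j - supp K (Aᵀ u j)` for `j ∈ R` (a linear functional with given values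
on linearly independent vectors), and then for all `j`: if `u i = - u j` by the width condition, `u i = u j` only for `i = j`. Then
`⟪u j, A x + t⟫ = ⟪x, Aᵀ u j⟫ + ⟪u j, t⟫`, maximum `b j`.
`ball_touches`: `t = z - A c`, the point `c + r Aᵀ u j`. `ball_center`: from `touch_supp` for `A = 1`: `z = c + t`.
-/

set_option autoImplicit false

open scoped RealInnerProductSpace

namespace Pool.Agent.H34.RT

variable {n : ℕ}

/-- the width of `K` in the direction `x` -/
noncomputable def width (K : Set (Space n)) (x : Space n) : ℝ :=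
  sSup ((fun y => ⟪y, x⟫) '' K) - sInf ((fun y => ⟪y, x⟫) '' K)

theorem width_eq {K : Set (Space n)} (hK : IsCompact K) (hne : K.Nonempty) (x : Space n) :
    width K x = supp K x + supp K (-x) := by
  have h1 : (fun y : Space n => ⟪y, -x⟫) '' K = -((fun y : Space n => ⟪y, x⟫) '' K) := by
    ext s
    rw [Set.mem_neg]
    constructor
    · rintro ⟨y, hy, rfl⟩
      exact ⟨y, hy, by simp only [inner_neg_right, neg_neg]⟩
    · rintro ⟨y, hy, he⟩
      refine ⟨y, hy, ?_⟩
      simp only [inner_neg_right] at he ⊢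
      linarith
  unfold width supp
  rw [h1, Real.sInf_def]
  ring

theorem touches_of_supp {J : Type} {u : J → Space n} {b : J → ℝ} {K : Set (Space n)} (hK : IsCompact K)
    (hne : K.Nonempty) {A : Matrix (Fin n) (Fin n) ℝ} (hA : A ∈ Matrix.specialOrthogonalGroup (Fin n) ℝ) {t : Space n}
    (h : ∀ j, supp K (move A.transpose 0 (u j)) = b j - ⟪u j, t⟫) : Touches u b K A := by
  obtain ⟨g, -, hg1, hg2⟩ := rot_of_mat hA
  have key : ∀ (j : J) (x : Space n), ⟪u j, move A t x⟫ = ⟪x, move A.transpose 0 (u j)⟫ + ⟪u j, t⟫ := by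
    intro j x
    rw [hg1, hg2, inner_add_right, ← LinearIsometryEquiv.inner_map_map g x (g.symm (u j)),
      LinearIsometryEquiv.apply_symm_apply, real_inner_comm (g x)]
  refine ⟨t, fun j => ⟨fun x hx => ?_, ?_⟩⟩
  · rw [key]
    have := le_supp hK hne hx (move A.transpose 0 (u j))
    rw [h j] at this
    linarith
  · obtain ⟨⟨x, hx, he⟩, -⟩ := supp_isGreatest hK hne (move A.transpose 0 (u j))
    refine ⟨x, hx, ?_⟩
    rw [key]
    simp only at he
    rw [he, h j]
    ring

theorem width_of_rotor (hn : 2 ≤ n) {J : Type} {u : J → Space n} (hu : ∀ j, ‖u j‖ = 1) {b : J → ℝ}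
    {K : Set (Space n)} (hK : IsCompact K) (hne : K.Nonempty)
    (hrot : ∀ A ∈ Matrix.specialOrthogonalGroup (Fin n) ℝ, Touches u b K A) {j k : J} (hjk : u j = -u k)
    {x : Space n} (hx : ‖x‖ = 1) : width K x = b j + b k := by
  obtain ⟨A, hA, hAx⟩ := exists_rot_vec hn (hu j) hx
  obtain ⟨t, ht⟩ := touch_supp hK hne hA (hrot A hA)
  obtain ⟨g, -, -, hg2⟩ := rot_of_mat hA
  have huk : u k = -u j := by rw [hjk, neg_neg]
  have h1 := ht j
  have h2 := ht k
  rw [hAx] at h1
  have h3 : move A.transpose 0 (u k) = -x := by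
    rw [hg2, huk, map_neg, ← hg2, hAx]
  rw [h3] at h2
  rw [width_eq hK hne, h1, h2, huk, inner_neg_left]
  ring

private lemma exists_inner {ι : Type*} {v : ι → Space n} (hli : LinearIndependent ℝ v) (c : ι → ℝ) :
    ∃ t : Space n, ∀ i, ⟪v i, t⟫ = c i := by
  obtain ⟨f, hf⟩ := LinearMap.exists_extend ((Finsupp.linearCombination ℝ c).comp hli.repr)
  refine ⟨(InnerProductSpace.toDual ℝ (Space n)).symm (LinearMap.toContinuousLinearMap f), fun i => ?_⟩
  rw [real_inner_comm, InnerProductSpace.toDual_symm_apply, LinearMap.coe_toContinuousLinearMap']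
  have h1 : v i ∈ Submodule.span ℝ (Set.range v) := Submodule.subset_span ⟨i, rfl⟩
  have h2 : f (v i) = (f.comp (Submodule.span ℝ (Set.range v)).subtype) ⟨v i, h1⟩ := rfl
  rw [h2, hf, LinearMap.comp_apply, LinearIndependent.repr_eq_single hli i ⟨v i, h1⟩ rfl,
    Finsupp.linearCombination_single, one_smul]

theorem rotor_of_width {J : Type} {u : J → Space n} (hu : ∀ j, ‖u j‖ = 1) (hinj : Function.Injective u) {b : J → ℝ}
    {K : Set (Space n)} (hK : IsCompact K) (hne : K.Nonempty) (hdep : ∀ j, ¬ Dep u j)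
    (hw : ∀ j k, u j = -u k → ∀ x : Space n, ‖x‖ = 1 → width K x = b j + b k) :
    ∀ A ∈ Matrix.specialOrthogonalGroup (Fin n) ℝ, Touches u b K A := by
  intro A hA
  obtain ⟨g, -, hg1, hg2⟩ := rot_of_mat hA
  let S : Setoid J :=
    { r := fun i j => u i = u j ∨ u i = -u j
      iseqv :=
        { refl := fun i => Or.inl rfl
          symm := fun {i j} h => by
            rcases h with h | h
            · exact Or.inl h.symm
            · exact Or.inr (by rw [h, neg_neg])
          trans := fun {i j k} h h' => by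
            rcases h with h | h <;> rcases h' with h' | h'
            · exact Or.inl (h.trans h')
            · exact Or.inr (h.trans h')
            · exact Or.inr (by rw [h, h'])
            · exact Or.inl (by rw [h, h', neg_neg]) } }
  have hrel : ∀ i j : J, S.r i j ↔ (u i = u j ∨ u i = -u j) := fun i j => Iff.rfl
  have hli : LinearIndependent ℝ fun q : Quotient S => u q.out := by
    rw [linearIndependent_iff_notMem_span]
    intro q hq
    apply hdep q.out
    refine Submodule.span_mono ?_ hq
    rintro w ⟨p, hp, rfl⟩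
    have hpq : p ≠ q := fun h => hp.2 (by rw [h]; exact Set.mem_singleton q)
    refine ⟨⟨_, rfl⟩, fun h => hpq ?_, fun h => hpq ?_⟩
    · rw [← Quotient.out_eq p, ← Quotient.out_eq q]
      exact Quotient.sound (Or.inl h)
    · rw [← Quotient.out_eq p, ← Quotient.out_eq q]
      exact Quotient.sound (Or.inr h)
  obtain ⟨t, ht⟩ := exists_inner hli fun q => b q.out - supp K (g.symm (u q.out))
  refine touches_of_supp hK hne hA (t := t) fun j => ?_
  rw [hg2]
  have hj : u (Quotient.mk S j).out = u j ∨ u (Quotient.mk S j).out = -u j :=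
    Quotient.exact (Quotient.out_eq (Quotient.mk S j))
  have h1 := ht (Quotient.mk S j)
  rcases hj with h | h
  · rw [hinj h] at h1
    linarith
  · have h2 := hw j _ (by rw [h, neg_neg]) (g.symm (u j)) (by rw [LinearIsometryEquiv.norm_map, hu])
    rw [width_eq hK hne, ← map_neg, ← h] at h2
    have h3 : ⟪u (Quotient.mk S j).out, t⟫ = -⟪u j, t⟫ := by rw [h, inner_neg_left]
    rw [h3] at h1
    linarith

theorem ball_touches {J : Type} {u : J → Space n} (hu : ∀ j, ‖u j‖ = 1) {b : J → ℝ} {c z : Space n} {r : ℝ}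
    (hr : 0 < r) (hz : ∀ j, ⟪u j, z⟫ = b j - r) :
    ∀ A ∈ Matrix.specialOrthogonalGroup (Fin n) ℝ, Touches u b (Metric.closedBall c r) A := by
  intro A hA
  obtain ⟨g, -, hg1, hg2⟩ := rot_of_mat hA
  have key : ∀ (j : J) (x : Space n), ⟪u j, move A (z - g c) x⟫ = ⟪u j, g (x - c)⟫ + (b j - r) := by
    intro j x
    rw [hg1, ← hz j, ← inner_add_right, map_sub]
    congr 1
    abel
  refine ⟨z - g c, fun j => ⟨fun x hx => ?_, c + r • g.symm (u j), ?_, ?_⟩⟩
  · rw [key]
    have h1 := real_inner_le_norm (u j) (g (x - c))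
    rw [hu, one_mul, LinearIsometryEquiv.norm_map] at h1
    rw [Metric.mem_closedBall, dist_eq_norm] at hx
    linarith
  · rw [Metric.mem_closedBall, dist_eq_norm, add_sub_cancel_left, norm_smul, LinearIsometryEquiv.norm_map, hu,
      mul_one, Real.norm_of_nonneg hr.le]
  · rw [key, add_sub_cancel_left, map_smul, LinearIsometryEquiv.apply_symm_apply, inner_smul_right,
      real_inner_self_eq_norm_sq, hu]
    ring

theorem ball_center {J : Type} {u : J → Space n} (hu : ∀ j, ‖u j‖ = 1) {b : J → ℝ} {c : Space n} {r : ℝ}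
    (hr : 0 < r) (hrot : ∀ A ∈ Matrix.specialOrthogonalGroup (Fin n) ℝ, Touches u b (Metric.closedBall c r) A) :
    ∃ z : Space n, ∀ j, ⟪u j, z⟫ = b j - r := by
  have h1 : (1 : Matrix (Fin n) (Fin n) ℝ) ∈ Matrix.specialOrthogonalGroup (Fin n) ℝ := one_mem _
  have hK : IsCompact (Metric.closedBall c r) := isCompact_closedBall c r
  have hne : (Metric.closedBall c r).Nonempty := ⟨c, Metric.mem_closedBall_self hr.le⟩
  obtain ⟨t, ht⟩ := touch_supp hK hne h1 (hrot 1 h1)
  refine ⟨c + t, fun j => ?_⟩
  have h2 : move (1 : Matrix (Fin n) (Fin n) ℝ).transpose 0 (u j) = u j := by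
    unfold move
    rw [Matrix.transpose_one, Matrix.one_mulVec, add_zero]
  have h3 := ht j
  rw [h2] at h3
  have h4 : supp (Metric.closedBall c r) (u j) = ⟪c, u j⟫ + r := by
    refine supp_eq hK hne (fun x hx => ?_) ⟨c + r • u j, ?_, ?_⟩
    · have h5 := real_inner_le_norm (x - c) (u j)
      rw [hu, mul_one, inner_sub_left] at h5
      rw [Metric.mem_closedBall, dist_eq_norm] at hx
      linarith
    · rw [Metric.mem_closedBall, dist_eq_norm, add_sub_cancel_left, norm_smul, hu, mul_one,
        Real.norm_of_nonneg hr.le]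
    · rw [inner_add_left, inner_smul_left, real_inner_self_eq_norm_sq, hu]
      simp
  rw [h4] at h3
  rw [inner_add_right, real_inner_comm c]
  linarith

end Pool.Agent.H34.RT
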