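import Pool.Agent.H34.RT.Glob
import Pool.Agent.H34.RT.Width

/-!
# Cls : the classification
-/

set_option autoImplicit false

open scoped RealInnerProductSpace

namespace Pool.Agent.H34.RT

variable {n : ℕ}

theorem classification (hn : 3 ≤ n) {J : Type} {u : J → Space n} (hu : ∀ j, ‖u j‖ = 1)
    (hinj : Function.Injective u) {b : J → ℝ} (hv : ∃ v : Space n, v ≠ 0 ∧ ∀ j, ⟪u j, v⟫ = 0) {K : Set (Space n)}
    (hconv : Convex ℝ K) (hK : IsCompact K) (hint : (interior K).Nonempty) :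
    (∀ A ∈ Matrix.specialOrthogonalGroup (Fin n) ℝ, Touches u b K A) ↔
      (∃ (c z : Space n) (r : ℝ), 0 < r ∧ K = Metric.closedBall c r ∧ ∀ j, ⟪u j, z⟫ = b j - r) ∨
      ((∀ j, ¬ Dep u j) ∧ ∀ j k, u j = -u k → ∀ x : Space n, ‖x‖ = 1 → width K x = b j + b k) := by
  have hne : K.Nonempty := hint.mono interior_subset
  obtain ⟨v, hv0, huv⟩ := hv
  constructor
  · intro hrot
    by_cases hdep : ∃ j, Dep u j
    · left
      obtain ⟨j, hj⟩ := hdep
      obtain ⟨c, r, hr, hball⟩ := rotor_ball hn hu hv0 huv hconv hK hint hrot hj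
      rw [hball] at hrot
      obtain ⟨z, hz⟩ := ball_center hu hr hrot
      exact ⟨c, z, r, hr, hball, hz⟩
    · right
      refine ⟨fun j hj => hdep ⟨j, hj⟩, fun j k hjk x hx => ?_⟩
      exact width_of_rotor (by omega) hu hK hne hrot hjk hx
  · rintro (⟨c, z, r, hr, rfl, hz⟩ | ⟨hdep, hw⟩)
    · exact ball_touches hu hr hz
    · exact rotor_of_width hu hinj hK hne hdep hw

end Pool.Agent.H34.RT
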