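import Pool.Agent.H34.RT.Glob

/-!
# Conn : local rigidity over a connected open set of orientations
-/

set_option autoImplicit false

open scoped RealInnerProductSpace

namespace Pool.Agent.H34.RT

variable {n : ℕ}

theorem connected_rigidity (hn : 3 ≤ n) {J : Type} {u : J → Space n} (hu : ∀ j, ‖u j‖ = 1) {b : J → ℝ}
    {v : Space n} (hv : v ≠ 0) (huv : ∀ j, ⟪u j, v⟫ = 0) {K : Set (Space n)} (hK : IsCompact K) (hne : K.Nonempty)
    {V : Set (Matrix.specialOrthogonalGroup (Fin n) ℝ)} (hV : IsOpen V) (hVc : IsPreconnected V)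
    (hrot : ∀ A ∈ V, Touches u b K (A : Matrix (Fin n) (Fin n) ℝ)) {j : J} (hj : Dep u j) :
    ∃ (c : Space n) (r : ℝ), 0 ≤ r ∧ ∀ A ∈ V,
      c + r • move (A : Matrix (Fin n) (Fin n) ℝ).transpose 0 (u j) ∈ K ∧
      ∀ x ∈ K, x ≠ c + r • move (A : Matrix (Fin n) (Fin n) ℝ).transpose 0 (u j) →
        ⟪x - c, move (A : Matrix (Fin n) (Fin n) ℝ).transpose 0 (u j)⟫ < r := by
  obtain ⟨V', hV', rfl⟩ := isOpen_induced_iff.mp hV
  set D : Matrix.specialOrthogonalGroup (Fin n) ℝ → Space n :=
    fun A => move (A : Matrix (Fin n) (Fin n) ℝ).transpose 0 (u j) with hD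
  have hDc : Continuous D := (continuous_move (u j)).comp continuous_subtype_val
  have hD1 : ∀ A, ‖D A‖ = 1 := by
    intro A
    obtain ⟨g, -, -, hg⟩ := rot_of_mat A.2
    rw [hD]
    show ‖move (A : Matrix (Fin n) (Fin n) ℝ).transpose 0 (u j)‖ = 1
    rw [hg, LinearIsometryEquiv.norm_map]
    exact hu j
  have hloc : ∀ A : Matrix.specialOrthogonalGroup (Fin n) ℝ, A ∈ Subtype.val ⁻¹' V' →
      ∃ (c : Space n) (r η : ℝ), 0 < η ∧ ∀ x : Space n, ‖x‖ = 1 → ‖x - D A‖ < η → supp K x = ⟪c, x⟫ + r := by
    intro A hA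
    exact loc_lin hn hu hv huv hK hne hV' (fun B hB hB' => hrot ⟨B, hB'⟩ hB) hj hA A.2
  by_cases hVe : (Subtype.val ⁻¹' V' : Set (Matrix.specialOrthogonalGroup (Fin n) ℝ)).Nonempty
  swap
  · rw [Set.not_nonempty_iff_eq_empty] at hVe
    refine ⟨0, 0, le_rfl, fun A hA => ?_⟩
    rw [hVe] at hA
    exact absurd hA (Set.notMem_empty A)
  choose! c r η hη hlin using hloc
  obtain ⟨A0, hA0⟩ := hVe
  -- the pair is constant
  have hconst : ∀ A ∈ (Subtype.val ⁻¹' V' : Set (Matrix.specialOrthogonalGroup (Fin n) ℝ)),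
      (c A, r A) = (c A0, r A0) := by
    set X := ↥(Subtype.val ⁻¹' V' : Set (Matrix.specialOrthogonalGroup (Fin n) ℝ)) with hX
    haveI : PreconnectedSpace X := Subtype.preconnectedSpace hVc
    let f : X → Space n × ℝ := fun A => (c A, r A)
    have hf : IsLocallyConstant f := by
      rw [IsLocallyConstant.iff_exists_open]
      intro A
      refine ⟨{B : X | ‖D B - D A‖ < η A}, ?_, ?_, ?_⟩
      · apply isOpen_lt
        · exact ((hDc.comp continuous_subtype_val).sub continuous_const).norm
        · exact continuous_const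
      · show ‖D A - D A‖ < η A
        rw [sub_self, norm_zero]
        exact hη A A.2
      · intro B hB
        have hB' : ‖D B - D A‖ < η A := hB
        have hpos : 0 < min (η B) (η A - ‖D B - D A‖) := lt_min (hη B B.2) (by linarith)
        have h1 := lin_unique (n := n) (by omega) (y := D B) (d := c B - c A) (s := r A - r B) hpos (hD1 B) (by
          intro x hx hxB
          have h2 := hlin B B.2 x hx (hxB.trans_le (min_le_left _ _))
          have h3 : ‖x - D A‖ < η A := by
            have h4 : x - D A = (x - D B) + (D B - D A) := by abel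
            rw [h4]
            have h5 := hxB.trans_le (min_le_right _ _)
            have h6 := norm_add_le (x - D B) (D B - D A)
            linarith
          have h7 := hlin A A.2 x hx h3
          rw [inner_sub_left]
          linarith)
        show (c B, r B) = (c A, r A)
        rw [sub_eq_zero.mp h1.1, sub_eq_zero.mp h1.2]
    intro A hA
    exact hf.apply_eq_of_isPreconnected isPreconnected_univ (x := (⟨A, hA⟩ : X)) (y := ⟨A0, hA0⟩) trivial trivial
  refine ⟨c A0, r A0, ?_, ?_⟩
  · exact (unique_contact (by omega) hK hne (hη A0 hA0) (hD1 A0) (hlin A0 hA0)).1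
  · intro A hA
    have h1 := unique_contact (by omega) hK hne (hη A hA) (hD1 A) (hlin A hA)
    have h2 := hconst A hA
    rw [Prod.mk.injEq] at h2
    rw [h2.1, h2.2] at h1
    exact h1.2

end Pool.Agent.H34.RT
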