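import Pool.Agent.H34.RT.Conn

/-!
# Conn2 : local rigidity for arbitrary polyhedral sets

Only the normals orthogonal to `v` are used.
-/

set_option autoImplicit false

open scoped RealInnerProductSpace

namespace Pool.Agent.H34.RT

variable {n : ℕ}

theorem connected_rigidity' (hn : 3 ≤ n) {J : Type} {u : J → Space n} (hu : ∀ j, ‖u j‖ = 1) {b : J → ℝ}
    {K : Set (Space n)} (hK : IsCompact K) (hne : K.Nonempty)
    {V : Set (Matrix.specialOrthogonalGroup (Fin n) ℝ)} (hV : IsOpen V) (hVc : IsPreconnected V)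
    (hrot : ∀ A ∈ V, Touches u b K (A : Matrix (Fin n) (Fin n) ℝ)) {v : Space n} (hv : v ≠ 0) {j : J}
    (hj : u j ∈ Submodule.span ℝ {w | (∃ i, u i = w) ∧ ⟪w, v⟫ = 0 ∧ w ≠ u j ∧ w ≠ -u j}) :
    ∃ (c : Space n) (r : ℝ), 0 ≤ r ∧ ∀ A ∈ V,
      c + r • move (A : Matrix (Fin n) (Fin n) ℝ).transpose 0 (u j) ∈ K ∧
      ∀ x ∈ K, x ≠ c + r • move (A : Matrix (Fin n) (Fin n) ℝ).transpose 0 (u j) →
        ⟪x - c, move (A : Matrix (Fin n) (Fin n) ℝ).transpose 0 (u j)⟫ < r := by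
  have hjv : ⟪u j, v⟫ = 0 := by
    have h1 : ∀ x ∈ Submodule.span ℝ {w | (∃ i, u i = w) ∧ ⟪w, v⟫ = 0 ∧ w ≠ u j ∧ w ≠ -u j}, ⟪x, v⟫ = 0 := by
      intro x hx
      induction hx using Submodule.span_induction with
      | mem x hx => exact hx.2.1
      | zero => exact inner_zero_left _
      | add x y _ _ hx hy => rw [inner_add_left, hx, hy, add_zero]
      | smul a x _ hx => rw [inner_smul_left, hx, mul_zero]
    exact h1 _ hj
  let u' : {i : J // ⟪u i, v⟫ = 0} → Space n := fun i => u i.1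
  let b' : {i : J // ⟪u i, v⟫ = 0} → ℝ := fun i => b i.1
  refine connected_rigidity hn (u := u') (b := b') (fun i => hu i.1) hv (fun i => i.2) hK hne hV hVc
    (fun A hA => ?_) (j := ⟨j, hjv⟩) ?_
  · obtain ⟨t, ht⟩ := hrot A hA
    exact ⟨t, fun i => ht i.1⟩
  · show u j ∈ Submodule.span ℝ {w | (∃ i, u' i = w) ∧ w ≠ u j ∧ w ≠ -u j}
    refine Submodule.span_mono ?_ hj
    rintro w ⟨⟨i, rfl⟩, hw, h1, h2⟩
    exact ⟨⟨⟨i, hw⟩, rfl⟩, h1, h2⟩

end Pool.Agent.H34.RT
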