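import Pool.Agent.H34.RT.Defs

/-!
# Grad : gradient of a support function

`gradient h y` with `DifferentiableAt.hasGradientAt`. `grad_self`: derivative of `t ↦ h ((1 + t) • y) = (1 + t) * h y` at `0` (Euler).
`grad_le`: for a convex function `h y + ⟪gradient h y, z - y⟫ ≤ h z` (convexity along the segment: `h (y + t (z - y)) - h y ≤ t (h z - h y)`,
divide by `t → 0+`).
-/

set_option autoImplicit false

open scoped RealInnerProductSpace

namespace Pool.Agent.H34.RT

variable {n : ℕ}

/-- derivative along a line -/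
private theorem grad_line {h : Space n → ℝ} {y : Space n} (hy : DifferentiableAt ℝ h y) (d : Space n) :
    HasDerivAt (fun t : ℝ => h (y + t • d)) ⟪gradient h y, d⟫ 0 := by
  have h1 : HasFDerivAt h (InnerProductSpace.toDual ℝ (Space n) (gradient h y)) y := hy.hasGradientAt
  have h2 : HasDerivAt (fun t : ℝ => y + t • d) d 0 := by
    have := ((hasDerivAt_id (0 : ℝ)).smul_const d).const_add y
    simpa using this
  have h3 : HasFDerivAt h (InnerProductSpace.toDual ℝ (Space n) (gradient h y)) (y + (0 : ℝ) • d) := by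
    rw [zero_smul, add_zero]
    exact h1
  have h4 := HasFDerivAt.comp_hasDerivAt (0 : ℝ) h3 h2
  rw [InnerProductSpace.toDual_apply_apply] at h4
  exact h4

theorem grad_self {h : Space n → ℝ} (hh : Sup h) {y : Space n} (hy : DifferentiableAt ℝ h y) :
    ⟪gradient h y, y⟫ = h y := by
  have h1 := grad_line hy y
  have h2 : HasDerivAt (fun t : ℝ => (1 + t) * h y) (h y) 0 := by
    have := ((hasDerivAt_id (0 : ℝ)).const_add 1).mul_const (h y)
    simpa using this
  have h3 : (fun t : ℝ => h (y + t • y)) =ᶠ[nhds 0] fun t : ℝ => (1 + t) * h y := by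
    have h4 : Set.Ioi (-1 : ℝ) ∈ nhds (0 : ℝ) := Ioi_mem_nhds (by norm_num)
    filter_upwards [h4] with t ht
    have ht' : (-1 : ℝ) < t := ht
    have h5 : y + t • y = (1 + t) • y := by rw [add_smul, one_smul]
    rw [h5, hh.hom _ _ (by linarith)]
  exact h1.unique (h2.congr_of_eventuallyEq h3)

theorem grad_le {h : Space n → ℝ} (hh : Sup h) {y : Space n} (hy : DifferentiableAt ℝ h y) (z : Space n) :
    h y + ⟪gradient h y, z - y⟫ ≤ h z := by
  have h1 := (grad_line hy (z - y)).tendsto_slope_zero_right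
  have h2 : ⟪gradient h y, z - y⟫ ≤ h z - h y := by
    refine le_of_tendsto h1 ?_
    have h3 : Set.Ioo (0 : ℝ) 1 ∈ nhdsWithin (0 : ℝ) (Set.Ioi 0) := Ioo_mem_nhdsGT one_pos
    filter_upwards [h3] with t ht
    have ht0 : 0 < t := ht.1
    have ht1 : t < 1 := ht.2
    have h4 := hh.conv.2 (Set.mem_univ y) (Set.mem_univ z) (by linarith : (0 : ℝ) ≤ 1 - t) ht0.le (by ring)
    have h5 : (1 - t) • y + t • z = y + (0 + t) • (z - y) := by
      rw [zero_add, sub_smul, one_smul, smul_sub]
      abel
    rw [h5] at h4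
    simp only [smul_eq_mul, zero_smul, add_zero] at h4 ⊢
    rw [inv_mul_le_iff₀ ht0]
    linarith
  linarith

end Pool.Agent.H34.RT
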