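import Pool.Agent.H34.RT.Diff
import Pool.Agent.H34.RT.Grad

/-!
# KConst : local constancy of `h y - ⟪V, y⟫` on the sphere

`k y = h y - ⟪V, y⟫`. For unit `y ∉ P`, `‖y - p‖ < η`, of differentiability, and a unit vector `z`, `grad_le`:
`h z ≥ h y + ⟪V + k y y, z - y⟫`, that is `k z - k y ≥ - k y (1 - ⟪y, z⟫) = - k y ‖z - y‖² / 2 ≥ - M ‖z - y‖²` with a bound `M` of `|k|` on the unit
sphere (`Sup.lip`). By `near_diff` (density) and continuity this holds for all unit `y, z` with `‖y - p‖ < η`; exchanging `y` and `z`: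
`|k z - k y| ≤ M ‖z - y‖²` for all unit `y, z` with `‖y - p‖ < η`, `‖z - p‖ < η`. Take `η' = min (η / 4) (1 / 4)`. For a unit `z` with `‖z - p‖ < η'` and
`s ∈ [0, 1]` let `γ s = ‖p + s (z - p)‖⁻¹ (p + s (z - p))`; it is a Lipschitz curve of unit vectors at distance `< η` from `p`, so
`|k (γ s) - k (γ t)| ≤ M' |s - t|²` on `[0, 1]`, so `k ∘ γ` is constant (subdivide `[0, 1]` into `N` parts, or derivative zero), `k z = k p`.
-/

set_option autoImplicit false

open scoped RealInnerProductSpace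

namespace Pool.Agent.H34.RT

variable {n : ℕ}

private theorem kc_norm {x : Space n} (hx : x ≠ 0) : ‖‖x‖⁻¹ • x‖ = 1 := by
  rw [norm_smul, norm_inv, norm_norm, inv_mul_cancel₀ (norm_ne_zero_iff.2 hx)]

private theorem kc_lip {x y : Space n} (hx : 3 / 4 ≤ ‖x‖) (hy : 3 / 4 ≤ ‖y‖) :
    ‖‖x‖⁻¹ • x - ‖y‖⁻¹ • y‖ ≤ 3 * ‖x - y‖ := by
  have hx0 : 0 < ‖x‖ := by linarith
  have hy0 : 0 < ‖y‖ := by linarith
  have e1 : ‖x‖⁻¹ • x - ‖y‖⁻¹ • y = ‖x‖⁻¹ • (x - y) + (‖x‖⁻¹ - ‖y‖⁻¹) • y := by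
    rw [smul_sub, sub_smul]
    abel
  have e2 : |‖x‖⁻¹ - ‖y‖⁻¹| * ‖y‖ ≤ ‖x‖⁻¹ * ‖x - y‖ := by
    have h1 : ‖x‖⁻¹ - ‖y‖⁻¹ = ‖x‖⁻¹ * ((‖y‖ - ‖x‖) * ‖y‖⁻¹) := by
      field_simp
    rw [h1, abs_mul, abs_mul, abs_of_pos (inv_pos.2 hx0), abs_of_pos (inv_pos.2 hy0), mul_assoc,
      mul_assoc, inv_mul_cancel₀ hy0.ne', mul_one]
    refine mul_le_mul_of_nonneg_left ?_ (inv_pos.2 hx0).le
    rw [abs_sub_comm]
    exact abs_norm_sub_norm_le x y
  have e3 : ‖x‖⁻¹ ≤ 4 / 3 := by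
    rw [inv_le_comm₀ hx0 (by norm_num)]
    linarith
  rw [e1]
  refine (norm_add_le _ _).trans ?_
  rw [norm_smul, norm_smul, norm_inv, norm_norm, Real.norm_eq_abs]
  have h4 := mul_le_mul_of_nonneg_right e3 (norm_nonneg (x - y))
  have h5 := norm_nonneg (x - y)
  linarith

theorem const_of_form {h : Space n → ℝ} (hh : Sup h) {p : Space n} (hp : ‖p‖ = 1) {V : Space n} {η : ℝ} (hη : 0 < η)
    {P : Submodule ℝ (Space n)} (hP : P ≠ ⊤)
    (hG : ∀ y, y ∉ P → ‖y‖ = 1 → ‖y - p‖ < η → DifferentiableAt ℝ h y →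
      gradient h y = V + (h y - ⟪V, y⟫) • y) :
    ∃ c η' : ℝ, 0 < η' ∧ ∀ x : Space n, ‖x‖ = 1 → ‖x - p‖ < η' → h x = ⟪V, x⟫ + c := by
  obtain ⟨L, hL0, hL⟩ := hh.lip
  have hcont : Continuous h := by
    refine (LipschitzWith.of_dist_le_mul (K := ⟨L, hL0⟩) fun x y => ?_).continuous
    rw [Real.dist_eq, dist_eq_norm]
    exact hL x y
  have h0 : h 0 = 0 := by
    have h1 := hh.hom 0 0 le_rfl
    rw [smul_zero, zero_mul] at h1
    exact h1
  set k : Space n → ℝ := fun y => h y - ⟪V, y⟫ with hk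
  have hkc : Continuous k := hcont.sub (continuous_const.inner continuous_id)
  set M : ℝ := L + ‖V‖ with hM
  have hM0 : 0 ≤ M := by positivity
  have hkb : ∀ y : Space n, ‖y‖ = 1 → k y ≤ M := by
    intro y hy
    have h1 := hL y 0
    rw [h0, sub_zero, sub_zero, hy, mul_one] at h1
    have h2 := abs_real_inner_le_norm V y
    rw [hy, mul_one] at h2
    show h y - ⟪V, y⟫ ≤ L + ‖V‖
    have h3 := abs_le.1 h1
    have h4 := abs_le.1 h2
    linarith
  -- points of differentiability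
  have key1 : ∀ y z : Space n, y ∉ P → ‖y‖ = 1 → ‖y - p‖ < η → DifferentiableAt ℝ h y → ‖z‖ = 1 →
      k y - M * ‖z - y‖ ^ 2 ≤ k z := by
    intro y z hyP hy hyp hd hz
    have h1 := grad_le hh hd z
    rw [hG y hyP hy hyp hd, inner_add_left, real_inner_smul_left, inner_sub_right, inner_sub_right,
      real_inner_self_eq_norm_sq, hy] at h1
    have h2 := norm_sub_sq_real z y
    rw [hz, hy, real_inner_comm] at h2
    have h3 := hkb y hy
    have h5 : k y * (1 - ⟪y, z⟫) ≤ M * (1 - ⟪y, z⟫) := by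
      refine mul_le_mul_of_nonneg_right h3 ?_
      have := sq_nonneg ‖z - y‖
      linarith
    have h6 : k y = h y - ⟪V, y⟫ := rfl
    have h7 : k z = h z - ⟪V, z⟫ := rfl
    have h8 : 0 ≤ M * ‖z - y‖ ^ 2 := by positivity
    have h9 : M * ‖z - y‖ ^ 2 = 2 * (M * (1 - ⟪y, z⟫)) := by rw [h2]; ring
    rw [← h6] at h1
    have h10 : k y * (⟪y, z⟫ - 1 ^ 2) = -(k y * (1 - ⟪y, z⟫)) := by ring
    rw [h10] at h1
    linarith
  -- all points
  have key2 : ∀ y z : Space n, ‖y‖ = 1 → ‖y - p‖ < η → ‖z‖ = 1 → k y - M * ‖z - y‖ ^ 2 ≤ k z := by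
    intro y z hy hyp hz
    by_contra hcon
    push Not at hcon
    have ho1 : IsOpen {y' : Space n | k z < k y' - M * ‖z - y'‖ ^ 2} :=
      isOpen_lt continuous_const (by fun_prop)
    have ho2 : IsOpen {y' : Space n | ‖y' - p‖ < η} := isOpen_lt (by fun_prop) continuous_const
    obtain ⟨y', ⟨h1, h2⟩, h3, h4, h5⟩ := near_diff hh hP hy (ho1.inter ho2) ⟨hcon, hyp⟩
    exact absurd (key1 y' z h3 h4 h2 h5 hz) (not_le.2 h1)
  have key3 : ∀ y z : Space n, ‖y‖ = 1 → ‖y - p‖ < η → ‖z‖ = 1 → ‖z - p‖ < η →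
      |k z - k y| ≤ M * ‖z - y‖ ^ 2 := by
    intro y z hy hyp hz hzp
    have h1 := key2 y z hy hyp hz
    have h2 := key2 z y hz hzp hy
    rw [norm_sub_rev] at h2
    rw [abs_le]
    constructor <;> linarith
  -- the radial extension
  set r : ℝ := min (η / 4) (1 / 4) with hr
  have hr0 : 0 < r := lt_min (by positivity) (by norm_num)
  have hr1 : r ≤ η / 4 := min_le_left _ _
  have hr2 : r ≤ 1 / 4 := min_le_right _ _
  have hnorm : ∀ x ∈ Metric.ball p r, 3 / 4 ≤ ‖x‖ := by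
    intro x hx
    rw [Metric.mem_ball, dist_eq_norm] at hx
    have h1 := norm_sub_norm_le p x
    rw [hp, norm_sub_rev] at h1
    linarith
  have hnear : ∀ x ∈ Metric.ball p r, ‖‖x‖⁻¹ • x - p‖ < η := by
    intro x hx
    have h1 := kc_lip (hnorm x hx) (by rw [hp]; norm_num : 3 / 4 ≤ ‖p‖)
    rw [hp, inv_one, one_smul] at h1
    rw [Metric.mem_ball, dist_eq_norm] at hx
    linarith
  set K : Space n → ℝ := fun x => k (‖x‖⁻¹ • x) with hK
  have hKest : ∀ x ∈ Metric.ball p r, ∀ y ∈ Metric.ball p r, |K y - K x| ≤ 9 * M * ‖y - x‖ ^ 2 := by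
    intro x hx y hy
    have hx1 := hnorm x hx
    have hy1 := hnorm y hy
    have hx0 : x ≠ 0 := norm_ne_zero_iff.1 (by linarith : ‖x‖ ≠ 0)
    have hy0 : y ≠ 0 := norm_ne_zero_iff.1 (by linarith : ‖y‖ ≠ 0)
    have h1 := key3 _ _ (kc_norm hx0) (hnear x hx) (kc_norm hy0) (hnear y hy)
    refine h1.trans ?_
    have h2 := kc_lip hy1 hx1
    have h3 : ‖‖y‖⁻¹ • y - ‖x‖⁻¹ • x‖ ^ 2 ≤ (3 * ‖y - x‖) ^ 2 := by
      gcongr
    have h4 := mul_le_mul_of_nonneg_left h3 hM0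
    have h5 : M * (3 * ‖y - x‖) ^ 2 = 9 * M * ‖y - x‖ ^ 2 := by ring
    linarith
  have hder : ∀ x ∈ Metric.ball p r, HasFDerivWithinAt K (0 : Space n →L[ℝ] ℝ) (Metric.ball p r) x := by
    intro x hx
    rw [hasFDerivWithinAt_iff_isLittleO]
    have h1 : (fun y => K y - K x - (0 : Space n →L[ℝ] ℝ) (y - x)) =O[nhdsWithin x (Metric.ball p r)]
        fun y => ‖y - x‖ ^ 2 := by
      refine Asymptotics.IsBigO.of_bound (9 * M) ?_
      filter_upwards [self_mem_nhdsWithin] with y hy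
      rw [zero_apply, sub_zero, Real.norm_eq_abs, norm_pow, norm_norm]
      exact hKest x hx y hy
    have h2 : (fun y : Space n => ‖y - x‖ ^ 2) =o[nhdsWithin x (Metric.ball p r)] fun y => y - x := by
      have h3 : (fun y : Space n => ‖y - x‖ ^ 2) =o[nhds x] fun y => y - x := by
        have h4 := Asymptotics.isLittleO_norm_pow_id (E' := Space n) one_lt_two
        have h5 : Filter.Tendsto (fun y : Space n => y - x) (nhds x) (nhds 0) := by
          have h6 : Filter.Tendsto (fun y : Space n => y - x) (nhds x) (nhds (x - x)) :=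
            (continuous_id.sub continuous_const).tendsto x
          rwa [sub_self] at h6
        exact h4.comp_tendsto h5
      exact h3.mono nhdsWithin_le_nhds
    exact h1.trans_isLittleO h2
  have hconst : ∀ x ∈ Metric.ball p r, K x = K p := by
    intro x hx
    refine (convex_ball p r).is_const_of_fderivWithin_eq_zero (𝕜 := ℝ)
      (fun y hy => (hder y hy).differentiableWithinAt) (fun y hy => ?_) hx (Metric.mem_ball_self hr0)
    exact (hder y hy).fderivWithin (Metric.isOpen_ball.uniqueDiffWithinAt hy)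
  refine ⟨k p, r, hr0, fun x hx hxp => ?_⟩
  have h1 := hconst x (by rw [Metric.mem_ball, dist_eq_norm]; exact hxp)
  have h2 : K x = k x := by
    show k (‖x‖⁻¹ • x) = k x
    rw [hx, inv_one, one_smul]
  have h3 : K p = k p := by
    show k (‖p‖⁻¹ • p) = k p
    rw [hp, inv_one, one_smul]
  rw [h2, h3] at h1
  have h4 : k x = h x - ⟪V, x⟫ := rfl
  rw [← h1, h4]
  ring

end Pool.Agent.H34.RT
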