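import Pool.Agent.H34.RT.Trans

/-!
# Per : mixed second differences from the periodicity

`q, η, C'` from `periodic`. Take `η1 = min η 1 / 8`. Given `y, y', m` as in `QM` (with `η1`) put `e = y'`, `c = ⟪y, y'⟫`, `f = (1 - c²)^(-1/2) (y - c y')`,
`ψ1 = arccos c ∈ (0, π)`, so `y = cos ψ1 e + sin ψ1 f`; `ψ1 ≤ 2 ‖y - y'‖ < η`, and `(y - y') / ‖y - y'‖ = - sin (ψ1/2) e + cos (ψ1/2) f`, so `f` is close to
`q`. `m ⊥ e, f`. For `t > 0` small put `σ = α0 t / √(1 + t²)`: `√(1 - (σ/α0)²) = 1 / √(1 + t²)` and by homogeneity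
`DD F0 α0 σ e f m ψ = (√(1 + t²))⁻¹ (F0 (x + t m) - F0 (x - t m))`, `x = cos ψ e + sin ψ f`. With `k = ⌊ψ1 / ε'⌋` (all `ψ1 - j ε'`, `j ≤ k`, are in
`[0, ψ1]`): `DD ψ1 = DD (ψ1 - k ε')`, `0 ≤ ψ1 - k ε' < ε'`, and `|DD ψ - DD 0| ≤ 2 L |ψ|` (`F0` is `L`-Lipschitz, `ψ ↦ cos ψ e + sin ψ f` is `1`-Lipschitz).
So the difference is at most `2 L ε' √(1 + t²) ≤ 4 L C' σ² ≤ 4 L C' α0² t²`.
-/

set_option autoImplicit false

open scoped RealInnerProductSpace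
open Real

namespace Pool.Agent.H34.RT

variable {n : ℕ}

private theorem dd_eq {F : Space n → ℝ} (hh : Sup F) {α t : ℝ} (a0 : 0 < α) (e f m : Space n) (ψ : ℝ) :
    DD F α (α * t / √(1 + t ^ 2)) e f m ψ =
      (√(1 + t ^ 2))⁻¹ * (F ((cos ψ • e + sin ψ • f) + t • m) - F ((cos ψ • e + sin ψ • f) - t • m)) := by
  have h1 : 0 < 1 + t ^ 2 := by positivity
  have h2 : 0 < √(1 + t ^ 2) := Real.sqrt_pos.2 h1
  have h3 : √(1 + t ^ 2) ^ 2 = 1 + t ^ 2 := Real.sq_sqrt h1.le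
  unfold DD pt
  generalize √(1 + t ^ 2) = r at h2 h3
  have h4 : α * t / r / α = t * r⁻¹ := by
    have := a0.ne'
    have := h2.ne'
    field_simp
  have h5 : -(α * t / r) / α = -(t * r⁻¹) := by
    rw [neg_div, h4]
  have h6 : √(1 - (t * r⁻¹) ^ 2) = r⁻¹ := by
    have h7 : 1 - (t * r⁻¹) ^ 2 = (r⁻¹) ^ 2 := by
      have h8 := h2.ne'
      rw [mul_pow, inv_pow]
      have h9 : r ^ 2 ≠ 0 := pow_ne_zero 2 h8
      field_simp
      linarith
    rw [h7, Real.sqrt_sq (inv_nonneg.2 h2.le)]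
  have h7 : √(1 - (-(t * r⁻¹)) ^ 2) = r⁻¹ := by rw [neg_sq]; exact h6
  rw [h4, h5, h6, h7]
  have e1 : ∀ w : Space n, r⁻¹ • w + (t * r⁻¹) • m = r⁻¹ • (w + t • m) := by
    intro w
    rw [smul_add, smul_smul, mul_comm t]
  have e2 : ∀ w : Space n, r⁻¹ • w + (-(t * r⁻¹)) • m = r⁻¹ • (w - t • m) := by
    intro w
    rw [smul_sub, smul_smul, mul_comm t, neg_smul, sub_eq_add_neg]
  rw [e1, e2, hh.hom _ _ (inv_nonneg.2 h2.le), hh.hom _ _ (inv_nonneg.2 h2.le)]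
  ring

/-- orthonormal frame of two nearby unit vectors -/
private theorem frame {y y' : Space n} (hy : ‖y‖ = 1) (hy' : ‖y'‖ = 1) (hne : y ≠ y') (hd1 : ‖y - y'‖ ≤ 1) :
    ∃ (f : Space n) (ψ : ℝ), ‖f‖ = 1 ∧ ⟪y', f⟫ = 0 ∧ y = cos ψ • y' + sin ψ • f ∧ 0 < ψ ∧ ψ ≤ 2 * ‖y - y'‖ ∧
      ‖f - ‖y - y'‖⁻¹ • (y - y')‖ ≤ ‖y - y'‖ ∧ ∀ m : Space n, ⟪y, m⟫ = 0 → ⟪y', m⟫ = 0 → ⟪f, m⟫ = 0 := by
  have hd0 : 0 < ‖y - y'‖ := norm_pos_iff.2 (sub_ne_zero.2 hne)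
  have hdc : ‖y - y'‖ ^ 2 = 2 - 2 * ⟪y, y'⟫ := by
    rw [norm_sub_sq_real, hy, hy']
    ring
  obtain ⟨d, hd⟩ : ∃ d, d = ‖y - y'‖ := ⟨_, rfl⟩
  obtain ⟨c, hc⟩ : ∃ c, c = ⟪y, y'⟫ := ⟨_, rfl⟩
  rw [← hd, ← hc] at hdc
  rw [← hd] at hd0 hd1
  have hd2 : d ^ 2 ≤ 1 := by nlinarith
  have hd3 : 0 < d ^ 2 := by positivity
  have hcl : c < 1 := by linarith
  have hcg : 0 < c := by linarith
  have hs0 : 0 < 1 - c ^ 2 := by nlinarith
  obtain ⟨s, hs⟩ : ∃ s, s = √(1 - c ^ 2) := ⟨_, rfl⟩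
  have hsp : 0 < s := by rw [hs]; exact Real.sqrt_pos.2 hs0
  have hss : s ^ 2 = 1 - c ^ 2 := by rw [hs]; exact Real.sq_sqrt hs0.le
  have hcos : cos (arccos c) = c := Real.cos_arccos (by linarith) hcl.le
  have hsin : sin (arccos c) = s := by rw [Real.sin_arccos, hs]
  have hψ0 : 0 < arccos c := Real.arccos_pos.2 hcl
  have hyf : y = cos (arccos c) • y' + sin (arccos c) • (s⁻¹ • (y - c • y')) := by
    rw [hcos, hsin, smul_smul, mul_inv_cancel₀ hsp.ne', one_smul]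
    abel
  have nf : ‖s⁻¹ • (y - c • y')‖ = 1 := by
    have h1 : ‖y - c • y'‖ ^ 2 = s ^ 2 := by
      rw [norm_sub_sq_real, norm_smul, real_inner_smul_right, ← hc, hy, hy', Real.norm_eq_abs, mul_one, sq_abs, hss]
      ring
    have h2 : ‖y - c • y'‖ = s := (sq_eq_sq₀ (norm_nonneg _) hsp.le).1 h1
    rw [norm_smul, h2, norm_inv, Real.norm_eq_abs, abs_of_pos hsp, inv_mul_cancel₀ hsp.ne']
  refine ⟨s⁻¹ • (y - c • y'), arccos c, nf, ?_, hyf, hψ0, ?_, ?_, ?_⟩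
  · rw [real_inner_smul_right, inner_sub_right, real_inner_smul_right, real_inner_self_eq_norm_sq, hy',
      real_inner_comm, ← hc]
    ring
  · have h1 : 2 / π * (arccos c / 2) ≤ sin (arccos c / 2) :=
      Real.mul_le_sin (by linarith) (by have := Real.arccos_le_pi c; linarith)
    have h2 : sin (arccos c / 2) = d / 2 := by
      have h3 : 0 ≤ sin (arccos c / 2) :=
        sin_nonneg_of_nonneg_of_le_pi (by linarith) (by have := Real.arccos_le_pi c; linarith)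
      have h4 : cos (arccos c) = 1 - 2 * sin (arccos c / 2) ^ 2 := by
        have h5 := Real.cos_two_mul (arccos c / 2)
        rw [show 2 * (arccos c / 2) = arccos c by ring] at h5
        have h6 := Real.sin_sq_add_cos_sq (arccos c / 2)
        linarith
      rw [hcos] at h4
      have h5 : sin (arccos c / 2) ^ 2 = (d / 2) ^ 2 := by linarith
      exact (sq_eq_sq₀ h3 (by linarith)).1 h5
    rw [h2] at h1
    have hp := Real.pi_pos
    have h6 : 2 / π * (arccos c / 2) = arccos c / π := by field_simp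
    rw [h6, div_le_iff₀ hp] at h1
    rw [← hd]
    have h7 := Real.pi_le_four
    nlinarith
  · rw [← hd]
    obtain ⟨κ, hκ⟩ : ∃ κ, κ = s / d := ⟨_, rfl⟩
    have hκ0 : 0 < κ := by rw [hκ]; positivity
    have hκ2 : κ ^ 2 = 1 - d ^ 2 / 4 := by
      rw [hκ, div_pow, hss, div_eq_iff hd3.ne']
      have h8 : c = 1 - d ^ 2 / 2 := by linarith
      rw [h8]
      ring
    have hκ1 : κ ≤ 1 := by nlinarith
    have hκ3 : 1 - κ ≤ d ^ 2 / 4 := by nlinarith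
    have h9 : s⁻¹ • (y - c • y') - d⁻¹ • (y - y') = (d / 2) • y' + (1 - κ) • (s⁻¹ • (y - c • y')) := by
      have h10 : y - y' = (c - 1) • y' + s • (s⁻¹ • (y - c • y')) := by
        rw [smul_smul s, mul_inv_cancel₀ hsp.ne', one_smul, sub_smul, one_smul]
        abel
      generalize s⁻¹ • (y - c • y') = f at h10
      rw [h10, smul_add, smul_smul, smul_smul, sub_smul, one_smul]
      have h11 : d⁻¹ * (c - 1) = -(d / 2) := by
        have h12 := hd0.ne'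
        field_simp
        linarith
      have h13 : d⁻¹ * s = κ := by rw [hκ]; ring
      rw [h11, h13, neg_smul]
      abel
    rw [h9]
    refine (norm_add_le _ _).trans ?_
    rw [norm_smul, norm_smul, nf, hy', Real.norm_eq_abs, Real.norm_eq_abs, abs_of_pos (by linarith),
      abs_of_nonneg (by linarith)]
    nlinarith
  · intro m h1 h2
    rw [real_inner_smul_left, inner_sub_left, real_inner_smul_left, h1, h2]
    ring

private theorem circ_lip {e f : Space n} (he : ‖e‖ = 1) (hf : ‖f‖ = 1) (hef : ⟪e, f⟫ = 0) (ψ : ℝ) :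
    ‖(cos ψ • e + sin ψ • f) - e‖ ≤ |ψ| := by
  have h1 : (cos ψ • e + sin ψ • f) - e = (cos ψ - 1) • e + sin ψ • f := by
    rw [sub_smul, one_smul]
    abel
  have h2 : ‖(cos ψ • e + sin ψ • f) - e‖ ^ 2 ≤ |ψ| ^ 2 := by
    rw [h1, norm_add_sq_real, norm_smul, norm_smul, real_inner_smul_left, real_inner_smul_right, hef, he, hf,
      Real.norm_eq_abs, Real.norm_eq_abs, mul_one, mul_one, sq_abs, sq_abs, sq_abs]
    have h3 := Real.one_sub_sq_div_two_le_cos (x := ψ)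
    have h4 := Real.sin_sq_add_cos_sq ψ
    nlinarith
  exact (sq_le_sq₀ (norm_nonneg _) (abs_nonneg _)).1 h2

theorem qm_of_tri {F0 F1 F2 : Space n → ℝ} {α0 α1 α2 C ε : ℝ} {u0 u1 u2 : Space n}
    (T : Tri F0 F1 F2 α0 α1 α2 u0 u1 u2 C ε) (hh : Sup F0) :
    ∃ q : Space n, ‖q‖ = 1 ∧ ⟪u0, q⟫ = 0 ∧ q ∈ Submodule.span ℝ {u0, u1} ∧
      ∀ v : Space n, ‖v‖ = 1 → ⟪u0, v⟫ = 0 → ⟪q, v⟫ = 0 → QM F0 u0 q v := by
  obtain ⟨q, η, C', nq, oq, hqs, hη, hηα, H⟩ := periodic T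
  refine ⟨q, nq, oq, hqs, ?_⟩
  intro v _ _ _
  obtain ⟨L, hL0, hL⟩ := hh.lip
  have a0 := T.a0
  have hη1 : 0 < min η 1 / 8 := by positivity
  have hm1 : min η 1 ≤ η := min_le_left _ _
  have hm2 : min η 1 ≤ 1 := min_le_right _ _
  refine ⟨min η 1 / 8, hη1, ?_⟩
  intro y y' m hy hy' hm hym hym' hyp hyp' _ hne hdir
  have hd : ‖y - y'‖ < min η 1 / 4 := by
    have h1 : y - y' = (y - u0) - (y' - u0) := by abel
    rw [h1]
    have h2 := norm_sub_le (y - u0) (y' - u0)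
    linarith
  obtain ⟨f, ψ1, nf, hef, hyf, hψ0, hψ1, hfd, hfm⟩ := frame hy hy' hne (by linarith)
  have hfq : ‖f - q‖ < η := by
    have h1 : f - q = (f - ‖y - y'‖⁻¹ • (y - y')) + (‖y - y'‖⁻¹ • (y - y') - q) := by abel
    rw [h1]
    have h2 := norm_add_le (f - ‖y - y'‖⁻¹ • (y - y')) (‖y - y'‖⁻¹ • (y - y') - q)
    linarith
  have hψη : ψ1 < η := by linarith
  refine ⟨2 * L * C' * α0 ^ 2, η / α0, by positivity, ?_⟩
  intro t ht htδ
  have h1t : 0 < 1 + t ^ 2 := by positivity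
  have hr0 : 0 < √(1 + t ^ 2) := Real.sqrt_pos.2 h1t
  have hr1 : 1 ≤ √(1 + t ^ 2) := by
    rw [Real.one_le_sqrt]
    have := sq_nonneg t
    linarith
  obtain ⟨σ, hσ⟩ : ∃ σ, σ = α0 * t / √(1 + t ^ 2) := ⟨_, rfl⟩
  have hσ0 : 0 < σ := by rw [hσ]; positivity
  have hσt : σ ≤ α0 * t := by
    rw [hσ]
    exact div_le_self (by positivity) hr1
  have hση : σ < η := by
    rw [lt_div_iff₀ a0] at htδ
    linarith
  obtain ⟨ε', he0, he1, hper⟩ := H y' f m hy' nf hm hef hym' (hfm m hym hym') (by linarith) hfq σ hσ0 hση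
  -- periodicity iterated
  have hit : ∀ j : ℕ, (j : ℝ) * ε' ≤ ψ1 → DD F0 α0 σ y' f m ψ1 = DD F0 α0 σ y' f m (ψ1 - j * ε') := by
    intro j
    induction j with
    | zero =>
      intro _
      rw [Nat.cast_zero, zero_mul, sub_zero]
    | succ k ih =>
      intro hk
      push_cast at hk
      have h1 : (k : ℝ) * ε' ≤ ψ1 := by linarith
      have h2 : 0 ≤ (k : ℝ) * ε' := by positivity
      rw [ih h1, hper (ψ1 - k * ε') (by rw [abs_of_nonneg (by linarith)]; linarith)]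
      congr 1
      push_cast
      ring
  have hdiv : 0 ≤ ψ1 / ε' := by positivity
  have hk1 : ((⌊ψ1 / ε'⌋₊ : ℕ) : ℝ) * ε' ≤ ψ1 := by
    have h1 := Nat.floor_le hdiv
    rwa [le_div_iff₀ he0] at h1
  have hk2 : ψ1 < (((⌊ψ1 / ε'⌋₊ : ℕ) : ℝ) + 1) * ε' := by
    have h1 := Nat.lt_floor_add_one (ψ1 / ε')
    rwa [div_lt_iff₀ he0] at h1
  obtain ⟨φ, hφ⟩ : ∃ φ, φ = ψ1 - ((⌊ψ1 / ε'⌋₊ : ℕ) : ℝ) * ε' := ⟨_, rfl⟩
  have hφ0 : 0 ≤ φ := by rw [hφ]; linarith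
  have hφ1 : φ ≤ ε' := by rw [hφ]; linarith
  have hE : DD F0 α0 σ y' f m ψ1 = DD F0 α0 σ y' f m φ := by rw [hφ]; exact hit _ hk1
  rw [hσ, dd_eq hh a0, dd_eq hh a0] at hE
  have hE2 := mul_left_cancel₀ (inv_pos.2 hr0).ne' hE
  rw [← hyf] at hE2
  rw [hE2]
  have hw := circ_lip hy' nf hef φ
  rw [abs_of_nonneg hφ0] at hw
  generalize cos φ • y' + sin φ • f = w at hw
  have b1 := hL (w + t • m) (y' + t • m)
  have b2 := hL (w - t • m) (y' - t • m)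
  rw [add_sub_add_right_eq_sub] at b1
  rw [sub_sub_sub_cancel_right] at b2
  have hC : L * ‖w - y'‖ ≤ L * (C' * (α0 ^ 2 * t ^ 2)) := by
    refine mul_le_mul_of_nonneg_left ?_ hL0
    have hCp : 0 < C' := by
      by_contra hcon
      have h3 : C' * σ ^ 2 ≤ 0 := mul_nonpos_of_nonpos_of_nonneg (not_lt.1 hcon) (sq_nonneg σ)
      linarith
    have h4 : σ ^ 2 ≤ α0 ^ 2 * t ^ 2 := by
      rw [← mul_pow]
      exact pow_le_pow_left₀ hσ0.le hσt 2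
    have h5 : C' * σ ^ 2 ≤ C' * (α0 ^ 2 * t ^ 2) := mul_le_mul_of_nonneg_left h4 hCp.le
    linarith
  rw [abs_le] at b1 b2 ⊢
  constructor
  · nlinarith [b1.1, b1.2, b2.1, b2.2]
  · nlinarith [b1.1, b1.2, b2.1, b2.2]

end Pool.Agent.H34.RT
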