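import Pool.Agent.H34.RT.Defs

/-!
# QMix : from mixed second differences to gradients

`mix_grad`: `h (y + t m) - h (y - t m) = 2 t ⟪gradient h y, m⟫ + o(t)`; divide the inequality of `Mix` by `t → 0+`.
`q_of_qm`: for `η'` small compared with `η` (e.g. `η' = min η 1 / 20`) let `y, y'` be as in `Q`, `g = gradient h y - gradient h y'`. The projection `v0` of `v` on
`{y, y'}ᗮ` is close to `v` (`v ⊥ p, q`, and `span {y, y'} = span {y, (y - y') / ‖y - y'‖}` is close to `span {p, q}`). For every `m'` orthogonal to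
`y, y'` and small `s` the vector `(v0 + s m') / ‖v0 + s m'‖` is admissible, so `⟪g, v0 + s m'⟫ = 0`; also for `s = 0`; hence `⟪g, m'⟫ = 0`. So
`g ∈ ({y, y'}ᗮ)ᗮ = span {y, y'}`.
-/

set_option autoImplicit false

open scoped RealInnerProductSpace

namespace Pool.Agent.H34.RT

variable {n : ℕ}

private theorem QMix_deriv {h : Space n → ℝ} {y m : Space n} (hy : DifferentiableAt ℝ h y) (c : ℝ) :
    HasDerivAt (fun t : ℝ => h (y + (c * t) • m)) (c * ⟪gradient h y, m⟫) 0 := by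
  have h1 : HasFDerivAt h (InnerProductSpace.toDual ℝ (Space n) (gradient h y)) y :=
    hasGradientAt_iff_hasFDerivAt.1 hy.hasGradientAt
  have h2 : HasDerivAt (fun t : ℝ => y + (c * t) • m) (c • m) 0 := by
    have h3 : HasDerivAt (fun t : ℝ => c * t) (c * 1) 0 := (hasDerivAt_id (0 : ℝ)).const_mul c
    have h4 := (h3.smul_const m).const_add y
    simpa using h4
  have h5 : HasFDerivAt h (InnerProductSpace.toDual ℝ (Space n) (gradient h y))
      ((fun t : ℝ => y + (c * t) • m) 0) := by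
    simpa using h1
  have h6 := h5.comp_hasDerivAt (0 : ℝ) h2
  have h7 : (InnerProductSpace.toDual ℝ (Space n) (gradient h y)) (c • m) = c * ⟪gradient h y, m⟫ := by
    rw [InnerProductSpace.toDual_apply_apply, inner_smul_right]
  rw [h7] at h6
  exact h6

theorem mix_grad {h : Space n → ℝ} {y y' m : Space n} (hy : DifferentiableAt ℝ h y) (hy' : DifferentiableAt ℝ h y')
    (hM : Mix h y y' m) : ⟪gradient h y - gradient h y', m⟫ = 0 := by
  obtain ⟨C, δ, hδ, hM⟩ := hM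
  set L : ℝ := 2 * ⟪gradient h y - gradient h y', m⟫ with hL
  have hd : HasDerivAt (fun t : ℝ => (h (y + t • m) - h (y - t • m)) - (h (y' + t • m) - h (y' - t • m))) L 0 := by
    have a1 := QMix_deriv (m := m) hy 1
    have a2 := QMix_deriv (m := m) hy (-1)
    have a3 := QMix_deriv (m := m) hy' 1
    have a4 := QMix_deriv (m := m) hy' (-1)
    have a5 := (a1.sub a2).sub (a3.sub a4)
    have e1 : (1 * ⟪gradient h y, m⟫ - -1 * ⟪gradient h y, m⟫ - (1 * ⟪gradient h y', m⟫ - -1 * ⟪gradient h y', m⟫)) = L := by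
      rw [hL, inner_sub_left]
      ring
    rw [e1] at a5
    refine a5.congr_of_eventuallyEq (Filter.Eventually.of_forall fun t => ?_)
    simp [sub_eq_add_neg]
  have ht := hd.tendsto_slope_zero_right
  have ht2 := ht.abs
  have hz : Filter.Tendsto (fun t : ℝ => |C| * t) (nhdsWithin 0 (Set.Ioi 0)) (nhds 0) := by
    have : Filter.Tendsto (fun t : ℝ => |C| * t) (nhds 0) (nhds (|C| * 0)) :=
      (continuous_const.mul continuous_id).tendsto 0
    rw [mul_zero] at this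
    exact this.mono_left nhdsWithin_le_nhds
  have hle : |L| ≤ 0 := by
    refine le_of_tendsto_of_tendsto ht2 hz ?_
    have hmem : Set.Ioo (0 : ℝ) δ ∈ nhdsWithin (0 : ℝ) (Set.Ioi 0) := Ioo_mem_nhdsGT hδ
    filter_upwards [hmem] with t ht'
    have h1 := hM t ht'.1 ht'.2
    have hpos := ht'.1
    simp only [zero_add, zero_smul, add_zero, sub_zero, sub_self, smul_eq_mul]
    rw [abs_mul, abs_inv, abs_of_pos hpos]
    rw [inv_mul_le_iff₀ hpos]
    calc _ ≤ C * t ^ 2 := h1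
      _ ≤ |C| * t ^ 2 := by
        have := le_abs_self C
        nlinarith [sq_nonneg t]
      _ = t * (|C| * t) := by ring
  have hL0 : L = 0 := abs_nonpos_iff.1 hle
  rw [hL] at hL0
  linarith

/-- the projection of `v` on `span {y, z}` is small -/
private theorem QMix_proj {p q v y z : Space n} {e α β : ℝ} (hv : ‖v‖ = 1) (hp : ‖p‖ = 1)
    (hpq : ⟪p, q⟫ = 0) (hpv : ⟪p, v⟫ = 0) (hqv : ⟪q, v⟫ = 0) (hy1 : ‖y‖ = 1) (hz1 : ‖z‖ = 1) (he : e ≤ 1 / 20)
    (hy : ‖y - p‖ < e) (hz : ‖z - q‖ < e)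
    (hP : ⟪α • y + β • z, v⟫ = ‖α • y + β • z‖ ^ 2) : ‖α • y + β • z‖ ≤ 2 * e := by
  have he0 : 0 < e := lt_of_le_of_lt (norm_nonneg _) hy
  set N := ‖α • y + β • z‖ with hN
  have hN0 : 0 ≤ N := norm_nonneg _
  have b1 : |⟪y, v⟫| ≤ e := by
    have : ⟪y, v⟫ = ⟪y - p, v⟫ := by rw [inner_sub_left, hpv, sub_zero]
    rw [this]
    calc |⟪y - p, v⟫| ≤ ‖y - p‖ * ‖v‖ := abs_real_inner_le_norm _ _
      _ ≤ e := by rw [hv, mul_one]; exact hy.le
  have b2 : |⟪z, v⟫| ≤ e := by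
    have : ⟪z, v⟫ = ⟪z - q, v⟫ := by rw [inner_sub_left, hqv, sub_zero]
    rw [this]
    calc |⟪z - q, v⟫| ≤ ‖z - q‖ * ‖v‖ := abs_real_inner_le_norm _ _
      _ ≤ e := by rw [hv, mul_one]; exact hz.le
  have b3 : |⟪y, z⟫| ≤ 2 * e := by
    have : ⟪y, z⟫ = ⟪y - p, z⟫ + ⟪p, z - q⟫ := by
      rw [inner_sub_left, inner_sub_right, hpq]; ring
    rw [this]
    calc |⟪y - p, z⟫ + ⟪p, z - q⟫| ≤ |⟪y - p, z⟫| + |⟪p, z - q⟫| := abs_add_le _ _
      _ ≤ ‖y - p‖ * ‖z‖ + ‖p‖ * ‖z - q‖ :=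
        add_le_add (abs_real_inner_le_norm _ _) (abs_real_inner_le_norm _ _)
      _ ≤ 2 * e := by rw [hz1, hp]; linarith
  have c1 : N ^ 2 = α ^ 2 + β ^ 2 + 2 * (α * β) * ⟪y, z⟫ := by
    rw [hN, norm_add_sq_real, norm_smul, norm_smul, hy1, hz1, inner_smul_left, inner_smul_right]
    simp only [mul_one, Real.norm_eq_abs, sq_abs, conj_trivial]
    ring
  have c2 : N ^ 2 = α * ⟪y, v⟫ + β * ⟪z, v⟫ := by
    rw [← hP, inner_add_left, inner_smul_left, inner_smul_left]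
    simp
  have d1 : α ^ 2 + β ^ 2 ≤ 2 * N ^ 2 := by
    have h1 : |2 * (α * β) * ⟪y, z⟫| ≤ (α ^ 2 + β ^ 2) * (2 * e) := by
      rw [abs_mul]
      have h2 : |2 * (α * β)| ≤ α ^ 2 + β ^ 2 := by
        rw [abs_le]
        constructor <;> nlinarith [sq_nonneg (α + β), sq_nonneg (α - β)]
      exact mul_le_mul h2 b3 (abs_nonneg _) (by positivity)
    have h3 := neg_abs_le (2 * (α * β) * ⟪y, z⟫)
    nlinarith [sq_nonneg α, sq_nonneg β]
  have d2 : (|α| + |β|) ^ 2 ≤ 4 * N ^ 2 := by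
    have : (|α| + |β|) ^ 2 ≤ 2 * (α ^ 2 + β ^ 2) := by
      nlinarith [sq_abs α, sq_abs β, sq_nonneg (|α| - |β|)]
    linarith
  have d3 : |α| + |β| ≤ 2 * N := by
    have : (|α| + |β|) ^ 2 ≤ (2 * N) ^ 2 := by nlinarith
    exact le_of_sq_le_sq this (by positivity)
  have d4 : N ^ 2 ≤ (2 * N) * e := by
    rw [c2]
    calc α * ⟪y, v⟫ + β * ⟪z, v⟫ ≤ |α| * |⟪y, v⟫| + |β| * |⟪z, v⟫| := by
          rw [← abs_mul, ← abs_mul]
          exact add_le_add (le_abs_self _) (le_abs_self _)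
      _ ≤ |α| * e + |β| * e :=
          add_le_add (mul_le_mul_of_nonneg_left b1 (abs_nonneg _)) (mul_le_mul_of_nonneg_left b2 (abs_nonneg _))
      _ = (|α| + |β|) * e := by ring
      _ ≤ (2 * N) * e := mul_le_mul_of_nonneg_right d3 he0.le
  by_contra hc
  push Not at hc
  nlinarith

theorem q_of_qm {h : Space n → ℝ} {p q v : Space n} (hp : ‖p‖ = 1) (hq : ‖q‖ = 1) (hv : ‖v‖ = 1) (hpq : ⟪p, q⟫ = 0)
    (hpv : ⟪p, v⟫ = 0) (hqv : ⟪q, v⟫ = 0) (hQ : QM h p q v) : Q h p q := by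
  obtain ⟨η, hη, hQ⟩ := hQ
  set e : ℝ := min η 1 / 20 with he
  have he0 : 0 < e := by
    have : 0 < min η 1 := lt_min hη one_pos
    positivity
  have he1 : e ≤ 1 / 20 := by
    have : min η 1 ≤ 1 := min_le_right _ _
    rw [he]
    linarith
  have he2 : e ≤ η / 20 := by
    have : min η 1 ≤ η := min_le_left _ _
    rw [he]
    linarith
  refine ⟨e, he0, ?_⟩
  intro y y' hy1 hy1' hy hy' hne hz hd hd'
  set S : Submodule ℝ (Space n) := Submodule.span ℝ {y, y'} with hS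
  set g : Space n := gradient h y - gradient h y' with hg
  have hyS : y ∈ S := Submodule.subset_span (by simp)
  have hyS' : y' ∈ S := Submodule.subset_span (by simp)
  obtain ⟨P, hPS, v0, hv0, hdec⟩ := Submodule.exists_add_mem_mem_orthogonal (K := S) v
  have hP : ‖P‖ ≤ 2 * e := by
    obtain ⟨a, b, hab⟩ := Submodule.mem_span_pair.1 hPS
    have hpos : 0 < ‖y - y'‖ := norm_pos_iff.2 (sub_ne_zero.2 hne)
    set z : Space n := ‖y - y'‖⁻¹ • (y - y') with hzdef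
    have hz1 : ‖z‖ = 1 := by
      rw [hzdef, norm_smul, norm_inv, norm_norm, inv_mul_cancel₀ hpos.ne']
    have hPz : P = (a + b) • y + (-(b * ‖y - y'‖)) • z := by
      rw [← hab, hzdef, smul_smul, neg_mul, mul_assoc, mul_inv_cancel₀ hpos.ne', mul_one, smul_sub, add_smul]
      simp only [neg_smul]
      abel
    have hPv : ⟪P, v⟫ = ‖P‖ ^ 2 := by
      rw [hdec, inner_add_right, real_inner_self_eq_norm_sq, (Submodule.mem_orthogonal S v0).1 hv0 P hPS, add_zero]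
    rw [hPz] at hPv ⊢
    exact QMix_proj hv hp hpq hpv hqv hy1 hz1 he1 hy hz hPv
  have key : ∀ u ∈ Sᗮ, ‖u - v‖ ≤ 3 * e → ⟪g, u⟫ = 0 := by
    intro u hu huv
    have h1 : |‖u‖ - 1| ≤ ‖u - v‖ := by
      have := abs_norm_sub_norm_le u v
      rwa [hv] at this
    have hupos : 0 < ‖u‖ := by
      have := (abs_le.1 h1).1
      linarith
    have hm1 : ‖‖u‖⁻¹ • u‖ = 1 := by
      rw [norm_smul, norm_inv, norm_norm, inv_mul_cancel₀ hupos.ne']
    have hyu : ⟪y, u⟫ = 0 := (Submodule.mem_orthogonal S u).1 hu y hyS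
    have hyu' : ⟪y', u⟫ = 0 := (Submodule.mem_orthogonal S u).1 hu y' hyS'
    have hmv : ‖‖u‖⁻¹ • u - v‖ < η := by
      have h2 : ‖u‖⁻¹ • u - v = (‖u‖⁻¹ • u - u) + (u - v) := by abel
      have h3 : ‖‖u‖⁻¹ • u - u‖ = |‖u‖ - 1| := by
        have h4 : ‖u‖⁻¹ • u - u = (‖u‖⁻¹ - 1) • u := by rw [sub_smul, one_smul]
        rw [h4, norm_smul, Real.norm_eq_abs]
        have h5 : |‖u‖⁻¹ - 1| * ‖u‖ = |(‖u‖⁻¹ - 1) * ‖u‖| := by rw [abs_mul, abs_of_pos hupos]
        rw [h5, sub_mul, inv_mul_cancel₀ hupos.ne', one_mul, abs_sub_comm]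
      calc ‖‖u‖⁻¹ • u - v‖ ≤ ‖‖u‖⁻¹ • u - u‖ + ‖u - v‖ := by rw [h2]; exact norm_add_le _ _
        _ ≤ ‖u - v‖ + ‖u - v‖ := by rw [h3]; linarith
        _ < η := by linarith
    have hM := hQ y y' (‖u‖⁻¹ • u) hy1 hy1' hm1 (by rw [inner_smul_right, hyu, mul_zero])
      (by rw [inner_smul_right, hyu', mul_zero]) (by linarith) (by linarith) hmv hne (by linarith)
    have h6 := mix_grad hd hd' hM
    rw [inner_smul_right] at h6
    rcases mul_eq_zero.1 h6 with h7 | h7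
    · exact absurd h7 (inv_ne_zero hupos.ne')
    · exact h7
  have hv0v : ‖v0 - v‖ ≤ 2 * e := by
    have : v0 - v = -P := by rw [hdec]; abel
    rw [this, norm_neg]
    exact hP
  have k0 := key v0 hv0 (by linarith)
  have hgo : ∀ w ∈ Sᗮ, ⟪g, w⟫ = 0 := by
    intro w hw
    have hs : 0 < e / (‖w‖ + 1) := by positivity
    have k1 := key (v0 + (e / (‖w‖ + 1)) • w) (Sᗮ.add_mem hv0 (Sᗮ.smul_mem _ hw)) (by
      have h2 : v0 + (e / (‖w‖ + 1)) • w - v = (v0 - v) + (e / (‖w‖ + 1)) • w := by abel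
      rw [h2]
      have h3 : ‖(e / (‖w‖ + 1)) • w‖ ≤ e := by
        rw [norm_smul, Real.norm_eq_abs, abs_of_pos hs, div_mul_eq_mul_div, div_le_iff₀ (by positivity)]
        nlinarith [norm_nonneg w]
      calc ‖(v0 - v) + (e / (‖w‖ + 1)) • w‖ ≤ ‖v0 - v‖ + ‖(e / (‖w‖ + 1)) • w‖ := norm_add_le _ _
        _ ≤ 3 * e := by linarith)
    rw [inner_add_right, k0, zero_add, inner_smul_right] at k1
    rcases mul_eq_zero.1 k1 with h7 | h7
    · exact absurd h7 hs.ne'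
    · exact h7
  have hgS : g ∈ Sᗮᗮ := by
    rw [Submodule.mem_orthogonal]
    intro w hw
    rw [real_inner_comm]
    exact hgo w hw
  rwa [Submodule.orthogonal_orthogonal] at hgS

end Pool.Agent.H34.RT
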