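import Pool.Agent.H34.RT.Lift

/-!
# TriOf : relations of three vectors

`u0 = l0 w0 + l1 w1`. Put `α0 = 1`, `αi = |li|`, `u1 = - (sign l0) w0`, `u2 = - (sign l1) w1`, `F0 = h`, `F1 x = - l0 h (- sign l0 • x)`,
`F2 x = - l1 h (- sign l1 • x)`: `F1 (g u1) = - l0 h (g w0)`. If `x0, x1, x2` are unit vectors with the same relation, close to `u0, u1, u2`, then
`⟪x0, x1⟫ = ⟪u0, u1⟫ = c` (from `‖α2 x2‖² = α2²`), `|c| < 1`; `lift2` for the orthonormal pairs `(u0, (1-c²)^(-1/2) (u1 - c u0))` and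
`(x0, (1-c²)^(-1/2) (x1 - c x0))` gives `g ∈ Rot n` close to the identity with `g u0 = x0`, `g u1 = x1`, hence `g u2 = x2`.
`|⟪u0, u1⟫| < 1` since `w0, w1` are linearly independent and `l1 ≠ 0`.
-/

set_option autoImplicit false

open scoped RealInnerProductSpace

namespace Pool.Agent.H34.RT

variable {n : ℕ}

private theorem TriOf_sign {l : ℝ} : ∃ σ : ℝ, σ * σ = 1 ∧ |l| = σ * l := by
  rcases le_or_gt 0 l with h | h
  · exact ⟨1, by norm_num, by rw [abs_of_nonneg h, one_mul]⟩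
  · exact ⟨-1, by norm_num, by rw [abs_of_neg h]; ring⟩

private theorem TriOf_inner {x0 x1 x2 : Space n} {α1 α2 : ℝ} (h0 : ‖x0‖ = 1) (h1 : ‖x1‖ = 1) (h2 : ‖x2‖ = 1)
    (hr : (1 : ℝ) • x0 + α1 • x1 + α2 • x2 = 0) : 2 * α1 * ⟪x0, x1⟫ = α2 ^ 2 - α1 ^ 2 - 1 := by
  have h3 : x0 + α1 • x1 = -(α2 • x2) := by
    rw [one_smul] at hr
    exact eq_neg_of_add_eq_zero_left hr
  have h4 : ‖x0 + α1 • x1‖ ^ 2 = α2 ^ 2 := by
    rw [h3, norm_neg, norm_smul, h2, mul_one, Real.norm_eq_abs, sq_abs]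
  rw [norm_add_sq_real, norm_smul, h0, h1, mul_one, Real.norm_eq_abs, sq_abs, real_inner_smul_right] at h4
  linarith

/-- the second vector of the orthonormal pair -/
private theorem TriOf_pair {x0 x1 : Space n} {c s : ℝ} (h0 : ‖x0‖ = 1) (h1 : ‖x1‖ = 1) (hc : ⟪x0, x1⟫ = c) (hs : 0 < s)
    (hsc : s ^ 2 = 1 - c ^ 2) : ‖s⁻¹ • (x1 - c • x0)‖ = 1 ∧ ⟪x0, s⁻¹ • (x1 - c • x0)⟫ = 0 := by
  constructor
  · have h2 : ‖x1 - c • x0‖ ^ 2 = s ^ 2 := by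
      rw [norm_sub_sq_real, norm_smul, h0, h1, real_inner_smul_right, real_inner_comm, hc, hsc, Real.norm_eq_abs, mul_one,
        sq_abs]
      ring
    have h3 : ‖x1 - c • x0‖ = s := by
      rw [← Real.sqrt_sq (norm_nonneg (x1 - c • x0)), h2, Real.sqrt_sq hs.le]
    rw [norm_smul, h3, Real.norm_eq_abs, abs_of_pos (inv_pos.2 hs), inv_mul_cancel₀ hs.ne']
  · rw [real_inner_smul_right, inner_sub_right, real_inner_smul_right, real_inner_self_eq_norm_sq, h0, hc]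
    ring

theorem tri_of_fe {h : Space n → ℝ} {u0 w0 w1 : Space n} {l0 l1 C ε : ℝ} (hε : 0 < ε) (hu0 : ‖u0‖ = 1)
    (hw0 : ‖w0‖ = 1) (hw1 : ‖w1‖ = 1) (hli : LinearIndependent ℝ ![w0, w1]) (hl0 : l0 ≠ 0) (hl1 : l1 ≠ 0)
    (hrel : u0 = l0 • w0 + l1 • w1)
    (hFE : ∀ g ∈ Rot n, Near ε g → h (g u0) = l0 * h (g w0) + l1 * h (g w1) + C) :
    ∃ (F1 F2 : Space n → ℝ) (α1 α2 C' ε' : ℝ) (u1 u2 : Space n), Tri h F1 F2 1 α1 α2 u0 u1 u2 C' ε' ∧
      u1 ∈ Submodule.span ℝ {w0, w1} := by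
  obtain ⟨σ0, s0, t0⟩ := TriOf_sign (l := l0)
  obtain ⟨σ1, s1, t1⟩ := TriOf_sign (l := l1)
  obtain ⟨u1, hu1⟩ : ∃ u1 : Space n, u1 = (-σ0) • w0 := ⟨_, rfl⟩
  obtain ⟨u2, hu2⟩ : ∃ u2 : Space n, u2 = (-σ1) • w1 := ⟨_, rfl⟩
  have b0 : (-σ0) • u1 = w0 := by rw [hu1, smul_smul, neg_mul_neg, s0, one_smul]
  have b1 : (-σ1) • u2 = w1 := by rw [hu2, smul_smul, neg_mul_neg, s1, one_smul]
  have hσ : ∀ σ : ℝ, σ * σ = 1 → ‖-σ‖ = 1 := by
    intro σ hσ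
    rw [norm_neg, Real.norm_eq_abs]
    rcases mul_self_eq_one_iff.1 hσ with h1 | h1 <;> rw [h1] <;> norm_num
  have n1 : ‖u1‖ = 1 := by rw [hu1, norm_smul, hσ σ0 s0, hw0, one_mul]
  have n2 : ‖u2‖ = 1 := by rw [hu2, norm_smul, hσ σ1 s1, hw1, one_mul]
  have p0 : 0 < |l0| := abs_pos.2 hl0
  have p1 : 0 < |l1| := abs_pos.2 hl1
  have hr : (1 : ℝ) • u0 + |l0| • u1 + |l1| • u2 = 0 := by
    rw [hu1, hu2, smul_smul, smul_smul, t0, t1, hrel, one_smul]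
    have e0 : σ0 * l0 * -σ0 = -l0 := by linear_combination (-l0) * s0
    have e1 : σ1 * l1 * -σ1 = -l1 := by linear_combination (-l1) * s1
    rw [e0, e1, neg_smul, neg_smul]
    abel
  obtain ⟨c, hc⟩ : ∃ c : ℝ, ⟪u0, u1⟫ = c := ⟨_, rfl⟩
  have hlin := LinearIndependent.pair_iff.1 hli
  have hang : |c| < 1 := by
    have h1 : |c| ≤ 1 := by
      rw [← hc]
      have h2 := abs_real_inner_le_norm u0 u1
      rwa [hu0, n1, one_mul] at h2
    refine lt_of_le_of_ne h1 fun h2 => ?_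
    have h3 : ∃ τ : ℝ, u0 = τ • w0 := by
      rcases eq_or_eq_neg_of_abs_eq h2 with h4 | h4
      · rw [← hc, inner_eq_one_iff_of_norm_eq_one hu0 n1] at h4
        exact ⟨-σ0, by rw [h4, hu1]⟩
      · have h5 : ⟪u0, -u1⟫ = 1 := by rw [inner_neg_right, hc, h4, neg_neg]
        rw [inner_eq_one_iff_of_norm_eq_one hu0 (by rw [norm_neg, n1])] at h5
        exact ⟨σ0, by rw [h5, hu1, neg_smul, neg_neg]⟩
    obtain ⟨τ, h4⟩ := h3
    have h5 : (l0 - τ) • w0 + l1 • w1 = 0 := by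
      rw [sub_smul, ← h4, hrel]
      abel
    exact hl1 (hlin _ _ h5).2
  obtain ⟨s, hs⟩ : ∃ s : ℝ, s = Real.sqrt (1 - c ^ 2) := ⟨_, rfl⟩
  have hc2 : 0 < 1 - c ^ 2 := by
    have := sq_lt_one_iff_abs_lt_one c
    linarith [this.2 hang]
  have hsp : 0 < s := by rw [hs]; exact Real.sqrt_pos.2 hc2
  have hs2 : s ^ 2 = 1 - c ^ 2 := by rw [hs]; exact Real.sq_sqrt hc2.le
  have hs1 : s ≤ 1 := by
    nlinarith [sq_nonneg c]
  obtain ⟨δ, hδ⟩ : ∃ δ : ℝ, δ = min (1 / 9) (ε / 8) := ⟨_, rfl⟩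
  have hδp : 0 < δ := by rw [hδ]; exact lt_min (by norm_num) (by linarith)
  have hδ1 : δ ≤ 1 / 9 := by rw [hδ]; exact min_le_left _ _
  have hδ2 : 8 * δ ≤ ε := by
    have : δ ≤ ε / 8 := by rw [hδ]; exact min_le_right _ _
    linarith
  refine ⟨fun x => -l0 * h ((-σ0) • x), fun x => -l1 * h ((-σ1) • x), |l0|, |l1|, C, δ * s / 2, u1, u2, ?_, ?_⟩
  · refine ⟨one_pos, p0, p1, hu0, n1, n2, hr, by rw [hc]; exact hang, by positivity, ?_⟩
    intro x0 x1 x2 m0 m1 m2 hx d0 d1 _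
    have hcx : ⟪x0, x1⟫ = c := by
      have h1 := TriOf_inner m0 m1 m2 hx
      have h2 := TriOf_inner hu0 n1 n2 hr
      rw [hc, ← h1] at h2
      have h3 : (2 * |l0|) * ⟪x0, x1⟫ = (2 * |l0|) * c := by linarith
      exact mul_left_cancel₀ (by positivity) h3
    obtain ⟨q1, q2⟩ := TriOf_pair hu0 n1 hc hsp hs2
    obtain ⟨r1, r2⟩ := TriOf_pair m0 m1 hcx hsp hs2
    have k1 : ‖u0 - x0‖ ≤ δ := by
      rw [norm_sub_rev]
      have : δ * s / 2 ≤ δ := by nlinarith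
      linarith
    have k2 : ‖s⁻¹ • (u1 - c • u0) - s⁻¹ • (x1 - c • x0)‖ ≤ δ := by
      have e1 : s⁻¹ • (u1 - c • u0) - s⁻¹ • (x1 - c • x0) = s⁻¹ • ((u1 - x1) - c • (u0 - x0)) := by
        module
      have e2 : ‖(u1 - x1) - c • (u0 - x0)‖ ≤ δ * s := by
        refine (norm_sub_le _ _).trans ?_
        rw [norm_smul, Real.norm_eq_abs, norm_sub_rev u1, norm_sub_rev u0]
        have h3 : |c| * ‖x0 - u0‖ ≤ 1 * ‖x0 - u0‖ := mul_le_mul_of_nonneg_right hang.le (norm_nonneg _)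
        linarith
      rw [e1, norm_smul, Real.norm_eq_abs, abs_of_pos (inv_pos.2 hsp)]
      calc s⁻¹ * ‖(u1 - x1) - c • (u0 - x0)‖ ≤ s⁻¹ * (δ * s) := mul_le_mul_of_nonneg_left e2 (inv_pos.2 hsp).le
        _ = δ := by field_simp
    obtain ⟨g, hg, g1, g2, g3⟩ := lift2 hu0 q1 q2 m0 r1 r2 hδ1 k1 k2
    have gu1 : g u1 = x1 := by
      have e1 : ∀ a b : Space n, b = s • (s⁻¹ • (b - c • a)) + c • a := by
        intro a b
        rw [smul_smul, mul_inv_cancel₀ hsp.ne', one_smul, sub_add_cancel]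
      have e2 : g u1 = s • g (s⁻¹ • (u1 - c • u0)) + c • g u0 := by
        rw [← map_smul, ← map_smul, ← map_add, ← e1 u0 u1]
      rw [e2, g2, g1, ← e1 x0 x1]
    have gu2 : g u2 = x2 := by
      have h1 : g ((1 : ℝ) • u0 + |l0| • u1 + |l1| • u2) = 0 := by rw [hr, map_zero]
      rw [map_add, map_add, map_smul, map_smul, map_smul, g1, gu1, ← hx] at h1
      have h2 : |l1| • g u2 = |l1| • x2 := add_left_cancel h1
      exact smul_right_injective _ p1.ne' h2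
    have h4 := hFE g hg (near_mono g3 hδ2)
    have e0 : (-σ0) • x1 = g w0 := by rw [← b0, map_smul, gu1]
    have e1 : (-σ1) • x2 = g w1 := by rw [← b1, map_smul, gu2]
    show h x0 + -l0 * h ((-σ0) • x1) + -l1 * h ((-σ1) • x2) = C
    rw [e0, e1, ← g1, h4]
    ring
  · rw [hu1]
    exact Submodule.smul_mem _ _ (Submodule.subset_span (Set.mem_insert _ _))

end Pool.Agent.H34.RT
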