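import Pool.Agent.H34.RT.Lift

/-!
# TwoOf : relations of at least four vectors

`u0 = ∑ lam k • w k`, the `w k` linearly independent unit vectors, all `lam k ≠ 0`. Fix an index `i`. Let `w` be the normalised component of `w i`
orthogonal to the span `S` of the other `w k` (not zero by independence). `u1 = w i = a1 + o1 w`, `o1 = ⟪w i, w⟫`; `u0 = a0 + o0 w`, `o0 = ⟪u0, w⟫ = lam i o1 ≠ 0`. `w ⊥ v` since `w` is in the
span of the `w k`. For `|τ|` small `lift1` for `w` and `cos τ w ± sin τ v` gives `R` with `R w = cos τ w ± sin τ v`, fixing all vectors orthogonal to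
`w, v`, so fixing `a0`, `a1` and `w k`, `k ≠ i`. Apply the functional equation to `R` followed by `g` for both signs and subtract: the terms `k ≠ i`
cancel; `k = lam i`. `|⟪u0, u1⟫| < 1`: `u0` is not parallel to `w i` since some other `lam k ≠ 0` and independence.
-/

set_option autoImplicit false

open scoped RealInnerProductSpace

namespace Pool.Agent.H34.RT

variable {n : ℕ}

/-- the functional equation after a rotation in the plane `w', v` -/
private theorem fe_rot {h : Space n → ℝ} {m : ℕ} {u0 : Space n} {w : Fin m → Space n} {lam : Fin m → ℝ} {C ε : ℝ}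
    {v : Space n} (hv : ‖v‖ = 1)
    (hFE : ∀ g ∈ Rot n, Near ε g → h (g u0) = ∑ k, lam k * h (g (w k)) + C)
    {i : Fin m} {w' a0 a1 : Space n} {o0 o1 : ℝ} (hnw : ‖w'‖ = 1) (hwv' : ⟪w', v⟫ = 0)
    (ha0w : ⟪a0, w'⟫ = 0) (ha0v : ⟪a0, v⟫ = 0) (ha1w : ⟪a1, w'⟫ = 0) (ha1v : ⟪a1, v⟫ = 0)
    (hk : ∀ k, k ≠ i → ⟪w k, w'⟫ = 0 ∧ ⟪w k, v⟫ = 0)
    (hu0 : u0 = a0 + o0 • w') (hu1 : w i = a1 + o1 • w')
    {g : Space n ≃ₗᵢ[ℝ] Space n} (hg : g ∈ Rot n) (hN : Near (min (ε / 3) 1) g) {τ : ℝ}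
    (hτ : |τ| < min (ε / 3) 1) :
    h (g (a0 + o0 • (Real.cos τ • w' + Real.sin τ • v))) =
      ∑ k, lam k * h (g (if k = i then a1 + o1 • (Real.cos τ • w' + Real.sin τ • v) else w k)) + C := by
  set b : Space n := Real.cos τ • w' + Real.sin τ • v with hb
  have hvw' : ⟪v, w'⟫ = 0 := by rw [real_inner_comm]; exact hwv'
  have hbb : ⟪b, b⟫ = 1 := by
    rw [hb]
    simp only [inner_add_left, inner_add_right, inner_smul_left, inner_smul_right, hwv', hvw',
      real_inner_self_eq_norm_sq, hnw, hv]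
    simp only [RCLike.conj_to_real]
    nlinarith [Real.cos_sq_add_sin_sq τ]
  have hnb : ‖b‖ = 1 := by
    have h1 : ‖b‖ ^ 2 = 1 := by rw [← real_inner_self_eq_norm_sq]; exact hbb
    have h2 : 0 ≤ ‖b‖ := norm_nonneg _
    nlinarith
  have hwb : ⟪w', b⟫ = Real.cos τ := by
    rw [hb]
    simp only [inner_add_right, inner_smul_right, hwv', real_inner_self_eq_norm_sq, hnw]
    ring
  have hd : ‖w' - b‖ ≤ |τ| := by
    have h1 : ‖w' - b‖ ^ 2 = 2 - 2 * Real.cos τ := by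
      rw [norm_sub_sq_real, hwb, hnw, hnb]; ring
    have h2 : 2 - 2 * Real.cos τ ≤ τ ^ 2 := by
      have := Real.one_sub_sq_div_two_le_cos (x := τ)
      linarith
    have h3 : ‖w' - b‖ ^ 2 ≤ |τ| ^ 2 := by rw [sq_abs, h1]; exact h2
    exact (sq_le_sq₀ (norm_nonneg _) (abs_nonneg _)).mp h3
  have hτ1 : |τ| < 1 := lt_of_lt_of_le hτ (min_le_right _ _)
  have hτ3 : |τ| < ε / 3 := lt_of_lt_of_le hτ (min_le_left _ _)
  obtain ⟨R, hR, hRw, hRf, hRN⟩ := lift1 hnw hnb (by linarith)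
  have hfix : ∀ x, ⟪x, w'⟫ = 0 → ⟪x, v⟫ = 0 → R x = x := by
    intro x h1 h2
    refine hRf x h1 ?_
    rw [hb]
    simp only [inner_add_right, inner_smul_right, h1, h2]
    ring
  have hNear : Near ε (R.trans g) := by
    refine near_mono (near_trans hRN hN) ?_
    have := min_le_left (ε / 3) 1
    linarith
  have hfe := hFE (R.trans g) (rot_trans hR hg) hNear
  have hRu0 : R u0 = a0 + o0 • b := by
    rw [hu0, map_add, map_smul, hRw, hfix a0 ha0w ha0v]
  have hRu1 : R (w i) = a1 + o1 • b := by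
    rw [hu1, map_add, map_smul, hRw, hfix a1 ha1w ha1v]
  have hRk : ∀ k, R (w k) = if k = i then a1 + o1 • b else w k := by
    intro k
    by_cases hki : k = i
    · rw [if_pos hki, hki, hRu1]
    · rw [if_neg hki, hfix (w k) (hk k hki).1 (hk k hki).2]
  simp only [LinearIsometryEquiv.trans_apply, hRu0] at hfe
  rw [hfe]
  congr 1
  refine Finset.sum_congr rfl fun k _ => ?_
  rw [hRk k]

theorem two_of_fe {h : Space n → ℝ} {m : ℕ} {u0 : Space n} {w : Fin m → Space n} {lam : Fin m → ℝ} {C ε : ℝ}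
    (hε : 0 < ε) (hm : 2 ≤ m) (hu0 : ‖u0‖ = 1) (hw : ∀ k, ‖w k‖ = 1) (hli : LinearIndependent ℝ w)
    (hlam : ∀ k, lam k ≠ 0) (hrel : u0 = ∑ k, lam k • w k) {v : Space n} (hv : ‖v‖ = 1) (hwv : ∀ k, ⟪w k, v⟫ = 0)
    (hFE : ∀ g ∈ Rot n, Near ε g → h (g u0) = ∑ k, lam k * h (g (w k)) + C) :
    ∃ (a0 a1 w' : Space n) (o0 o1 k ε' : ℝ), Two h a0 a1 w' v o0 o1 k ε' ∧ u0 = a0 + o0 • w' := by
  obtain ⟨i, j, hij⟩ : ∃ i j : Fin m, j ≠ i :=
    ⟨⟨0, by omega⟩, ⟨1, by omega⟩, by simp [Fin.ext_iff]⟩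
  set S : Submodule ℝ (Space n) := Submodule.span ℝ (w '' {k | k ≠ i}) with hS
  have hiS : w i ∉ S := hli.notMem_span_image (by simp)
  have hSv : ∀ x ∈ S, ⟪x, v⟫ = 0 := by
    intro x hx
    rw [hS] at hx
    induction hx using Submodule.span_induction with
    | mem x hx => obtain ⟨k, -, rfl⟩ := hx; exact hwv k
    | zero => exact inner_zero_left _
    | add x y _ _ h1 h2 => rw [inner_add_left, h1, h2, add_zero]
    | smul a x _ h1 => rw [inner_smul_left, h1, mul_zero]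
  obtain ⟨p, hp, q, hq, hpq⟩ := S.exists_add_mem_mem_orthogonal (w i)
  have hq0 : q ≠ 0 := by
    intro h0
    rw [h0, add_zero] at hpq
    exact hiS (hpq ▸ hp)
  have hqn : 0 < ‖q‖ := norm_pos_iff.mpr hq0
  have hqn' : ‖q‖ ≠ 0 := hqn.ne'
  have hSq : ∀ x ∈ S, ⟪x, q⟫ = 0 := fun x hx => (Submodule.mem_orthogonal S q).mp hq x hx
  have hkS : ∀ k, k ≠ i → w k ∈ S := fun k hk => Submodule.subset_span ⟨k, hk, rfl⟩
  have hpq0 : ⟪p, q⟫ = 0 := hSq p hp
  have hiq : ⟪w i, q⟫ = ‖q‖ ^ 2 := by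
    rw [hpq, inner_add_left, hpq0, zero_add, real_inner_self_eq_norm_sq]
  have hqv : ⟪q, v⟫ = 0 := by
    have h1 : q = w i - p := by rw [hpq]; abel
    rw [h1, inner_sub_left, hwv i, hSv p hp, sub_zero]
  have hu0q : ⟪u0, q⟫ = lam i * ‖q‖ ^ 2 := by
    rw [hrel, sum_inner, Finset.sum_eq_single i]
    · rw [inner_smul_left, hiq]; rfl
    · intro k _ hk
      rw [inner_smul_left, hSq _ (hkS k hk), mul_zero]
    · intro h1; exact absurd (Finset.mem_univ i) h1
  have hu0v : ⟪u0, v⟫ = 0 := by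
    rw [hrel, sum_inner]
    refine Finset.sum_eq_zero fun k _ => ?_
    rw [inner_smul_left, hwv k, mul_zero]
  set w' : Space n := ‖q‖⁻¹ • q with hw'
  have hnw : ‖w'‖ = 1 := by
    rw [hw', norm_smul, norm_inv, norm_norm, inv_mul_cancel₀ hqn']
  have hqw' : ‖q‖ • w' = q := by
    rw [hw', smul_smul, mul_inv_cancel₀ hqn', one_smul]
  have hwv' : ⟪w', v⟫ = 0 := by rw [hw', inner_smul_left, hqv, mul_zero]
  have hxw' : ∀ x : Space n, ⟪x, w'⟫ = ‖q‖⁻¹ * ⟪x, q⟫ := fun x => by rw [hw', inner_smul_right]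
  have hw'w' : ⟪w', w'⟫ = 1 := by rw [real_inner_self_eq_norm_sq, hnw]; norm_num
  have hpw' : ⟪p, w'⟫ = 0 := by rw [hxw', hpq0, mul_zero]
  have hu1 : w i = p + ‖q‖ • w' := by rw [hqw']; exact hpq
  have hu0w' : ⟪u0, w'⟫ = lam i * ‖q‖ := by
    rw [hxw', hu0q]
    field_simp
  refine ⟨u0 - (lam i * ‖q‖) • w', p, w', lam i * ‖q‖, ‖q‖, lam i, min (ε / 3) 1, ?_, ?_⟩
  swap
  · abel
  have ha0w : ⟪u0 - (lam i * ‖q‖) • w', w'⟫ = 0 := by
    rw [inner_sub_left, inner_smul_left, hu0w', hw'w']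
    simp
  have ha0v : ⟪u0 - (lam i * ‖q‖) • w', v⟫ = 0 := by
    rw [inner_sub_left, inner_smul_left, hu0v, hwv']
    simp
  have hu0' : u0 = (u0 - (lam i * ‖q‖) • w') + (lam i * ‖q‖) • w' := by abel
  have hεpos : 0 < min (ε / 3) 1 := lt_min (by linarith) one_pos
  have hang : |⟪u0, w i⟫| < 1 := by
    have hle : |⟪u0, w i⟫| ≤ 1 := by
      have := abs_real_inner_le_norm u0 (w i)
      rw [hu0, hw i] at this
      linarith
    refine lt_of_le_of_ne hle ?_
    intro habs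
    have hpar : ∃ s : ℝ, u0 = s • w i := by
      rcases abs_eq (zero_le_one' ℝ) |>.mp habs with h1 | h1
      · refine ⟨1, ?_⟩
        rw [one_smul]
        exact (inner_eq_one_iff_of_norm_eq_one hu0 (hw i)).mp h1
      · refine ⟨-1, ?_⟩
        have h2 : ⟪u0, -w i⟫ = 1 := by rw [inner_neg_right, h1]; norm_num
        have h3 := (inner_eq_one_iff_of_norm_eq_one hu0 (by rw [norm_neg]; exact hw i)).mp h2
        rw [neg_smul, one_smul]
        exact h3
    obtain ⟨s, hs⟩ := hpar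
    have h0 : ∑ k, (lam k - if k = i then s else 0) • w k = 0 := by
      simp only [sub_smul, Finset.sum_sub_distrib, ite_smul, zero_smul, Finset.sum_ite_eq', Finset.mem_univ,
        if_true]
      rw [← hrel, hs, sub_self]
    have h1 := Fintype.linearIndependent_iff.mp hli _ h0 j
    simp only [if_neg hij, sub_zero] at h1
    exact hlam j h1
  refine
    { nw := hnw
      nv := hv
      wv := hwv'
      a0w := ha0w
      a0v := ha0v
      a1w := hpw'
      a1v := hSv p hp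
      n0 := by rw [← hu0']; exact hu0
      n1 := by rw [← hu1]; exact hw i
      ho := mul_ne_zero (hlam i) hqn'
      ang := by rw [← hu0', ← hu1]; exact hang
      eps := hεpos
      eq := ?_ }
  intro g hg hN τ hτ
  have hk : ∀ k, k ≠ i → ⟪w k, w'⟫ = 0 ∧ ⟪w k, v⟫ = 0 := fun k hk =>
    ⟨by rw [hxw', hSq _ (hkS k hk), mul_zero], hwv k⟩
  have e1 := fe_rot hv hFE hnw hwv' ha0w ha0v hpw' (hSv p hp) hk hu0' hu1 hg hN hτ
  have e2 := fe_rot hv hFE hnw hwv' ha0w ha0v hpw' (hSv p hp) hk hu0' hu1 hg hN (τ := -τ)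
    (by rw [abs_neg]; exact hτ)
  rw [Real.cos_neg, Real.sin_neg] at e2
  simp only [neg_smul, ← sub_eq_add_neg] at e2
  rw [e1, e2, add_sub_add_right_eq_sub, ← Finset.sum_sub_distrib, Finset.sum_eq_single i]
  · simp only [if_true]; ring
  · intro k _ hki
    simp only [if_neg hki, sub_self]
  · intro h1; exact absurd (Finset.mem_univ i) h1

end Pool.Agent.H34.RT
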