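import Pool.Agent.H34.RT.Lift

/-!
# TwoQ : mixed second differences in dimension at least four

`ui = ai + oi w`, `c = ⟪u0, u1⟫`, `q1 = (1 - c²)^(-1/2) (u1 - c u0)`. Since `n ≥ 4` there is a unit vector `q` orthogonal to `u0, q1, v`.
For small `τ`: `μi = ai + oi cos τ w` (orthogonal to `v`), `r = ‖μ0‖`, `γ = ⟪μ0, μ1⟫`; `μ0 → u0`, `μ1 → u1`, `γ → c`.
Let `y, y', m` be as in `QM` with a small `η`: `y, y'` close to `u0`, `m` close to `v`, `(y - y') / ‖y - y'‖` close to `q`, `m ⊥ y, y'`. Let `l` be the normalised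
projection of `q1` on `{y, y', m}ᗮ` (close to `q1`: `{y, y'}` has the orthonormal basis `y, f` with `f` close to `q`). Put
`z = λ (y + y') + ρ l`, `λ = γ / (r (1 + ⟪y, y'⟫))`, `ρ = √(‖μ1‖² - 2 λ² (1 + ⟪y, y'⟫))`: `z ⊥ m`, `‖z‖ = ‖μ1‖`, `⟪z, r y⟫ = ⟪z, r y'⟫ = γ`, `z` close to `u1`.
The orthonormal triples `(v, μ0 / r, ν)` and `(m, y, ζ)`, `ν` and `ζ` the normalised components of `μ1` orthogonal to `μ0` and of `z` orthogonal to
`y` (components of the same norm), are close; `lift3` gives `g ∈ Rot n` close to the identity with `g v = m`, `g μ0 = r y`, `g μ1 = z`. `Two.eq`: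
`h (r y + o0 sin τ m) - h (r y - o0 sin τ m) = k (h (z + o1 sin τ m) - h (z - o1 sin τ m))`, and the same for `y'`, with the same right side. Divide
by `r` (homogeneity): `h (y + t m) - h (y - t m) = h (y' + t m) - h (y' - t m)`, `t = o0 sin τ / r`, where `t` runs through all small numbers
(`τ ↦ o0 sin τ / r` is continuous, `0` at `0` and not constant: intermediate value theorem; both signs of `t` give the same equation). So `Mix`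
with `C = 0`.
-/

set_option autoImplicit false

open scoped RealInnerProductSpace
open Filter Topology

namespace Pool.Agent.H34.RT

variable {n : ℕ}

private lemma two_step {h : Space n → ℝ} {a0 a1 w v : Space n} {o0 o1 k ε : ℝ} (T : Two h a0 a1 w v o0 o1 k ε)
    {m Y z μ0 μ1 : Space n} {τ δ r γ κ : ℝ} (hm : ‖m‖ = 1) (hY : ‖Y‖ = 1) (hYm : ⟪Y, m⟫ = 0)
    (hzm : ⟪z, m⟫ = 0) (hμ0 : μ0 = a0 + (o0 * Real.cos τ) • w) (hμ1 : μ1 = a1 + (o1 * Real.cos τ) • w)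
    (hr : ‖μ0‖ = r) (hr0 : 0 < r) (hγ : ⟪μ0, μ1⟫ = γ)
    (hκ : ‖μ1‖ ^ 2 - (γ / r) ^ 2 = κ ^ 2) (hκ0 : 0 < κ)
    (hz : ‖z‖ ^ 2 = ‖μ1‖ ^ 2) (hzY : ⟪z, Y⟫ = γ / r)
    (hδ : δ ≤ 1 / 9) (hδε : 26 * δ ≤ ε) (hτ : |τ| < ε)
    (c1 : ‖v - m‖ ≤ δ) (c2 : ‖r⁻¹ • μ0 - Y‖ ≤ δ)
    (c3 : ‖κ⁻¹ • (μ1 - (γ / r ^ 2) • μ0) - κ⁻¹ • (z - (γ / r) • Y)‖ ≤ δ) :
    h (r • Y + (o0 * Real.sin τ) • m) - h (r • Y - (o0 * Real.sin τ) • m) =
      k * (h (z + (o1 * Real.sin τ) • m) - h (z - (o1 * Real.sin τ) • m)) := by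
  have hvμ0 : ⟪v, μ0⟫ = 0 := by
    rw [hμ0, inner_add_right, inner_smul_right, real_inner_comm, T.a0v, real_inner_comm, T.wv]; ring
  have hvμ1 : ⟪v, μ1⟫ = 0 := by
    rw [hμ1, inner_add_right, inner_smul_right, real_inner_comm, T.a1v, real_inner_comm, T.wv]; ring
  have hμμ : ⟪μ0, μ0⟫ = r ^ 2 := by rw [real_inner_self_eq_norm_sq, hr]
  have hκn : κ ≠ 0 := hκ0.ne'
  have hrn : r ≠ 0 := hr0.ne'
  have he2 : ‖r⁻¹ • μ0‖ = 1 := by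
    rw [norm_smul, hr, Real.norm_eq_abs, abs_of_pos (inv_pos.mpr hr0)]; field_simp
  have key1 : ‖μ1 - (γ / r ^ 2) • μ0‖ ^ 2 = κ ^ 2 := by
    rw [← real_inner_self_eq_norm_sq]
    simp only [inner_sub_left, inner_sub_right, inner_smul_left, inner_smul_right, hμμ, hγ,
      real_inner_comm μ0 μ1, real_inner_self_eq_norm_sq, RCLike.conj_to_real]
    rw [← hκ]
    field_simp
    ring
  have hn1 : ‖μ1 - (γ / r ^ 2) • μ0‖ = κ :=
    (sq_eq_sq₀ (norm_nonneg _) hκ0.le).mp key1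
  have key2 : ‖z - (γ / r) • Y‖ ^ 2 = κ ^ 2 := by
    rw [← real_inner_self_eq_norm_sq]
    simp only [inner_sub_left, inner_sub_right, inner_smul_left, inner_smul_right, hzY,
      real_inner_comm z Y, real_inner_self_eq_norm_sq, RCLike.conj_to_real]
    rw [← hκ, hz, hY]
    ring
  have hn2 : ‖z - (γ / r) • Y‖ = κ :=
    (sq_eq_sq₀ (norm_nonneg _) hκ0.le).mp key2
  have hinv : ‖(κ⁻¹ : ℝ)‖ = κ⁻¹ := by rw [Real.norm_eq_abs, abs_of_pos (inv_pos.mpr hκ0)]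
  have he3 : ‖κ⁻¹ • (μ1 - (γ / r ^ 2) • μ0)‖ = 1 := by
    rw [norm_smul, hn1, hinv]; field_simp
  have hf3 : ‖κ⁻¹ • (z - (γ / r) • Y)‖ = 1 := by
    rw [norm_smul, hn2, hinv]; field_simp
  have i12 : ⟪v, r⁻¹ • μ0⟫ = 0 := by rw [inner_smul_right, hvμ0, mul_zero]
  have i13 : ⟪v, κ⁻¹ • (μ1 - (γ / r ^ 2) • μ0)⟫ = 0 := by
    rw [inner_smul_right, inner_sub_right, inner_smul_right, hvμ0, hvμ1]; ring
  have i23 : ⟪r⁻¹ • μ0, κ⁻¹ • (μ1 - (γ / r ^ 2) • μ0)⟫ = 0 := by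
    rw [inner_smul_right, real_inner_smul_left, inner_sub_right, inner_smul_right, hμμ, hγ]
    field_simp
    ring
  have j12 : ⟪m, Y⟫ = 0 := by rw [real_inner_comm, hYm]
  have j13 : ⟪m, κ⁻¹ • (z - (γ / r) • Y)⟫ = 0 := by
    rw [inner_smul_right, inner_sub_right, inner_smul_right, j12, real_inner_comm, hzm]; ring
  have j23 : ⟪Y, κ⁻¹ • (z - (γ / r) • Y)⟫ = 0 := by
    rw [inner_smul_right, inner_sub_right, inner_smul_right, real_inner_comm, hzY,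
      real_inner_self_eq_norm_sq, hY]; ring
  obtain ⟨g, hg, g1, g2, g3, hN⟩ := lift3 T.nv he2 he3 i12 i13 i23 hm hY hf3 j12 j13 j23 hδ c1 c2 c3
  have gμ0 : g μ0 = r • Y := by
    have : g (r • (r⁻¹ • μ0)) = r • Y := by rw [map_smul, g2]
    rwa [smul_smul, mul_inv_cancel₀ hrn, one_smul] at this
  have gμ1 : g μ1 = z := by
    have h1 : μ1 = κ • (κ⁻¹ • (μ1 - (γ / r ^ 2) • μ0)) + (γ / r ^ 2) • μ0 := by
      rw [smul_smul, mul_inv_cancel₀ hκn, one_smul, sub_add_cancel]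
    rw [h1, map_add, map_smul, g3, map_smul, gμ0, smul_smul, smul_smul, mul_inv_cancel₀ hκn, one_smul]
    have h2 : γ / r ^ 2 * r = γ / r := by field_simp
    rw [h2, sub_add_cancel]
  have hmono : Near ε g := near_mono hN hδε
  have E := T.eq g hg hmono τ hτ
  have e1 : a0 + o0 • (Real.cos τ • w + Real.sin τ • v) = μ0 + (o0 * Real.sin τ) • v := by
    rw [hμ0, smul_add, smul_smul, smul_smul]; abel
  have e2 : a0 + o0 • (Real.cos τ • w - Real.sin τ • v) = μ0 - (o0 * Real.sin τ) • v := by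
    rw [hμ0, smul_sub, smul_smul, smul_smul]; abel
  have e3 : a1 + o1 • (Real.cos τ • w + Real.sin τ • v) = μ1 + (o1 * Real.sin τ) • v := by
    rw [hμ1, smul_add, smul_smul, smul_smul]; abel
  have e4 : a1 + o1 • (Real.cos τ • w - Real.sin τ • v) = μ1 - (o1 * Real.sin τ) • v := by
    rw [hμ1, smul_sub, smul_smul, smul_smul]; abel
  rw [e1, e2, e3, e4, map_add, map_sub, map_add, map_sub, map_smul, map_smul, g1, gμ0, gμ1] at E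
  exact E

/-- a unit vector orthogonal to three given ones -/
private lemma exists_perp (hn : 4 ≤ n) (x y z : Space n) :
    ∃ q : Space n, ‖q‖ = 1 ∧ ⟪x, q⟫ = 0 ∧ ⟪y, q⟫ = 0 ∧ ⟪z, q⟫ = 0 := by
  classical
  set K : Submodule ℝ (Space n) := Submodule.span ℝ ((({x, y, z} : Finset (Space n)) : Set (Space n)))
  have h1 : Module.finrank ℝ K ≤ 3 := (finrank_span_finset_le_card _).trans Finset.card_le_three
  have h2 : Module.finrank ℝ K + Module.finrank ℝ Kᗮ = n := by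
    rw [Submodule.finrank_add_finrank_orthogonal]; simp
  have h3 : Kᗮ ≠ ⊥ := by
    intro h
    rw [h, finrank_bot] at h2
    omega
  obtain ⟨p, hp, hp0⟩ := Submodule.exists_mem_ne_zero_of_ne_bot h3
  have hpn : ‖p‖ ≠ 0 := norm_ne_zero_iff.mpr hp0
  have hmem : ∀ u ∈ (({x, y, z} : Finset (Space n)) : Set (Space n)), ⟪u, ‖p‖⁻¹ • p⟫ = 0 := by
    intro u hu
    rw [inner_smul_right, (Submodule.mem_orthogonal K p).mp hp u (Submodule.subset_span hu), mul_zero]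
  refine ⟨‖p‖⁻¹ • p, ?_, hmem x (by simp), hmem y (by simp), hmem z (by simp)⟩
  rw [norm_smul, norm_inv, norm_norm, inv_mul_cancel₀ hpn]

private lemma z_facts {Y Y' M F q1 P z : Space n} {d lam rho : ℝ} (hY : ‖Y‖ = 1) (hY' : ‖Y'‖ = 1) (hM : ‖M‖ = 1)
    (hF : ‖F‖ = 1) (hYM : ⟪Y, M⟫ = 0) (hYM' : ⟪Y', M⟫ = 0) (hd : Y - Y' = d • F) (hd0 : d ≠ 0)
    (hD : 0 < 1 + ⟪Y, Y'⟫)
    (hP : P = q1 - (⟪Y + Y', q1⟫ / ‖Y + Y'‖ ^ 2) • (Y + Y') - ⟪F, q1⟫ • F - ⟪M, q1⟫ • M) (hP0 : ‖P‖ ≠ 0)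
    (hz : z = lam • (Y + Y') + (rho / ‖P‖) • P) :
    ⟪z, M⟫ = 0 ∧ ⟪z, Y⟫ = lam * (1 + ⟪Y, Y'⟫) ∧ ⟪z, Y'⟫ = lam * (1 + ⟪Y, Y'⟫) ∧
      ‖z‖ ^ 2 = 2 * lam ^ 2 * (1 + ⟪Y, Y'⟫) + rho ^ 2 := by
  have hss : ⟪Y + Y', Y + Y'⟫ = 2 * (1 + ⟪Y, Y'⟫) := by
    rw [inner_add_left, inner_add_right, inner_add_right, real_inner_self_eq_norm_sq,
      real_inner_self_eq_norm_sq, hY, hY', real_inner_comm Y Y']; ring
  have hsn : ‖Y + Y'‖ ^ 2 = 2 * (1 + ⟪Y, Y'⟫) := by rw [← real_inner_self_eq_norm_sq, hss]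
  have hsF : ⟪Y + Y', F⟫ = 0 := by
    have h1 : ⟪Y + Y', Y - Y'⟫ = 0 := by
      rw [inner_add_left, inner_sub_right, inner_sub_right, real_inner_self_eq_norm_sq,
        real_inner_self_eq_norm_sq, hY, hY', real_inner_comm Y Y']; ring
    rw [hd, inner_smul_right] at h1
    exact (mul_eq_zero.mp h1).resolve_left hd0
  have hsM : ⟪Y + Y', M⟫ = 0 := by rw [inner_add_left, hYM, hYM']; ring
  have hFM : ⟪F, M⟫ = 0 := by
    have h1 : ⟪Y - Y', M⟫ = 0 := by rw [inner_sub_left, hYM, hYM']; ring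
    rw [hd, real_inner_smul_left] at h1
    exact (mul_eq_zero.mp h1).resolve_left hd0
  have hFF : ⟪F, F⟫ = 1 := by rw [real_inner_self_eq_norm_sq, hF]; norm_num
  have hMM : ⟪M, M⟫ = 1 := by rw [real_inner_self_eq_norm_sq, hM]; norm_num
  have hFs : ⟪F, Y + Y'⟫ = 0 := by rw [real_inner_comm, hsF]
  have hMs : ⟪M, Y + Y'⟫ = 0 := by rw [real_inner_comm, hsM]
  have hMF : ⟪M, F⟫ = 0 := by rw [real_inner_comm, hFM]
  have hPs : ⟪P, Y + Y'⟫ = 0 := by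
    rw [hP, inner_sub_left, inner_sub_left, inner_sub_left, real_inner_smul_left, real_inner_smul_left,
      real_inner_smul_left, hss, hFs, hMs, hsn, real_inner_comm (Y + Y') q1]
    field_simp
    ring
  have hPF : ⟪P, F⟫ = 0 := by
    rw [hP, inner_sub_left, inner_sub_left, inner_sub_left, real_inner_smul_left, real_inner_smul_left,
      real_inner_smul_left, hsF, hFF, hMF, real_inner_comm F q1]
    ring
  have hPM : ⟪P, M⟫ = 0 := by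
    rw [hP, inner_sub_left, inner_sub_left, inner_sub_left, real_inner_smul_left, real_inner_smul_left,
      real_inner_smul_left, hsM, hFM, hMM, real_inner_comm M q1]
    ring
  have hzM : ⟪z, M⟫ = 0 := by
    rw [hz, inner_add_left, real_inner_smul_left, real_inner_smul_left, hsM, hPM]; ring
  have hzF : ⟪z, F⟫ = 0 := by
    rw [hz, inner_add_left, real_inner_smul_left, real_inner_smul_left, hsF, hPF]; ring
  have hzs : ⟪z, Y + Y'⟫ = 2 * (lam * (1 + ⟪Y, Y'⟫)) := by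
    rw [hz, inner_add_left, real_inner_smul_left, real_inner_smul_left, hss, hPs]; ring
  have hzd : ⟪z, Y⟫ - ⟪z, Y'⟫ = 0 := by
    rw [← inner_sub_right, hd, inner_smul_right, hzF, mul_zero]
  rw [inner_add_right] at hzs
  refine ⟨hzM, by linarith, by linarith, ?_⟩
  have hsP : ⟪Y + Y', P⟫ = 0 := by rw [real_inner_comm, hPs]
  have e1 : ‖z‖ ^ 2 = ⟪z, z⟫ := (real_inner_self_eq_norm_sq z).symm
  rw [e1, hz, inner_add_left, inner_add_right, inner_add_right, real_inner_smul_left, real_inner_smul_left,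
    real_inner_smul_left, real_inner_smul_left, inner_smul_right, inner_smul_right, inner_smul_right,
    inner_smul_right, hss, hsP, hPs, real_inner_self_eq_norm_sq]
  field_simp
  ring

/-- everything is close to the base configuration -/
private lemma two_ev {α : Type} {l : Filter α} {Y Y' M F : α → Space n} {τ : α → ℝ}
    {a0 a1 w v u0 u1 q q1 : Space n} {o0 o1 c ε δ : ℝ}
    (hY : Tendsto Y l (𝓝 u0)) (hY' : Tendsto Y' l (𝓝 u0)) (hM : Tendsto M l (𝓝 v)) (hF : Tendsto F l (𝓝 q))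
    (hτ : Tendsto τ l (𝓝 0)) (hu0 : u0 = a0 + o0 • w) (hu1 : u1 = a1 + o1 • w) (n0 : ‖u0‖ = 1) (n1 : ‖u1‖ = 1)
    (hc : ⟪u0, u1⟫ = c) (hc1 : 0 < 1 - c ^ 2) (hq1 : q1 = (√(1 - c ^ 2))⁻¹ • (u1 - c • u0))
    (h0q : ⟪u0, q1⟫ = 0) (hqq : ⟪q, q1⟫ = 0) (hvq : ⟪v, q1⟫ = 0) (nq : ‖q1‖ = 1) (hε : 0 < ε) (hδ : 0 < δ)
    {μ0 μ1 s P z : α → Space n} {lam rho κ : α → ℝ}
    (hμ0 : μ0 = fun a => a0 + (o0 * Real.cos (τ a)) • w)
    (hμ1 : μ1 = fun a => a1 + (o1 * Real.cos (τ a)) • w)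
    (hs : s = fun a => Y a + Y' a)
    (hP : P = fun a => q1 - (⟪s a, q1⟫ / ‖s a‖ ^ 2) • s a - ⟪F a, q1⟫ • F a - ⟪M a, q1⟫ • M a)
    (hlam : lam = fun a => ⟪μ0 a, μ1 a⟫ / (‖μ0 a‖ * (1 + ⟪Y a, Y' a⟫)))
    (hrho : rho = fun a => √(‖μ1 a‖ ^ 2 - 2 * lam a ^ 2 * (1 + ⟪Y a, Y' a⟫)))
    (hκ : κ = fun a => √(‖μ1 a‖ ^ 2 - (⟪μ0 a, μ1 a⟫ / ‖μ0 a‖) ^ 2))
    (hz : z = fun a => lam a • s a + (rho a / ‖P a‖) • P a) :
    ∀ᶠ a in l, 0 < ‖μ0 a‖ ∧ 0 < 1 + ⟪Y a, Y' a⟫ ∧ 0 < ‖P a‖ ∧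
      0 < ‖μ1 a‖ ^ 2 - 2 * lam a ^ 2 * (1 + ⟪Y a, Y' a⟫) ∧
      0 < ‖μ1 a‖ ^ 2 - (⟪μ0 a, μ1 a⟫ / ‖μ0 a‖) ^ 2 ∧
      |τ a| < ε ∧ ‖v - M a‖ < δ ∧ ‖(‖μ0 a‖)⁻¹ • μ0 a - Y a‖ < δ ∧ ‖(‖μ0 a‖)⁻¹ • μ0 a - Y' a‖ < δ ∧
      ‖(κ a)⁻¹ • (μ1 a - (⟪μ0 a, μ1 a⟫ / ‖μ0 a‖ ^ 2) • μ0 a) -
        (κ a)⁻¹ • (z a - (⟪μ0 a, μ1 a⟫ / ‖μ0 a‖) • Y a)‖ < δ ∧
      ‖(κ a)⁻¹ • (μ1 a - (⟪μ0 a, μ1 a⟫ / ‖μ0 a‖ ^ 2) • μ0 a) -
        (κ a)⁻¹ • (z a - (⟪μ0 a, μ1 a⟫ / ‖μ0 a‖) • Y' a)‖ < δ := by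
  have tcos : Tendsto (fun a => Real.cos (τ a)) l (𝓝 1) := by
    have := (Real.continuous_cos.tendsto 0).comp hτ
    rw [Real.cos_zero] at this
    exact this
  have tμ0 : Tendsto μ0 l (𝓝 u0) := by
    rw [hμ0, hu0]
    have := (tendsto_const_nhds (x := a0)).add ((tcos.const_mul o0).smul_const w)
    simpa using this
  have tμ1 : Tendsto μ1 l (𝓝 u1) := by
    rw [hμ1, hu1]
    have := (tendsto_const_nhds (x := a1)).add ((tcos.const_mul o1).smul_const w)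
    simpa using this
  have tr : Tendsto (fun a => ‖μ0 a‖) l (𝓝 1) := by simpa [n0] using tμ0.norm
  have tr1 : Tendsto (fun a => ‖μ1 a‖) l (𝓝 1) := by simpa [n1] using tμ1.norm
  have tγ : Tendsto (fun a => ⟪μ0 a, μ1 a⟫) l (𝓝 c) := by
    have := tμ0.inner (𝕜 := ℝ) tμ1
    rwa [hc] at this
  have ts : Tendsto s l (𝓝 (u0 + u0)) := by rw [hs]; exact hY.add hY'
  have hu00 : ⟪u0, u0⟫ = 1 := by rw [real_inner_self_eq_norm_sq, n0]; norm_num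
  have tD : Tendsto (fun a => 1 + ⟪Y a, Y' a⟫) l (𝓝 2) := by
    have := (tendsto_const_nhds (x := (1:ℝ))).add (hY.inner (𝕜 := ℝ) hY')
    rw [hu00] at this
    norm_num at this
    exact this
  have tsn : Tendsto (fun a => ‖s a‖ ^ 2) l (𝓝 4) := by
    have h1 := ts.norm.pow 2
    have h2 : ‖u0 + u0‖ ^ 2 = 4 := by
      rw [← real_inner_self_eq_norm_sq, inner_add_left, inner_add_right, hu00]; norm_num
    rwa [h2] at h1
  have tP : Tendsto P l (𝓝 q1) := by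
    rw [hP]
    have h1 : Tendsto (fun a => (⟪s a, q1⟫ / ‖s a‖ ^ 2) • s a) l (𝓝 ((⟪u0 + u0, q1⟫ / 4) • (u0 + u0))) :=
      ((ts.inner (𝕜 := ℝ) tendsto_const_nhds).div tsn (by norm_num)).smul ts
    have h2 : Tendsto (fun a => ⟪F a, q1⟫ • F a) l (𝓝 (⟪q, q1⟫ • q)) :=
      (hF.inner (𝕜 := ℝ) tendsto_const_nhds).smul hF
    have h3 : Tendsto (fun a => ⟪M a, q1⟫ • M a) l (𝓝 (⟪v, q1⟫ • v)) :=
      (hM.inner (𝕜 := ℝ) tendsto_const_nhds).smul hM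
    have := (((tendsto_const_nhds (x := q1)).sub h1).sub h2).sub h3
    rw [inner_add_left, h0q, hqq, hvq] at this
    simpa using this
  have tPn : Tendsto (fun a => ‖P a‖) l (𝓝 1) := by simpa [nq] using tP.norm
  have tlam : Tendsto lam l (𝓝 (c / 2)) := by
    rw [hlam]
    have := tγ.div (tr.mul tD) (by norm_num)
    rw [one_mul] at this
    exact this
  have trr : Tendsto (fun a => ‖μ1 a‖ ^ 2 - 2 * lam a ^ 2 * (1 + ⟪Y a, Y' a⟫)) l (𝓝 (1 - c ^ 2)) := by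
    have := (tr1.pow 2).sub (((tlam.pow 2).const_mul 2).mul tD)
    have e : (1:ℝ) ^ 2 - 2 * (c / 2) ^ 2 * 2 = 1 - c ^ 2 := by ring
    rwa [e] at this
  have trho : Tendsto rho l (𝓝 (√(1 - c ^ 2))) := by
    rw [hrho]
    exact trr.sqrt
  have tκκ : Tendsto (fun a => ‖μ1 a‖ ^ 2 - (⟪μ0 a, μ1 a⟫ / ‖μ0 a‖) ^ 2) l (𝓝 (1 - c ^ 2)) := by
    have := (tr1.pow 2).sub ((tγ.div tr (by norm_num)).pow 2)
    have e : (1:ℝ) ^ 2 - (c / 1) ^ 2 = 1 - c ^ 2 := by ring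
    rwa [e] at this
  have tκ : Tendsto κ l (𝓝 (√(1 - c ^ 2))) := by
    rw [hκ]
    exact tκκ.sqrt
  have hsq : 0 < √(1 - c ^ 2) := Real.sqrt_pos.mpr hc1
  have hu1q : u1 = c • u0 + √(1 - c ^ 2) • q1 := by
    rw [hq1, smul_smul, mul_inv_cancel₀ hsq.ne', one_smul]; abel
  have tz : Tendsto z l (𝓝 u1) := by
    rw [hz]
    have := (tlam.smul ts).add ((trho.div tPn (by norm_num)).smul tP)
    have e : (c / 2) • (u0 + u0) + (√(1 - c ^ 2) / 1) • q1 = u1 := by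
      rw [hu1q, ← two_smul ℝ u0, smul_smul, div_one]
      congr 2
      ring
    rwa [e] at this
  have tκi : Tendsto (fun a => (κ a)⁻¹) l (𝓝 (√(1 - c ^ 2))⁻¹) := tκ.inv₀ hsq.ne'
  have tν : Tendsto (fun a => (κ a)⁻¹ • (μ1 a - (⟪μ0 a, μ1 a⟫ / ‖μ0 a‖ ^ 2) • μ0 a)) l (𝓝 q1) := by
    have := tκi.smul (tμ1.sub ((tγ.div (tr.pow 2) (by norm_num)).smul tμ0))
    have e : (√(1 - c ^ 2))⁻¹ • (u1 - (c / 1 ^ 2) • u0) = q1 := by rw [hq1]; norm_num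
    rwa [e] at this
  have tζ : ∀ {W : α → Space n}, Tendsto W l (𝓝 u0) →
      Tendsto (fun a => (κ a)⁻¹ • (z a - (⟪μ0 a, μ1 a⟫ / ‖μ0 a‖) • W a)) l (𝓝 q1) := by
    intro W hW
    have := tκi.smul (tz.sub ((tγ.div tr (by norm_num)).smul hW))
    have e : (√(1 - c ^ 2))⁻¹ • (u1 - (c / 1) • u0) = q1 := by rw [hq1]; norm_num
    rwa [e] at this
  have tn : Tendsto (fun a => (‖μ0 a‖)⁻¹ • μ0 a) l (𝓝 u0) := by
    have := (tr.inv₀ (by norm_num)).smul tμ0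
    simpa using this
  have small : ∀ {A B : α → Space n} {x : Space n}, Tendsto A l (𝓝 x) → Tendsto B l (𝓝 x) →
      ∀ᶠ a in l, ‖A a - B a‖ < δ := by
    intro A B x hA hB
    have h1 : Tendsto (fun a => ‖A a - B a‖) l (𝓝 0) := by
      have := (hA.sub hB).norm
      simpa using this
    exact h1.eventually_lt_const hδ
  have tabs : Tendsto (fun a => |τ a|) l (𝓝 0) := by
    have := hτ.abs
    simpa using this
  filter_upwards [tr.eventually_const_lt one_pos, tD.eventually_const_lt two_pos, tPn.eventually_const_lt one_pos,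
    trr.eventually_const_lt hc1, tκκ.eventually_const_lt hc1, tabs.eventually_lt_const hε,
    small (tendsto_const_nhds (x := v)) hM, small tn hY, small tn hY', small tν (tζ hY), small tν (tζ hY')]
    with a b1 b2 b3 b4 b5 b6 b7 b8 b9 b10 b11
  exact ⟨b1, b2, b3, b4, b5, b6, b7, b8, b9, b10, b11⟩

theorem qm_of_two (hn : 4 ≤ n) {h : Space n → ℝ} (hh : Sup h) {a0 a1 w v : Space n} {o0 o1 k ε : ℝ}
    (T : Two h a0 a1 w v o0 o1 k ε) :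
    ∃ q : Space n, ‖q‖ = 1 ∧ ⟪a0 + o0 • w, q⟫ = 0 ∧ ⟪q, v⟫ = 0 ∧ QM h (a0 + o0 • w) q v := by
  obtain ⟨u0, hu0⟩ : ∃ u0, u0 = a0 + o0 • w := ⟨_, rfl⟩
  obtain ⟨u1, hu1⟩ : ∃ u1, u1 = a1 + o1 • w := ⟨_, rfl⟩
  obtain ⟨c, hc⟩ : ∃ c, ⟪u0, u1⟫ = c := ⟨_, rfl⟩
  obtain ⟨q, nq, hq0, hq1, hqv⟩ := exists_perp hn u0 u1 v
  rw [← hu0]
  refine ⟨q, nq, hq0, by rw [real_inner_comm, hqv], ?_⟩
  have n0 : ‖u0‖ = 1 := by rw [hu0]; exact T.n0
  have n1 : ‖u1‖ = 1 := by rw [hu1]; exact T.n1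
  have hu00 : ⟪u0, u0⟫ = 1 := by rw [real_inner_self_eq_norm_sq, n0]; norm_num
  have hu11 : ⟪u1, u1⟫ = 1 := by rw [real_inner_self_eq_norm_sq, n1]; norm_num
  have hcabs : |c| < 1 := by rw [← hc, hu0, hu1]; exact T.ang
  have hc1 : 0 < 1 - c ^ 2 := by
    have := abs_lt.mp hcabs
    nlinarith [this.1, this.2]
  have hsq : 0 < √(1 - c ^ 2) := Real.sqrt_pos.mpr hc1
  obtain ⟨q1, hq1d⟩ : ∃ q1, q1 = (√(1 - c ^ 2))⁻¹ • (u1 - c • u0) := ⟨_, rfl⟩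
  have hv0 : ⟪v, u0⟫ = 0 := by
    rw [hu0, inner_add_right, inner_smul_right, real_inner_comm, T.a0v, real_inner_comm, T.wv]; ring
  have hv1 : ⟪v, u1⟫ = 0 := by
    rw [hu1, inner_add_right, inner_smul_right, real_inner_comm, T.a1v, real_inner_comm, T.wv]; ring
  have h0q : ⟪u0, q1⟫ = 0 := by
    rw [hq1d, inner_smul_right, inner_sub_right, inner_smul_right, hc, hu00]; ring
  have hqq : ⟪q, q1⟫ = 0 := by
    rw [hq1d, inner_smul_right, inner_sub_right, inner_smul_right, real_inner_comm, hq1, real_inner_comm, hq0]; ring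
  have hvq : ⟪v, q1⟫ = 0 := by
    rw [hq1d, inner_smul_right, inner_sub_right, inner_smul_right, hv0, hv1]; ring
  have nq1 : ‖q1‖ = 1 := by
    have h1 : ‖u1 - c • u0‖ ^ 2 = 1 - c ^ 2 := by
      rw [← real_inner_self_eq_norm_sq, inner_sub_left, inner_sub_right, inner_sub_right, inner_smul_right,
        real_inner_smul_left, real_inner_smul_left, inner_smul_right, hu00, hu11, real_inner_comm u0 u1, hc]
      ring
    have h2 : ‖u1 - c • u0‖ = √(1 - c ^ 2) := by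
      rw [← h1, Real.sqrt_sq (norm_nonneg _)]
    rw [hq1d, norm_smul, h2, norm_inv, Real.norm_eq_abs, abs_of_pos hsq, inv_mul_cancel₀ hsq.ne']
  obtain ⟨δ, hδ0, hδ1, hδε⟩ : ∃ δ : ℝ, 0 < δ ∧ δ ≤ 1 / 9 ∧ 26 * δ ≤ ε := by
    refine ⟨min (1 / 9) (ε / 26), lt_min (by norm_num) (by linarith [T.eps]), min_le_left _ _, ?_⟩
    have := min_le_right (1 / 9) (ε / 26)
    linarith
  let E := Space n × Space n × Space n × Space n × ℝ
  let B : E := (u0, u0, v, q, 0)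
  have tB : Tendsto (id : E → E) (𝓝 B) (𝓝 B) := tendsto_id
  have p1 : Tendsto (fun p : E => p.1) (𝓝 B) (𝓝 u0) := continuous_fst.tendsto B
  have p2 : Tendsto (fun p : E => p.2.1) (𝓝 B) (𝓝 u0) := (continuous_fst.comp continuous_snd).tendsto B
  have p3 : Tendsto (fun p : E => p.2.2.1) (𝓝 B) (𝓝 v) :=
    (continuous_fst.comp (continuous_snd.comp continuous_snd)).tendsto B
  have p4 : Tendsto (fun p : E => p.2.2.2.1) (𝓝 B) (𝓝 q) :=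
    (continuous_fst.comp (continuous_snd.comp (continuous_snd.comp continuous_snd))).tendsto B
  have p5 : Tendsto (fun p : E => p.2.2.2.2) (𝓝 B) (𝓝 0) :=
    (continuous_snd.comp (continuous_snd.comp (continuous_snd.comp continuous_snd))).tendsto B
  have ev := two_ev p1 p2 p3 p4 p5 hu0 hu1 n0 n1 hc hc1 hq1d h0q hqq hvq nq1 T.eps hδ0 rfl rfl rfl rfl rfl rfl
    rfl rfl
  obtain ⟨η, hη, hev⟩ := Metric.eventually_nhds_iff.mp ev
  refine ⟨η, hη, ?_⟩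
  intro y y' m hy hy' hm hym hym' hyu hyu' hmv hne hF
  have hd0 : ‖y - y'‖ ≠ 0 := norm_ne_zero_iff.mpr (sub_ne_zero.mpr hne)
  obtain ⟨F, hFd⟩ : ∃ F, F = ‖y - y'‖⁻¹ • (y - y') := ⟨_, rfl⟩
  rw [← hFd] at hF
  have hFn : ‖F‖ = 1 := by rw [hFd, norm_smul, norm_inv, norm_norm, inv_mul_cancel₀ hd0]
  have hdF : y - y' = ‖y - y'‖ • F := by rw [hFd, smul_smul, mul_inv_cancel₀ hd0, one_smul]
  have hC : ∀ τ : ℝ, |τ| < η → _ := fun τ hτ => hev (y := ((y, y', m, F, τ) : E)) (by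
    have e1 : dist y u0 < η := by rwa [dist_eq_norm]
    have e2 : dist y' u0 < η := by rwa [dist_eq_norm]
    have e3 : dist m v < η := by rwa [dist_eq_norm]
    have e4 : dist F q < η := by rwa [dist_eq_norm]
    have e5 : dist τ 0 < η := by rwa [Real.dist_eq, sub_zero]
    rw [Prod.dist_eq, Prod.dist_eq, Prod.dist_eq, Prod.dist_eq]
    exact max_lt e1 (max_lt e2 (max_lt e3 (max_lt e4 e5))))
  simp only at hC
  -- the parameter `t`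
  have hη2 : 0 < min (η / 2) 1 := lt_min (by linarith) one_pos
  obtain ⟨τ1, hτ1, hτ1s⟩ : ∃ τ1 : ℝ, |τ1| = min (η / 2) 1 ∧ 0 < o0 * Real.sin τ1 := by
    have hs : 0 < Real.sin (min (η / 2) 1) :=
      Real.sin_pos_of_pos_of_lt_pi hη2 (lt_of_le_of_lt (min_le_right _ _) (by linarith [Real.pi_gt_three]))
    rcases lt_or_gt_of_ne T.ho with h1 | h1
    · refine ⟨-min (η / 2) 1, by rw [abs_neg, abs_of_pos hη2], ?_⟩
      rw [Real.sin_neg]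
      nlinarith
    · exact ⟨min (η / 2) 1, abs_of_pos hη2, mul_pos h1 hs⟩
  have hin : ∀ τ ∈ Set.uIcc 0 τ1, |τ| < η := by
    intro τ hτ
    have h1 : |τ| ≤ |τ1| := by
      have := Set.abs_sub_left_of_mem_uIcc hτ
      simpa using this
    rw [hτ1] at h1
    have h2 := min_le_left (η / 2) 1
    linarith
  have hr0 : ∀ τ : ℝ, |τ| < η → 0 < ‖a0 + (o0 * Real.cos τ) • w‖ := fun τ hτ => (hC τ hτ).1
  have hcont : ContinuousOn (fun τ => o0 * Real.sin τ / ‖a0 + (o0 * Real.cos τ) • w‖) (Set.uIcc 0 τ1) := by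
    apply ContinuousOn.div
    · fun_prop
    · fun_prop
    · exact fun τ hτ => (hr0 τ (hin τ hτ)).ne'
  have hpos1 : 0 < o0 * Real.sin τ1 / ‖a0 + (o0 * Real.cos τ1) • w‖ :=
    div_pos hτ1s (hr0 τ1 (hin τ1 Set.right_mem_uIcc))
  refine ⟨0, _, hpos1, ?_⟩
  intro t ht ht1
  have hivt := intermediate_value_uIcc hcont
  have htm : t ∈ Set.uIcc (o0 * Real.sin 0 / ‖a0 + (o0 * Real.cos 0) • w‖)
      (o0 * Real.sin τ1 / ‖a0 + (o0 * Real.cos τ1) • w‖) := by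
    rw [Real.sin_zero, mul_zero, zero_div, Set.uIcc_of_le hpos1.le]
    exact ⟨ht.le, ht1.le⟩
  obtain ⟨τ, hτI, hτt⟩ := hivt htm
  simp only at hτt
  obtain ⟨b1, b2, b3, b4, b5, b6, b7, b8, b9, b10, b11⟩ := hC τ (hin τ hτI)
  obtain ⟨μ0, hμ0⟩ : ∃ μ0, μ0 = a0 + (o0 * Real.cos τ) • w := ⟨_, rfl⟩
  obtain ⟨μ1, hμ1⟩ : ∃ μ1, μ1 = a1 + (o1 * Real.cos τ) • w := ⟨_, rfl⟩
  rw [← hμ0] at b1 b4 b5 b8 b9 b10 b11 hτt
  rw [← hμ1] at b4 b5 b10 b11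
  obtain ⟨P, hP⟩ : ∃ P, P = q1 - (⟪y + y', q1⟫ / ‖y + y'‖ ^ 2) • (y + y') - ⟪F, q1⟫ • F - ⟪m, q1⟫ • m :=
    ⟨_, rfl⟩
  rw [← hP] at b3 b10 b11
  obtain ⟨γ, hγ⟩ : ∃ γ, ⟪μ0, μ1⟫ = γ := ⟨_, rfl⟩
  obtain ⟨r, hr⟩ : ∃ r, ‖μ0‖ = r := ⟨_, rfl⟩
  rw [hr] at b1 b4 b5 b8 b9 b10 b11 hτt
  rw [hγ] at b4 b5 b10 b11
  obtain ⟨lam, hlam⟩ : ∃ lam, lam = γ / (r * (1 + ⟪y, y'⟫)) := ⟨_, rfl⟩
  rw [← hlam] at b4 b10 b11
  obtain ⟨rho, hrho⟩ : ∃ rho, rho = √(‖μ1‖ ^ 2 - 2 * lam ^ 2 * (1 + ⟪y, y'⟫)) := ⟨_, rfl⟩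
  rw [← hrho] at b10 b11
  obtain ⟨κ, hκ⟩ : ∃ κ, κ = √(‖μ1‖ ^ 2 - (γ / r) ^ 2) := ⟨_, rfl⟩
  rw [← hκ] at b10 b11
  obtain ⟨z, hz⟩ : ∃ z, z = lam • (y + y') + (rho / ‖P‖) • P := ⟨_, rfl⟩
  rw [← hz] at b10 b11
  obtain ⟨z1, z2, z3, z4⟩ := z_facts hy hy' hm hFn hym hym' hdF hd0 b2 hP b3.ne' hz
  have hl : lam * (1 + ⟪y, y'⟫) = γ / r := by rw [hlam]; field_simp
  rw [hl] at z2 z3
  have hrho2 : rho ^ 2 = ‖μ1‖ ^ 2 - 2 * lam ^ 2 * (1 + ⟪y, y'⟫) := by rw [hrho, Real.sq_sqrt b4.le]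
  have z5 : ‖z‖ ^ 2 = ‖μ1‖ ^ 2 := by rw [z4, hrho2]; ring
  have hκ2 : ‖μ1‖ ^ 2 - (γ / r) ^ 2 = κ ^ 2 := by rw [hκ, Real.sq_sqrt b5.le]
  have hκ0 : 0 < κ := by rw [hκ]; exact Real.sqrt_pos.mpr b5
  have s1 := two_step T hm hy hym z1 hμ0 hμ1 hr b1 hγ hκ2 hκ0 z5 z2 hδ1 hδε b6 b7.le b8.le b10.le
  have s2 := two_step T hm hy' hym' z1 hμ0 hμ1 hr b1 hγ hκ2 hκ0 z5 z3 hδ1 hδε b6 b7.le b9.le b11.le
  have hom : ∀ x : Space n, h (r • x + (o0 * Real.sin τ) • m) = r * h (x + t • m) ∧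
      h (r • x - (o0 * Real.sin τ) • m) = r * h (x - t • m) := by
    intro x
    have e : o0 * Real.sin τ = r * t := by rw [← hτt]; field_simp
    rw [e, ← hh.hom r _ b1.le, ← hh.hom r _ b1.le, smul_add, smul_sub, smul_smul]
    exact ⟨rfl, rfl⟩
  rw [(hom y).1, (hom y).2] at s1
  rw [(hom y').1, (hom y').2] at s2
  have s3 : r * ((h (y + t • m) - h (y - t • m)) - (h (y' + t • m) - h (y' - t • m))) = 0 := by linarith
  have s4 := (mul_eq_zero.mp s3).resolve_left b1.ne'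
  rw [s4]
  simp

end Pool.Agent.H34.RT
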