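import Pool.Agent.H34.RT.GForm
import Pool.Agent.H34.RT.KConst
import Pool.Agent.H34.RT.QMix
import Pool.Agent.H34.RT.Per
import Pool.Agent.H34.RT.TriOf
import Pool.Agent.H34.RT.TwoOf
import Pool.Agent.H34.RT.TwoQ

/-!
# Core : the local theorem near the identity
-/

set_option autoImplicit false

open scoped RealInnerProductSpace

namespace Pool.Agent.H34.RT

variable {n : ℕ}

/-- the conclusion from mixed second differences -/
private theorem of_qm (hn : 3 ≤ n) {h : Space n → ℝ} (hh : Sup h) {p q v : Space n} (hp : ‖p‖ = 1) (hq : ‖q‖ = 1)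
    (hv : ‖v‖ = 1) (hpq : ⟪p, q⟫ = 0) (hpv : ⟪p, v⟫ = 0) (hqv : ⟪q, v⟫ = 0) (hQ : QM h p q v) :
    ∃ (V : Space n) (c η : ℝ), 0 < η ∧ ∀ x : Space n, ‖x‖ = 1 → ‖x - p‖ < η → h x = ⟪V, x⟫ + c := by
  obtain ⟨V, η, P, hη, hP, hG⟩ := grad_form hn hh hp hq hpq (q_of_qm hp hq hv hpq hpv hqv hQ)
  obtain ⟨c, η', hη', hc⟩ := const_of_form hh hp hη hP hG
  exact ⟨V, c, η', hη', hc⟩

theorem core (hn : 3 ≤ n) {h : Space n → ℝ} (hh : Sup h) {m : ℕ} {u0 : Space n} {w : Fin m → Space n}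
    {lam : Fin m → ℝ} {C ε : ℝ} (hε : 0 < ε) (hm : 2 ≤ m) (hu0 : ‖u0‖ = 1) (hw : ∀ k, ‖w k‖ = 1)
    (hli : LinearIndependent ℝ w) (hlam : ∀ k, lam k ≠ 0) (hrel : u0 = ∑ k, lam k • w k) {v : Space n} (hv : v ≠ 0)
    (hwv : ∀ k, ⟪w k, v⟫ = 0)
    (hFE : ∀ g ∈ Rot n, Near ε g → h (g u0) = ∑ k, lam k * h (g (w k)) + C) :
    ∃ (V : Space n) (c η : ℝ), 0 < η ∧ ∀ x : Space n, ‖x‖ = 1 → ‖x - u0‖ < η → h x = ⟪V, x⟫ + c := by
  have hv0 : ‖v‖ ≠ 0 := norm_ne_zero_iff.mpr hv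
  -- normalise `v`
  have hv1 : ‖(‖v‖⁻¹ • v)‖ = 1 := by
    rw [norm_smul, norm_inv, norm_norm, inv_mul_cancel₀ hv0]
  have hwv1 : ∀ k, ⟪w k, ‖v‖⁻¹ • v⟫ = 0 := fun k => by rw [inner_smul_right, hwv, mul_zero]
  have hu0v : ⟪u0, ‖v‖⁻¹ • v⟫ = 0 := by
    rw [hrel, sum_inner]
    refine Finset.sum_eq_zero fun k _ => ?_
    rw [inner_smul_left, hwv1, mul_zero]
  set v1 := ‖v‖⁻¹ • v with hv1def
  rcases Nat.lt_or_ge m 3 with hm3 | hm3
  · -- relations of three vectors
    obtain rfl : m = 2 := by omega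
    have hli2 : LinearIndependent ℝ ![w 0, w 1] := by
      have : ![w 0, w 1] = w := by
        funext i
        fin_cases i <;> rfl
      rw [this]
      exact hli
    have hrel2 : u0 = lam 0 • w 0 + lam 1 • w 1 := by rw [hrel, Fin.sum_univ_two]
    have hFE2 : ∀ g ∈ Rot n, Near ε g → h (g u0) = lam 0 * h (g (w 0)) + lam 1 * h (g (w 1)) + C :=
      fun g hg hgn => by rw [hFE g hg hgn, Fin.sum_univ_two]
    obtain ⟨F1, F2, α1, α2, C', ε', u1, u2, T, hu1⟩ := tri_of_fe hε hu0 (hw 0) (hw 1) hli2 (hlam 0) (hlam 1) hrel2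
      hFE2
    obtain ⟨q, hq, hu0q, hqs, hQ⟩ := qm_of_tri T hh
    have hspan : ∀ x ∈ Submodule.span ℝ {w 0, w 1}, ⟪x, v1⟫ = 0 := by
      intro x hx
      rw [Submodule.mem_span_pair] at hx
      obtain ⟨a, b, rfl⟩ := hx
      rw [inner_add_left, inner_smul_left, inner_smul_left, hwv1, hwv1]
      simp
    have hqv : ⟪q, v1⟫ = 0 := by
      apply hspan
      have h1 : Submodule.span ℝ {u0, u1} ≤ Submodule.span ℝ {w 0, w 1} := by
        rw [Submodule.span_le]
        rintro x (rfl | rfl)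
        · rw [SetLike.mem_coe, Submodule.mem_span_pair]
          exact ⟨lam 0, lam 1, hrel2.symm⟩
        · exact hu1
      exact h1 hqs
    exact of_qm hn hh hu0 hq hv1 hu0q hu0v hqv (hQ v1 hv1 hu0v hqv)
  · -- relations of at least four vectors
    have hn4 : 4 ≤ n := by
      have h1 : LinearIndependent ℝ (Fin.cons v1 w : Fin (m + 1) → Space n) := by
        rw [linearIndependent_finCons]
        refine ⟨hli, fun hmem => ?_⟩
        have h2 : ∀ x ∈ Submodule.span ℝ (Set.range w), ⟪x, v1⟫ = 0 := by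
          intro x hx
          induction hx using Submodule.span_induction with
          | mem x hx =>
            obtain ⟨k, rfl⟩ := hx
            exact hwv1 k
          | zero => exact inner_zero_left _
          | add x y _ _ hx hy => rw [inner_add_left, hx, hy, add_zero]
          | smul a x _ hx => rw [inner_smul_left, hx, mul_zero]
        have h3 := h2 v1 hmem
        rw [real_inner_self_eq_norm_sq, hv1] at h3
        norm_num at h3
      have h2 := h1.fintype_card_le_finrank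
      rw [Fintype.card_fin, finrank_euclideanSpace, Fintype.card_fin] at h2
      omega
    obtain ⟨a0, a1, w', o0, o1, k, ε', T, hu⟩ := two_of_fe hε hm hu0 hw hli hlam hrel hv1 hwv1 hFE
    obtain ⟨q, hq, hu0q, hqv, hQ⟩ := qm_of_two hn4 hh T
    rw [← hu] at hu0q hQ
    exact of_qm hn hh hu0 hq hv1 hu0q hu0v hqv hQ

end Pool.Agent.H34.RT
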