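import Mathlib

/-!
# Defs : rotors in polyhedral sets containing a line

MP_c2e62a_gt. `Space n` is Euclidean `n`-space. `Sup h` collects what we use of a support function. `Rot n` are the linear
isometries of determinant one; `Near ε g` says that `g` is close to the identity. `Mix` is the mixed second difference estimate.
-/

set_option autoImplicit false

open scoped RealInnerProductSpace

namespace Pool.Agent.H34.RT

/-- Euclidean `n`-space -/
abbrev Space (n : ℕ) : Type := EuclideanSpace ℝ (Fin n)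

variable {n : ℕ}

/-- the point `A x + t` -/
noncomputable def move (A : Matrix (Fin n) (Fin n) ℝ) (t x : Space n) : Space n :=
  WithLp.toLp 2 (A.mulVec x.ofLp) + t

/-- in the orientation `A` a translate of `K` lies in `{x | ∀ j, ⟪u j, x⟫ ≤ b j}` and meets all the hyperplanes
`⟪u j, x⟫ = b j` -/
def Touches {J : Type} (u : J → Space n) (b : J → ℝ) (K : Set (Space n)) (A : Matrix (Fin n) (Fin n) ℝ) : Prop :=
  ∃ t : Space n, ∀ j, (∀ x ∈ K, ⟪u j, move A t x⟫ ≤ b j) ∧ ∃ x ∈ K, ⟪u j, move A t x⟫ = b j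

/-- the normal `u j` is a linear combination of the normals which are not parallel to it -/
def Dep {J : Type} (u : J → Space n) (j : J) : Prop :=
  u j ∈ Submodule.span ℝ {w | (∃ i, u i = w) ∧ w ≠ u j ∧ w ≠ -u j}

/-- support function -/
noncomputable def supp (K : Set (Space n)) (v : Space n) : ℝ := sSup ((fun x => ⟪x, v⟫) '' K)

/-- what we use of a support function -/
structure Sup (h : Space n → ℝ) : Prop where
  hom : ∀ (t : ℝ) (x : Space n), 0 ≤ t → h (t • x) = t * h x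
  conv : ConvexOn ℝ Set.univ h
  lip : ∃ L : ℝ, 0 ≤ L ∧ ∀ x y : Space n, |h x - h y| ≤ L * ‖x - y‖

/-- rotations -/
def Rot (n : ℕ) : Set (Space n ≃ₗᵢ[ℝ] Space n) :=
  {g | LinearMap.det (g.toLinearEquiv : Space n →ₗ[ℝ] Space n) = 1}

/-- close to the identity -/
def Near (ε : ℝ) (g : Space n ≃ₗᵢ[ℝ] Space n) : Prop := ∀ x, ‖g x - x‖ ≤ ε * ‖x‖

/-- the gradients at two nearby points with difference in the direction `q` differ by a vector of their span -/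
def Q (h : Space n → ℝ) (p q : Space n) : Prop :=
  ∃ η : ℝ, 0 < η ∧ ∀ y y' : Space n, ‖y‖ = 1 → ‖y'‖ = 1 → ‖y - p‖ < η → ‖y' - p‖ < η → y ≠ y' →
    ‖‖y - y'‖⁻¹ • (y - y') - q‖ < η → DifferentiableAt ℝ h y → DifferentiableAt ℝ h y' →
    gradient h y - gradient h y' ∈ Submodule.span ℝ {y, y'}

/-- mixed second differences are `O(t²)` -/
def Mix (h : Space n → ℝ) (y y' m : Space n) : Prop :=
  ∃ C δ : ℝ, 0 < δ ∧ ∀ t : ℝ, 0 < t → t < δ →
    |(h (y + t • m) - h (y - t • m)) - (h (y' + t • m) - h (y' - t • m))| ≤ C * t ^ 2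

/-- `Mix` for all configurations close to `p, q, v` -/
def QM (h : Space n → ℝ) (p q v : Space n) : Prop :=
  ∃ η : ℝ, 0 < η ∧ ∀ y y' m : Space n, ‖y‖ = 1 → ‖y'‖ = 1 → ‖m‖ = 1 → ⟪y, m⟫ = 0 → ⟪y', m⟫ = 0 →
    ‖y - p‖ < η → ‖y' - p‖ < η → ‖m - v‖ < η → y ≠ y' → ‖‖y - y'‖⁻¹ • (y - y') - q‖ < η → Mix h y y' m

/-- three functions, a functional equation for all triples of unit vectors close to `u0, u1, u2` with the same relation -/
structure Tri (F0 F1 F2 : Space n → ℝ) (α0 α1 α2 : ℝ) (u0 u1 u2 : Space n) (C ε : ℝ) : Prop where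
  a0 : 0 < α0
  a1 : 0 < α1
  a2 : 0 < α2
  n0 : ‖u0‖ = 1
  n1 : ‖u1‖ = 1
  n2 : ‖u2‖ = 1
  rel : α0 • u0 + α1 • u1 + α2 • u2 = 0
  ang : |⟪u0, u1⟫| < 1
  eps : 0 < ε
  eq : ∀ x0 x1 x2 : Space n, ‖x0‖ = 1 → ‖x1‖ = 1 → ‖x2‖ = 1 → α0 • x0 + α1 • x1 + α2 • x2 = 0 →
    ‖x0 - u0‖ < ε → ‖x1 - u1‖ < ε → ‖x2 - u2‖ < ε → F0 x0 + F1 x1 + F2 x2 = C

/-- the relation between the differences at two indices: `u i = a i + o i • w`, rotations in the plane `w, v` -/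
structure Two (h : Space n → ℝ) (a0 a1 w v : Space n) (o0 o1 k ε : ℝ) : Prop where
  nw : ‖w‖ = 1
  nv : ‖v‖ = 1
  wv : ⟪w, v⟫ = 0
  a0w : ⟪a0, w⟫ = 0
  a0v : ⟪a0, v⟫ = 0
  a1w : ⟪a1, w⟫ = 0
  a1v : ⟪a1, v⟫ = 0
  n0 : ‖a0 + o0 • w‖ = 1
  n1 : ‖a1 + o1 • w‖ = 1
  ho : o0 ≠ 0
  ang : |⟪a0 + o0 • w, a1 + o1 • w⟫| < 1
  eps : 0 < ε
  eq : ∀ g ∈ Rot n, Near ε g → ∀ τ : ℝ, |τ| < ε →
    h (g (a0 + o0 • (Real.cos τ • w + Real.sin τ • v))) - h (g (a0 + o0 • (Real.cos τ • w - Real.sin τ • v))) =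
      k * (h (g (a1 + o1 • (Real.cos τ • w + Real.sin τ • v))) -
        h (g (a1 + o1 • (Real.cos τ • w - Real.sin τ • v))))

end Pool.Agent.H34.RT
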