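import Pool.Agent.H34.RT.Defs

/-!
# Diff : points of differentiability

`LipschitzWith.ae_differentiableAt` (Rademacher): the points of differentiability have full measure, so they are dense
(`MeasureTheory.Measure.dense_of_ae`). `near_diff`: the set `{x | x ≠ 0, ‖x‖⁻¹ • x ∈ U, x ∉ P}` is open and not empty (a proper subspace
has empty interior, `Submodule.interior...`: if `p ∈ P` move `p` a bit in the direction of a vector outside `P`), so it contains a point of
differentiability `x`; `y = ‖x‖⁻¹ • x` is one as well since `h z = ‖x‖⁻¹ * h (‖x‖ • z)`.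
-/

set_option autoImplicit false

open scoped RealInnerProductSpace

namespace Pool.Agent.H34.RT

variable {n : ℕ}

theorem dense_diff {h : Space n → ℝ} (hh : Sup h) : Dense {x : Space n | DifferentiableAt ℝ h x} := by
  obtain ⟨L, hL, hl⟩ := hh.lip
  have h1 : LipschitzWith L.toNNReal h := by
    refine LipschitzWith.of_dist_le_mul fun x y => ?_
    rw [Real.dist_eq, dist_eq_norm, Real.coe_toNNReal L hL]
    exact hl x y
  have h2 : ∀ᵐ x ∂(MeasureTheory.volume : MeasureTheory.Measure (Space n)), DifferentiableAt ℝ h x :=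
    h1.ae_differentiableAt
  exact MeasureTheory.Measure.dense_of_ae h2

theorem near_diff {h : Space n → ℝ} (hh : Sup h) {P : Submodule ℝ (Space n)} (hP : P ≠ ⊤) {p : Space n} (hp : ‖p‖ = 1)
    {U : Set (Space n)} (hU : IsOpen U) (hpU : p ∈ U) : ∃ y ∈ U, y ∉ P ∧ ‖y‖ = 1 ∧ DifferentiableAt ℝ h y := by
  have hp0 : p ≠ 0 := by
    intro h0
    rw [h0, norm_zero] at hp
    exact zero_ne_one hp
  have hcl : IsClosed (P : Set (Space n)) := P.closed_of_finiteDimensional
  have hdc : Dense ((P : Set (Space n))ᶜ) := by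
    rw [← interior_eq_empty_iff_dense_compl]
    by_contra hne
    exact hP (Submodule.eq_top_of_nonempty_interior' P (Set.nonempty_iff_ne_empty.2 hne))
  have hD : Dense ((P : Set (Space n))ᶜ ∩ {x : Space n | DifferentiableAt ℝ h x}) :=
    hdc.inter_of_isOpen_left (dense_diff hh) hcl.isOpen_compl
  have hcont : ContinuousAt (fun x : Space n => ‖x‖⁻¹ • x) p :=
    (continuousAt_id.norm.inv₀ (norm_ne_zero_iff.2 hp0)).smul continuousAt_id
  have hφp : ‖p‖⁻¹ • p = p := by
    simp [hp]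
  have hV : {x : Space n | ‖x‖⁻¹ • x ∈ U ∧ x ≠ 0} ∈ nhds p := by
    have h1 : ∀ᶠ x in nhds p, ‖x‖⁻¹ • x ∈ U := by
      apply hcont.eventually_mem
      rw [hφp]
      exact hU.mem_nhds hpU
    have h2 : ∀ᶠ x in nhds p, x ≠ 0 := isOpen_ne.mem_nhds hp0
    exact h1.and h2
  obtain ⟨x, ⟨hxP, hxd⟩, hxU, hx0⟩ := hD.inter_nhds_nonempty hV
  have hxn : 0 < ‖x‖ := norm_pos_iff.2 hx0
  refine ⟨‖x‖⁻¹ • x, hxU, ?_, ?_, ?_⟩
  · intro hmem
    apply hxP
    have : x = ‖x‖ • (‖x‖⁻¹ • x) := by rw [smul_smul, mul_inv_cancel₀ hxn.ne', one_smul]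
    show x ∈ P
    rw [this]
    exact P.smul_mem _ hmem
  · rw [norm_smul, norm_inv, norm_norm, inv_mul_cancel₀ hxn.ne']
  · have e : h = fun z => ‖x‖⁻¹ * h (‖x‖ • z) := by
      funext z
      rw [hh.hom _ _ hxn.le, ← mul_assoc, inv_mul_cancel₀ hxn.ne', one_mul]
    have e2 : ‖x‖ • (‖x‖⁻¹ • x) = x := by rw [smul_smul, mul_inv_cancel₀ hxn.ne', one_smul]
    have hd : DifferentiableAt ℝ h ((fun z : Space n => ‖x‖ • z) (‖x‖⁻¹ • x)) := by
      show DifferentiableAt ℝ h (‖x‖ • (‖x‖⁻¹ • x))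
      rw [e2]
      exact hxd
    have hs : DifferentiableAt ℝ (fun z : Space n => ‖x‖ • z) (‖x‖⁻¹ • x) :=
      (differentiable_id.const_smul ‖x‖).differentiableAt
    have h3 := (hd.comp _ hs).const_mul ‖x‖⁻¹
    rw [e]
    exact h3

end Pool.Agent.H34.RT
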