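import Mathlib

/-!
# LinSO : a linear functional which is constant on an open set of rotations is zero (n ≥ 3)

`PP i j = E_ii + E_jj`, `JJ i j = E_ji - E_ij`, `RR i j t = 1 + (cos t - 1) PP + sin t JJ` is the rotation by the angle `t` in the plane `e_i, e_j`. If `f`
is constant on a neighbourhood of `A` then `f (A PP) = f (A JJ) = 0`, and with two rotations `f (A JJ (i,j) JJ (j,k)) = f (A E_ik) = 0`.
-/

set_option autoImplicit false

open Matrix

namespace Pool.Agent.H34.RT

variable {n : ℕ}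

/-- projection to a coordinate plane -/
def PP (i j : Fin n) : Matrix (Fin n) (Fin n) ℝ := single i i 1 + single j j 1

/-- generator of the rotations in a coordinate plane -/
def JJ (i j : Fin n) : Matrix (Fin n) (Fin n) ℝ := single j i 1 - single i j 1

/-- rotation in a coordinate plane -/
noncomputable def RR (i j : Fin n) (t : ℝ) : Matrix (Fin n) (Fin n) ℝ :=
  1 + (Real.cos t - 1) • PP i j + Real.sin t • JJ i j

theorem RR_mul {i j : Fin n} (hij : i ≠ j) (s t : ℝ) : RR i j s * RR i j t = RR i j (s + t) := by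
  have hPP : PP i j * PP i j = PP i j := by
    simp [PP, mul_add, add_mul, single_mul_single_of_ne, hij, hij.symm]
  have hPJ : PP i j * JJ i j = JJ i j := by
    simp [PP, JJ, mul_sub, add_mul, single_mul_single_of_ne, hij, hij.symm]
  have hJP : JJ i j * PP i j = JJ i j := by
    simp [PP, JJ, mul_add, sub_mul, single_mul_single_of_ne, hij, hij.symm]
    abel
  have hJJ : JJ i j * JJ i j = -PP i j := by
    simp [PP, JJ, mul_sub, sub_mul, single_mul_single_of_ne, hij, hij.symm]
    abel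
  unfold RR
  rw [Real.cos_add, Real.sin_add]
  simp only [mul_add, add_mul, one_mul, mul_one, smul_mul_assoc, mul_smul_comm, hPP, hPJ, hJP, hJJ]
  module

theorem RR_transpose (i j : Fin n) (t : ℝ) : (RR i j t)ᵀ = RR i j (-t) := by
  have h1 : (PP i j)ᵀ = PP i j := by simp [PP, transpose_single]
  have h2 : (JJ i j)ᵀ = -JJ i j := by simp [JJ, transpose_single]
  unfold RR
  rw [transpose_add, transpose_add, transpose_one, transpose_smul, transpose_smul, h1, h2, Real.cos_neg, Real.sin_neg,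
    neg_smul, smul_neg]

theorem RR_zero (i j : Fin n) : RR i j 0 = 1 := by
  simp [RR]

theorem RR_mem {i j : Fin n} (hij : i ≠ j) (t : ℝ) : RR i j t ∈ specialOrthogonalGroup (Fin n) ℝ := by
  have ho : ∀ s : ℝ, RR i j s * (RR i j s)ᵀ = 1 := by
    intro s
    rw [RR_transpose, RR_mul hij, add_neg_cancel, RR_zero]
  rw [mem_specialOrthogonalGroup_iff, mem_orthogonalGroup_iff]
  refine ⟨ho t, ?_⟩
  have h1 : RR i j t = RR i j (t / 2) * RR i j (t / 2) := by rw [RR_mul hij, add_halves]
  have h2 := congrArg det (ho (t / 2))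
  rw [det_mul, det_transpose, det_one] at h2
  rw [h1, det_mul, h2]

theorem RR_continuous (i j : Fin n) : Continuous fun t : ℝ => RR i j t := by
  unfold RR
  fun_prop

private theorem two_terms {a b δ : ℝ} (hδ : 0 < δ)
    (h : ∀ t : ℝ, |t| < δ → (Real.cos t - 1) * a + Real.sin t * b = 0) : a = 0 ∧ b = 0 := by
  obtain ⟨t, ht0, htδ, ht1⟩ : ∃ t : ℝ, 0 < t ∧ t < δ ∧ t < 1 := by
    refine ⟨min δ 1 / 2, by positivity, ?_, ?_⟩
    · have h1 := min_le_left δ 1
      have h2 : 0 < min δ 1 := by positivity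
      linarith
    · have h1 := min_le_right δ 1
      have h2 : 0 < min δ 1 := by positivity
      linarith
  have e1 := h t (by rwa [abs_of_pos ht0])
  have e2 := h (-t) (by rwa [abs_neg, abs_of_pos ht0])
  rw [Real.cos_neg, Real.sin_neg] at e2
  have hsin : 0 < Real.sin t := Real.sin_pos_of_pos_of_lt_pi ht0 (by linarith [Real.pi_gt_three])
  have hcos : Real.cos t - 1 ≠ 0 := by
    intro hc
    have := Real.sin_sq_add_cos_sq t
    rw [sub_eq_zero.mp hc] at this
    nlinarith
  constructor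
  · have h3 : (Real.cos t - 1) * a = 0 := by linarith
    exact (mul_eq_zero.mp h3).resolve_left hcos
  · have h3 : Real.sin t * b = 0 := by linarith
    exact (mul_eq_zero.mp h3).resolve_left hsin.ne'

/-- if `f` is constant near `1` on the rotations then it vanishes -/
private theorem at_one (hn : 3 ≤ n) {f : Matrix (Fin n) (Fin n) ℝ →ₗ[ℝ] ℝ} {κ : ℝ}
    {W : Set (Matrix (Fin n) (Fin n) ℝ)} (hW : IsOpen W) (h1 : (1 : Matrix (Fin n) (Fin n) ℝ) ∈ W)
    (h : ∀ A ∈ specialOrthogonalGroup (Fin n) ℝ, A ∈ W → f A = κ) : f = 0 := by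
  have hf1 : f 1 = κ := h 1 (one_mem _) h1
  -- products of two rotations stay in `W`
  have hev : ∀ i j k l : Fin n, ∃ δ : ℝ, 0 < δ ∧ ∀ s t : ℝ, |s| < δ → |t| < δ → RR i j s * RR k l t ∈ W := by
    intro i j k l
    have hc : Continuous fun p : ℝ × ℝ => RR i j p.1 * RR k l p.2 :=
      ((RR_continuous i j).comp continuous_fst).mul ((RR_continuous k l).comp continuous_snd)
    have h0 : RR i j (0 : ℝ × ℝ).1 * RR k l (0 : ℝ × ℝ).2 ∈ W := by
      show RR i j 0 * RR k l 0 ∈ W
      rw [RR_zero, RR_zero, one_mul]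
      exact h1
    obtain ⟨δ, hδ, hb⟩ := Metric.eventually_nhds_iff.1 (hc.continuousAt.eventually (hW.mem_nhds h0))
    refine ⟨δ, hδ, fun s t hs ht => hb (y := (s, t)) ?_⟩
    rw [Prod.dist_eq]
    simp only [Prod.fst_zero, Prod.snd_zero, dist_zero_right, Real.norm_eq_abs, sup_lt_iff]
    exact ⟨hs, ht⟩
  -- first step
  have step : ∀ {i j k l : Fin n} (_ : i ≠ j) (_ : k ≠ l), ∀ δ : ℝ, 0 < δ →
      (∀ s t : ℝ, |s| < δ → |t| < δ → RR i j s * RR k l t ∈ W) →
      ∀ t : ℝ, |t| < δ → f (PP i j * RR k l t) = 0 ∧ f (JJ i j * RR k l t) = 0 := by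
    intro i j k l hij hkl δ hδ hb t ht
    refine two_terms hδ (fun s hs => ?_)
    have h2 := h _ (mul_mem (RR_mem hij s) (RR_mem hkl t)) (hb s t hs ht)
    have h3 := h _ (mul_mem (RR_mem hij 0) (RR_mem hkl t)) (hb 0 t (by simpa using hδ) ht)
    rw [RR_zero, one_mul] at h3
    have h4 : RR i j s = 1 + (Real.cos s - 1) • PP i j + Real.sin s • JJ i j := rfl
    rw [h4, add_mul, add_mul, one_mul, map_add, map_add, smul_mul_assoc, smul_mul_assoc, map_smul, map_smul,
      smul_eq_mul, smul_eq_mul] at h2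
    linarith
  have hP : ∀ i j : Fin n, i ≠ j → f (PP i j) = 0 := by
    intro i j hij
    obtain ⟨δ, hδ, hb⟩ := hev i j i j
    have h2 := (step hij hij δ hδ hb 0 (by simpa using hδ)).1
    rwa [RR_zero, mul_one] at h2
  have hE : ∀ i j k : Fin n, i ≠ j → j ≠ k → i ≠ k → f (single i k 1) = 0 := by
    intro i j k hij hjk hik
    obtain ⟨δ, hδ, hb⟩ := hev i j j k
    have h2 : ∀ t : ℝ, |t| < δ → f (JJ i j * RR j k t) = 0 := fun t ht => (step hij hjk δ hδ hb t ht).2
    have h3 : f (JJ i j) = 0 := by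
      have := h2 0 (by simpa using hδ)
      rwa [RR_zero, mul_one] at this
    have h4 := (two_terms (a := f (JJ i j * PP j k)) (b := f (JJ i j * JJ j k)) hδ (fun t ht => by
      have := h2 t ht
      unfold RR at this
      rw [mul_add, mul_add, mul_one, map_add, map_add, mul_smul_comm, mul_smul_comm, map_smul, map_smul,
        smul_eq_mul, smul_eq_mul, h3] at this
      linarith)).2
    have h5 : JJ i j * JJ j k = single i k 1 := by
      simp [JJ, mul_sub, sub_mul, single_mul_single_of_ne, hij, hjk, hik]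
    rwa [h5] at h4
  have hthird : ∀ i k : Fin n, ∃ j : Fin n, i ≠ j ∧ j ≠ k := by
    intro i k
    by_contra hcon
    push Not at hcon
    have h2 : (Finset.univ : Finset (Fin n)) ⊆ {i, k} := by
      intro j _
      rw [Finset.mem_insert, Finset.mem_singleton]
      by_cases hji : i = j
      · exact Or.inl hji.symm
      · exact Or.inr (hcon j hji)
    have h3 := (Finset.card_le_card h2).trans Finset.card_le_two
    rw [Finset.card_univ, Fintype.card_fin] at h3
    omega
  have hall : ∀ i k : Fin n, f (single i k 1) = 0 := by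
    intro i k
    obtain ⟨j, hij, hjk⟩ := hthird i k
    by_cases hik : i = k
    · subst hik
      obtain ⟨l, hil, hlj⟩ := hthird i j
      have e1 := hP i j hij
      have e2 := hP i l hil
      have e3 := hP j l hlj.symm
      unfold PP at e1 e2 e3
      rw [map_add] at e1 e2 e3
      linarith
    · exact hE i j k hij hjk hik
  apply Matrix.ext_linearMap
  intro i k
  apply LinearMap.ext_ring
  show f (single i k 1) = 0
  exact hall i k

theorem lin_so (hn : 3 ≤ n) {f : Matrix (Fin n) (Fin n) ℝ →ₗ[ℝ] ℝ} {κ : ℝ}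
    {V : Set (specialOrthogonalGroup (Fin n) ℝ)} (hV : IsOpen V) (hne : V.Nonempty)
    (h : ∀ A ∈ V, f (A : Matrix (Fin n) (Fin n) ℝ) = κ) : f = 0 := by
  obtain ⟨V', hV', rfl⟩ := isOpen_induced_iff.mp hV
  obtain ⟨A, hA⟩ := hne
  have hAo : (A : Matrix (Fin n) (Fin n) ℝ) * (A : Matrix (Fin n) (Fin n) ℝ)ᵀ = 1 := by
    have h2 := A.2
    rw [mem_specialOrthogonalGroup_iff, mem_orthogonalGroup_iff] at h2
    exact h2.1
  let g : Matrix (Fin n) (Fin n) ℝ →ₗ[ℝ] ℝ := f ∘ₗ LinearMap.mulLeft ℝ (A : Matrix (Fin n) (Fin n) ℝ)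
  have hg : g = 0 := by
    refine at_one hn (W := {B | (A : Matrix (Fin n) (Fin n) ℝ) * B ∈ V'}) (κ := κ) ?_ ?_ ?_
    · exact hV'.preimage (continuous_const.mul continuous_id)
    · show (A : Matrix (Fin n) (Fin n) ℝ) * 1 ∈ V'
      rw [mul_one]
      exact hA
    · intro B hB hBW
      exact h ⟨(A : Matrix (Fin n) (Fin n) ℝ) * B, mul_mem A.2 hB⟩ hBW
  ext B
  have h2 : g ((A : Matrix (Fin n) (Fin n) ℝ)ᵀ * B) = 0 := by rw [hg]; rfl
  have h3 : g ((A : Matrix (Fin n) (Fin n) ℝ)ᵀ * B) = f B := by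
    show f ((A : Matrix (Fin n) (Fin n) ℝ) * ((A : Matrix (Fin n) (Fin n) ℝ)ᵀ * B)) = f B
    rw [← mul_assoc, hAo, one_mul]
  rw [← h3, h2]
  rfl

end Pool.Agent.H34.RT
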