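import Pool.Agent.H34.RT.Conn
import Pool.Agent.H34.RT.LinSO
import Pool.Agent.H34.RT.Width

/-!
# Fam : local classification for indecomposable families of normals

`Indec u`: whenever the indices are divided into two nonempty parts, the spans of the parts have a nonzero common vector. Then a function `γ`
such that `∑ μ i γ i u i = 0` for all relations `∑ μ i u i = 0` is constant. With `lin_so` all the centres of `connected_rigidity` coincide.
-/

set_option autoImplicit false

open scoped RealInnerProductSpace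

namespace Pool.Agent.H34.RT

variable {n : ℕ}

/-- the family is not a direct sum of two families -/
def Indec {J : Type} (u : J → Space n) : Prop :=
  ∀ S : Set J, S.Nonempty → Sᶜ.Nonempty →
    ∃ w : Space n, w ≠ 0 ∧ w ∈ Submodule.span ℝ (u '' S) ∧ w ∈ Submodule.span ℝ (u '' Sᶜ)

theorem const_of_mul {J : Type} {u : J → Space n} (hind : Indec u) {γ : J → ℝ}
    (hγ : ∀ (s : Finset J) (μ : J → ℝ), ∑ i ∈ s, μ i • u i = 0 → ∑ i ∈ s, (μ i * γ i) • u i = 0) (i j : J) :
    γ i = γ j := by
  classical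
  by_contra hne
  obtain ⟨w, hw0, hw1, hw2⟩ := hind {k | γ k = γ j} ⟨j, rfl⟩ ⟨i, hne⟩
  rw [Finsupp.mem_span_image_iff_linearCombination] at hw1 hw2
  obtain ⟨l1, hl1, hw1⟩ := hw1
  obtain ⟨l2, hl2, hw2⟩ := hw2
  rw [Finsupp.mem_supported] at hl1 hl2
  set s : Finset J := l1.support ∪ l2.support with hs
  have hsum1 : ∑ k ∈ s, l1 k • u k = w := by
    rw [← hw1, Finsupp.linearCombination_apply, Finsupp.sum]
    symm
    apply Finset.sum_subset Finset.subset_union_left
    intro k _ hk
    rw [Finsupp.notMem_support_iff.mp hk, zero_smul]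
  have hsum2 : ∑ k ∈ s, l2 k • u k = w := by
    rw [← hw2, Finsupp.linearCombination_apply, Finsupp.sum]
    symm
    apply Finset.sum_subset Finset.subset_union_right
    intro k _ hk
    rw [Finsupp.notMem_support_iff.mp hk, zero_smul]
  have hrel : ∑ k ∈ s, (l1 k - l2 k) • u k = 0 := by
    simp only [sub_smul]
    rw [Finset.sum_sub_distrib, hsum1, hsum2, sub_self]
  have hprod : ∀ T : Finset ℝ, ∑ k ∈ s, ((l1 k - l2 k) * ∏ g ∈ T, (γ k - g)) • u k = 0 := by
    intro T
    induction T using Finset.induction_on with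
    | empty => simpa using hrel
    | insert g T hg ih =>
      have h1 := hγ s _ ih
      have h2 : ∀ k ∈ s, ((l1 k - l2 k) * ∏ g' ∈ insert g T, (γ k - g')) • u k =
          ((l1 k - l2 k) * (∏ g' ∈ T, (γ k - g')) * γ k) • u k -
            g • (((l1 k - l2 k) * ∏ g' ∈ T, (γ k - g')) • u k) := by
        intro k _
        rw [Finset.prod_insert hg, smul_smul, ← sub_smul]
        congr 1
        ring
      rw [Finset.sum_congr rfl h2, Finset.sum_sub_distrib, ← Finset.smul_sum, h1, ih, smul_zero, sub_zero]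
  set T : Finset ℝ := l2.support.image γ with hT
  have hκ : ∏ g ∈ T, (γ j - g) ≠ 0 := by
    rw [Finset.prod_ne_zero_iff]
    intro g hg
    rw [hT, Finset.mem_image] at hg
    obtain ⟨k, hk, rfl⟩ := hg
    have h1 : k ∈ ({k | γ k = γ j} : Set J)ᶜ := hl2 (Finset.mem_coe.mpr hk)
    exact sub_ne_zero.mpr fun h => h1 h.symm
  have hterm : ∀ k ∈ s, ((l1 k - l2 k) * ∏ g ∈ T, (γ k - g)) • u k = (∏ g ∈ T, (γ j - g)) • (l1 k • u k) := by
    intro k _
    rw [smul_smul]
    congr 1
    by_cases hk2 : k ∈ l2.support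
    · have h1 : k ∈ ({k | γ k = γ j} : Set J)ᶜ := hl2 (Finset.mem_coe.mpr hk2)
      have h2 : l1 k = 0 := by
        by_contra h3
        exact h1 (hl1 (Finset.mem_coe.mpr (Finsupp.mem_support_iff.mpr h3)))
      have h3 : ∏ g ∈ T, (γ k - g) = 0 :=
        Finset.prod_eq_zero (Finset.mem_image_of_mem γ hk2) (sub_self _)
      rw [h2, h3]
      ring
    · rw [Finsupp.notMem_support_iff.mp hk2, sub_zero]
      by_cases hk1 : k ∈ l1.support
      · have h1 : γ k = γ j := hl1 (Finset.mem_coe.mpr hk1)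
        rw [h1]
        ring
      · rw [Finsupp.notMem_support_iff.mp hk1]
        ring
  have hfin := hprod T
  rw [Finset.sum_congr rfl hterm, ← Finset.smul_sum, hsum1] at hfin
  exact (smul_ne_zero hκ hw0) hfin

/-- the functional `M ↦ ∑ μ i ⟪c i, Mᵀ u i⟫` -/
noncomputable def Fun {J : Type} (s : Finset J) (μ : J → ℝ) (c u : J → Space n) :
    Matrix (Fin n) (Fin n) ℝ →ₗ[ℝ] ℝ where
  toFun M := ∑ i ∈ s, μ i * ⟪c i, move M.transpose 0 (u i)⟫
  map_add' M N := by
    rw [← Finset.sum_add_distrib]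
    refine Finset.sum_congr rfl fun i _ => ?_
    have h1 : move (M + N).transpose 0 (u i) = move M.transpose 0 (u i) + move N.transpose 0 (u i) := by
      unfold move
      rw [Matrix.transpose_add, Matrix.add_mulVec, add_zero, add_zero, add_zero, WithLp.toLp_add]
    rw [h1, inner_add_right, mul_add]
  map_smul' a M := by
    rw [RingHom.id_apply, smul_eq_mul, Finset.mul_sum]
    refine Finset.sum_congr rfl fun i _ => ?_
    have h1 : move (a • M).transpose 0 (u i) = a • move M.transpose 0 (u i) := by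
      unfold move
      rw [Matrix.transpose_smul, Matrix.smul_mulVec, add_zero, add_zero, WithLp.toLp_smul]
    rw [h1, inner_smul_right]
    ring

theorem Fun_apply {J : Type} (s : Finset J) (μ : J → ℝ) (c u : J → Space n) (M : Matrix (Fin n) (Fin n) ℝ) :
    Fun s μ c u M = ∑ i ∈ s, μ i * ⟪c i, move M.transpose 0 (u i)⟫ := rfl

theorem move_vecMulVec (x y z : Space n) :
    move (Matrix.vecMulVec y.ofLp x.ofLp).transpose 0 z = ⟪y, z⟫ • x := by
  unfold move
  rw [add_zero, Matrix.transpose_vecMulVec]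
  ext k
  simp only [Matrix.vecMulVec_mulVec, PiLp.smul_apply, PiLp.inner_apply, smul_eq_mul, Pi.smul_apply]
  simp [dotProduct, mul_comm]

theorem common_centre (hn : 3 ≤ n) {J : Type} {u : J → Space n} (hind : Indec u) {b : J → ℝ}
    {K : Set (Space n)} (hK : IsCompact K) (hne : K.Nonempty)
    {V : Set (Matrix.specialOrthogonalGroup (Fin n) ℝ)} (hV : IsOpen V) (hVn : V.Nonempty)
    (hrot : ∀ A ∈ V, Touches u b K (A : Matrix (Fin n) (Fin n) ℝ)) {c : J → Space n} {r : J → ℝ}
    (hc : ∀ A ∈ V, ∀ j, supp K (move (A : Matrix (Fin n) (Fin n) ℝ).transpose 0 (u j)) =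
      ⟪c j, move (A : Matrix (Fin n) (Fin n) ℝ).transpose 0 (u j)⟫ + r j) (i j : J) : c i = c j := by
  have key : ∀ x : Space n, ⟪c i, x⟫ = ⟪c j, x⟫ := by
    intro x
    refine const_of_mul hind (γ := fun k => ⟪c k, x⟫) ?_ i j
    intro s μ hμ
    have h0 : Fun s μ c u = 0 := by
      refine lin_so hn (κ := ∑ k ∈ s, μ k * (b k - r k)) hV hVn ?_
      intro A hA
      obtain ⟨t, ht⟩ := touch_supp hK hne A.2 (hrot A hA)
      rw [Fun_apply]
      have h1 : ∀ k ∈ s, μ k * ⟪c k, move (A : Matrix (Fin n) (Fin n) ℝ).transpose 0 (u k)⟫ =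
          μ k * (b k - r k) - ⟪μ k • u k, t⟫ := by
        intro k _
        have h2 := ht k
        rw [hc A hA k] at h2
        rw [inner_smul_left]
        simp only [conj_trivial]
        have h3 : ⟪c k, move (A : Matrix (Fin n) (Fin n) ℝ).transpose 0 (u k)⟫ = b k - ⟪u k, t⟫ - r k := by linarith
        rw [h3]
        ring
      rw [Finset.sum_congr rfl h1, Finset.sum_sub_distrib, ← sum_inner, hμ, inner_zero_left, sub_zero]
    refine ext_inner_left ℝ fun y => ?_
    rw [inner_zero_right, inner_sum]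
    have h1 : Fun s μ c u (Matrix.vecMulVec y.ofLp x.ofLp) = 0 := by rw [h0]; rfl
    rw [Fun_apply] at h1
    rw [← h1]
    refine Finset.sum_congr rfl fun k _ => ?_
    rw [move_vecMulVec, inner_smul_right, inner_smul_right]
    ring
  exact ext_inner_right ℝ key

theorem dep_of_indec {J : Type} {u : J → Space n} (hind : Indec u) (hpar : ∃ i j, u i ≠ u j ∧ u i ≠ -u j) (j : J)
    (hj : u j ≠ 0) : Dep u j := by
  have hex : ∃ i, u i ≠ u j ∧ u i ≠ -u j := by
    by_contra hcon
    push Not at hcon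
    obtain ⟨i1, i2, h1, h2⟩ := hpar
    have e1 : u i1 = u j ∨ u i1 = -u j := by
      by_cases h : u i1 = u j
      · exact Or.inl h
      · exact Or.inr (hcon i1 h)
    have e2 : u i2 = u j ∨ u i2 = -u j := by
      by_cases h : u i2 = u j
      · exact Or.inl h
      · exact Or.inr (hcon i2 h)
    rcases e1 with e1 | e1 <;> rcases e2 with e2 | e2
    · exact h1 (e1.trans e2.symm)
    · exact h2 (by rw [e1, e2, neg_neg])
    · exact h2 (by rw [e1, e2])
    · exact h1 (e1.trans e2.symm)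
  obtain ⟨i, hi⟩ := hex
  obtain ⟨w, hw0, hw1, hw2⟩ := hind {k | u k = u j ∨ u k = -u j} ⟨j, Or.inl rfl⟩
    ⟨i, fun h => by
      rcases h with h | h
      · exact hi.1 h
      · exact hi.2 h⟩
  have h1 : w ∈ Submodule.span ℝ {u j} := by
    refine Submodule.span_le.mpr ?_ hw1
    rintro x ⟨k, hk, rfl⟩
    rcases hk with hk | hk
    · rw [hk]
      exact Submodule.mem_span_singleton_self _
    · rw [hk]
      exact Submodule.neg_mem _ (Submodule.mem_span_singleton_self _)
  rw [Submodule.mem_span_singleton] at h1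
  obtain ⟨a, rfl⟩ := h1
  have ha : a ≠ 0 := by
    rintro rfl
    exact hw0 (zero_smul _ _)
  have h2 : u j = a⁻¹ • (a • u j) := by rw [smul_smul, inv_mul_cancel₀ ha, one_smul]
  unfold Dep
  rw [h2]
  refine Submodule.smul_mem _ _ ?_
  refine Submodule.span_mono ?_ hw2
  rintro x ⟨k, hk, rfl⟩
  refine ⟨⟨k, rfl⟩, fun h => hk (Or.inl ?_), fun h => hk (Or.inr ?_)⟩
  · rw [h, smul_smul, inv_mul_cancel₀ ha, one_smul]
  · rw [h, smul_smul, inv_mul_cancel₀ ha, one_smul]

theorem local_classification (hn : 3 ≤ n) {J : Type} {u : J → Space n} (hu : ∀ j, ‖u j‖ = 1) {b : J → ℝ}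
    {v : Space n} (hv : v ≠ 0) (huv : ∀ j, ⟪u j, v⟫ = 0) (hpar : ∃ i j, u i ≠ u j ∧ u i ≠ -u j) (hind : Indec u)
    {K : Set (Space n)} (hK : IsCompact K) (hne : K.Nonempty)
    {V : Set (Matrix.specialOrthogonalGroup (Fin n) ℝ)} (hV : IsOpen V) (hVc : IsConnected V) :
    (∀ A ∈ V, Touches u b K (A : Matrix (Fin n) (Fin n) ℝ)) ↔
    ∃ (c z : Space n) (r : J → ℝ), (∀ j, 0 ≤ r j ∧ ⟪u j, z⟫ = b j - r j) ∧ ∀ A ∈ V, ∀ j,
      c + r j • move (A : Matrix (Fin n) (Fin n) ℝ).transpose 0 (u j) ∈ K ∧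
      ∀ x ∈ K, x ≠ c + r j • move (A : Matrix (Fin n) (Fin n) ℝ).transpose 0 (u j) →
        ⟪x - c, move (A : Matrix (Fin n) (Fin n) ℝ).transpose 0 (u j)⟫ < r j := by
  constructor
  · intro hrot
    have h1 : ∀ j, ∃ (c : Space n) (r : ℝ), 0 ≤ r ∧ ∀ A ∈ V,
        c + r • move (A : Matrix (Fin n) (Fin n) ℝ).transpose 0 (u j) ∈ K ∧
        ∀ x ∈ K, x ≠ c + r • move (A : Matrix (Fin n) (Fin n) ℝ).transpose 0 (u j) →
          ⟪x - c, move (A : Matrix (Fin n) (Fin n) ℝ).transpose 0 (u j)⟫ < r := by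
      intro j
      refine connected_rigidity hn hu hv huv hK hne hV hVc.isPreconnected hrot (dep_of_indec hind hpar j ?_)
      intro h
      have h2 := hu j
      rw [h, norm_zero] at h2
      exact zero_ne_one h2
    choose c r hr hcr using h1
    have hsupp : ∀ A ∈ V, ∀ j, supp K (move (A : Matrix (Fin n) (Fin n) ℝ).transpose 0 (u j)) =
        ⟪c j, move (A : Matrix (Fin n) (Fin n) ℝ).transpose 0 (u j)⟫ + r j := by
      intro A hA j
      obtain ⟨g, -, -, hg⟩ := rot_of_mat A.2
      have hnorm : ‖move (A : Matrix (Fin n) (Fin n) ℝ).transpose 0 (u j)‖ = 1 := by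
        rw [hg, LinearIsometryEquiv.norm_map, hu]
      obtain ⟨h2, h3⟩ := hcr j A hA
      refine supp_eq hK hne (fun x hx => ?_) ⟨_, h2, ?_⟩
      · by_cases hx' : x = c j + r j • move (A : Matrix (Fin n) (Fin n) ℝ).transpose 0 (u j)
        · rw [hx', inner_add_left, inner_smul_left, real_inner_self_eq_norm_sq, hnorm]
          simp
        · have h4 := h3 x hx hx'
          rw [inner_sub_left] at h4
          linarith
      · rw [inner_add_left, inner_smul_left, real_inner_self_eq_norm_sq, hnorm]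
        simp
    have hcc : ∀ i j, c i = c j := fun i j =>
      common_centre hn hind hK hne hV hVc.nonempty hrot hsupp i j
    obtain ⟨j0, -⟩ := hpar
    obtain ⟨A0, hA0⟩ := hVc.nonempty
    obtain ⟨t, ht⟩ := touch_supp hK hne A0.2 (hrot A0 hA0)
    obtain ⟨g, -, -, hg⟩ := rot_of_mat A0.2
    refine ⟨c j0, t + g (c j0), r, fun j => ⟨hr j, ?_⟩, fun A hA j => ?_⟩
    · have h2 := ht j
      rw [hsupp A0 hA0 j, hcc j j0, hg] at h2
      have h3 : ⟪c j0, g.symm (u j)⟫ = ⟪u j, g (c j0)⟫ := by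
        rw [← LinearIsometryEquiv.inner_map_map g, LinearIsometryEquiv.apply_symm_apply, real_inner_comm]
      rw [h3] at h2
      rw [inner_add_right]
      linarith
    · have h2 := hcr j A hA
      rw [hcc j j0] at h2
      exact h2
  · rintro ⟨c, z, r, hz, hcr⟩ A hA
    obtain ⟨g, -, hg1, hg2⟩ := rot_of_mat A.2
    have key : ∀ (j : J) (x : Space n), ⟪u j, move (A : Matrix (Fin n) (Fin n) ℝ) (z - g c) x⟫ =
        ⟪x - c, move (A : Matrix (Fin n) (Fin n) ℝ).transpose 0 (u j)⟫ + (b j - r j) := by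
      intro j x
      rw [hg1, hg2, ← (hz j).2]
      have h2 : ⟪x - c, g.symm (u j)⟫ = ⟪u j, g (x - c)⟫ := by
        rw [← LinearIsometryEquiv.inner_map_map g, LinearIsometryEquiv.apply_symm_apply, real_inner_comm]
      rw [h2, ← inner_add_right, map_sub]
      congr 1
      abel
    refine ⟨z - g c, fun j => ?_⟩
    obtain ⟨h1, h2⟩ := hcr A hA j
    have hnorm : ‖move (A : Matrix (Fin n) (Fin n) ℝ).transpose 0 (u j)‖ = 1 := by
      rw [hg2, LinearIsometryEquiv.norm_map, hu]
    have hval : ⟪c + r j • move (A : Matrix (Fin n) (Fin n) ℝ).transpose 0 (u j) - c,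
        move (A : Matrix (Fin n) (Fin n) ℝ).transpose 0 (u j)⟫ = r j := by
      rw [add_sub_cancel_left, inner_smul_left, real_inner_self_eq_norm_sq, hnorm]
      simp
    refine ⟨fun x hx => ?_, _, h1, ?_⟩
    · rw [key]
      by_cases hx' : x = c + r j • move (A : Matrix (Fin n) (Fin n) ℝ).transpose 0 (u j)
      · rw [hx', hval]
        linarith
      · have h3 := h2 x hx hx'
        linarith
    · rw [key, hval]
      ring

end Pool.Agent.H34.RT
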