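import Pool.Agent.H34.RT.Diff
import Pool.Agent.H34.RT.Grad

/-!
# GForm : the form of the gradient

Let `η` be the number of `Q h p q` (take it `≤ 1/10`), `ξ > 0` small (`ξ ≤ η / 100`). By `near_diff` (with `P = ⊥`) choose unit points of
differentiability `y1` close to `‖p + ξ q‖⁻¹ (p + ξ q)` and `y2` close to `‖p - ξ q‖⁻¹ (p - ξ q)`; they are linearly independent, close to `p`, and
`(y1 - y2) / ‖y1 - y2‖` is close to `q`. For `y` with `‖y - p‖ < η' = ξ²` also `(y1 - y) / ‖y1 - y‖` and `(y - y2) / ‖y - y2‖` are close to `q`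
(`y1 - y = ξ q + O(ξ²)`, `y - y2 = ξ q + O(ξ²)`). `G = gradient h`. `Q` gives `G y1 - G y2 = λ y1 + μ y2`, and for `y ∉ P = span {y1, y2}` of
differentiability `G y1 - G y = β y1 + α y`, `G y - G y2 = α' y + β' y2`. Adding, and since `y1, y2, y` are linearly independent,
`β = λ`, so `G y = V - α y` with `V = G y1 - λ y1`, which does not depend on `y`. `grad_self` : `h y = ⟪G y, y⟫ = ⟪V, y⟫ - α`.
`P ≠ ⊤` since its dimension is at most `2 < n`.
-/

set_option autoImplicit false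

open scoped RealInnerProductSpace

namespace Pool.Agent.H34.RT

variable {n : ℕ}

/-- direction of a vector close to `κ q` -/
private theorem dir_close {z q e : Space n} {κ : ℝ} (hκ : 0 < κ) (hq : ‖q‖ = 1) (hz : z = κ • q + e) (he : ‖e‖ < κ) :
    z ≠ 0 ∧ ‖‖z‖⁻¹ • z - q‖ ≤ 2 * ‖e‖ / κ := by
  have h1 : ‖κ • q‖ = κ := by rw [norm_smul, hq, mul_one, Real.norm_of_nonneg hκ.le]
  have h2 : |‖z‖ - κ| ≤ ‖e‖ := by
    have h3 := abs_norm_sub_norm_le z (κ • q)
    rw [h1, hz, add_sub_cancel_left] at h3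
    rw [hz]
    exact h3
  have h4 : 0 < ‖z‖ := by
    have := (abs_le.mp h2).1
    linarith
  have hz0 : z ≠ 0 := norm_pos_iff.mp h4
  refine ⟨hz0, ?_⟩
  have h5 : ‖z‖⁻¹ • z - q = (‖z‖⁻¹ - κ⁻¹) • z + κ⁻¹ • e := by
    have h6 : κ⁻¹ • z = q + κ⁻¹ • e := by
      rw [hz, smul_add, smul_smul, inv_mul_cancel₀ hκ.ne', one_smul]
    rw [sub_smul, h6]
    abel
  have h7 : ‖(‖z‖⁻¹ - κ⁻¹) • z‖ ≤ ‖e‖ / κ := by
    rw [norm_smul, Real.norm_eq_abs]
    have h8 : (‖z‖⁻¹ - κ⁻¹) * ‖z‖ = (κ - ‖z‖) / κ := by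
      field_simp
    have h9 : |‖z‖⁻¹ - κ⁻¹| * ‖z‖ = |κ - ‖z‖| / κ := by
      rw [← abs_of_pos h4, ← abs_mul, abs_of_pos h4, h8, abs_div, abs_of_pos hκ]
    rw [h9, abs_sub_comm]
    exact div_le_div_of_nonneg_right h2 hκ.le
  have h8 : ‖κ⁻¹ • e‖ = ‖e‖ / κ := by
    rw [norm_smul, norm_inv, Real.norm_of_nonneg hκ.le]
    ring
  rw [h5]
  refine (norm_add_le _ _).trans ?_
  rw [h8]
  have : 2 * ‖e‖ / κ = ‖e‖ / κ + ‖e‖ / κ := by ring
  linarith

private theorem mem_pair {x a b : Space n} (h : x ∈ Submodule.span ℝ {a, b}) : ∃ s t : ℝ, x = s • a + t • b := by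
  obtain ⟨s, t, h1⟩ := Submodule.mem_span_pair.mp h
  exact ⟨s, t, h1.symm⟩

theorem grad_form (hn : 3 ≤ n) {h : Space n → ℝ} (hh : Sup h) {p q : Space n} (hp : ‖p‖ = 1) (hq : ‖q‖ = 1)
    (hpq : ⟪p, q⟫ = 0) (hQ : Q h p q) :
    ∃ (V : Space n) (η : ℝ) (P : Submodule ℝ (Space n)), 0 < η ∧ P ≠ ⊤ ∧
      ∀ y, y ∉ P → ‖y‖ = 1 → ‖y - p‖ < η → DifferentiableAt ℝ h y →
        gradient h y = V + (h y - ⟪V, y⟫) • y := by
  obtain ⟨η, hη, hQ⟩ := hQ
  set ξ : ℝ := min η 1 / 20 with hξ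
  have hm0 : 0 < min η 1 := lt_min hη one_pos
  have hξ0 : 0 < ξ := by positivity
  have hξη : 20 * ξ ≤ η := by
    rw [hξ]
    linarith [min_le_left η 1]
  have hξ1 : 20 * ξ ≤ 1 := by
    rw [hξ]
    linarith [min_le_right η 1]
  have hξ2 : ξ ^ 2 ≤ ξ / 20 := by nlinarith
  have hξ2' : 0 < ξ ^ 2 := by positivity
  -- the two base points on the circle
  set s : ℝ := Real.sqrt (1 + ξ ^ 2) with hs
  have hs2 : s ^ 2 = 1 + ξ ^ 2 := Real.sq_sqrt (by positivity)
  have hs0 : 0 < s := Real.sqrt_pos.mpr (by positivity)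
  have hs1 : 1 ≤ s := by nlinarith
  have hs3 : s ≤ 1 + ξ ^ 2 / 2 := by nlinarith [sq_nonneg (ξ ^ 2)]
  have hs4 : s ≤ 2 := by nlinarith
  have hsi : 1 - ξ ^ 2 / 2 ≤ s⁻¹ := by
    rw [← one_div, le_div_iff₀ hs0]
    nlinarith
  have hsi1 : s⁻¹ ≤ 1 := inv_le_one_of_one_le₀ hs1
  have hsi2 : 1 / 2 ≤ s⁻¹ := by
    rw [one_div]
    exact inv_anti₀ hs0 hs4
  have hpn : ∀ τ : ℝ, τ ^ 2 = 1 → ‖s⁻¹ • (p + (τ * ξ) • q)‖ = 1 := by
    intro τ hτ
    have h1 : ‖p + (τ * ξ) • q‖ ^ 2 = s ^ 2 := by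
      rw [norm_add_sq_real, inner_smul_right, hpq, norm_smul, hp, hq, hs2, mul_one, Real.norm_eq_abs, sq_abs, mul_pow, hτ]
      ring
    have h2 : ‖p + (τ * ξ) • q‖ = s := by
      rwa [sq_eq_sq₀ (norm_nonneg _) hs0.le] at h1
    rw [norm_smul, h2, norm_inv, Real.norm_of_nonneg hs0.le, inv_mul_cancel₀ hs0.ne']
  have hpk : ∀ τ : ℝ, s⁻¹ • (p + (τ * ξ) • q) - p = (τ * (ξ * s⁻¹)) • q + (s⁻¹ - 1) • p := by
    intro τ
    module
  have hbot : (⊥ : Submodule ℝ (Space n)) ≠ ⊤ := by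
    intro hb
    have h1 : p ∈ (⊥ : Submodule ℝ (Space n)) := by rw [hb]; trivial
    rw [Submodule.mem_bot] at h1
    rw [h1, norm_zero] at hp
    exact zero_ne_one hp
  obtain ⟨y1, hy1U, -, hy1, hd1⟩ := near_diff hh hbot (hpn 1 (by norm_num)) (U := Metric.ball (s⁻¹ • (p + ((1 : ℝ) * ξ) • q)) (ξ ^ 2))
    Metric.isOpen_ball (Metric.mem_ball_self hξ2')
  obtain ⟨y2, hy2U, -, hy2, hd2⟩ := near_diff hh hbot (hpn (-1) (by norm_num)) (U := Metric.ball (s⁻¹ • (p + ((-1 : ℝ) * ξ) • q)) (ξ ^ 2))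
    Metric.isOpen_ball (Metric.mem_ball_self hξ2')
  rw [Metric.mem_ball, dist_eq_norm] at hy1U hy2U
  have hpm : ‖(s⁻¹ - 1) • p‖ ≤ ξ ^ 2 / 2 := by
    rw [norm_smul, hp, mul_one, Real.norm_eq_abs, abs_le]
    constructor <;> linarith
  have hqk : ‖(ξ * s⁻¹) • q‖ ≤ ξ := by
    rw [norm_smul, hq, mul_one, Real.norm_of_nonneg (by positivity)]
    nlinarith
  -- decompositions
  obtain ⟨e1, he1, he1n⟩ : ∃ e : Space n, y1 - p = (ξ * s⁻¹) • q + e ∧ ‖e‖ < 3 / 2 * ξ ^ 2 := by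
    refine ⟨(y1 - s⁻¹ • (p + ((1 : ℝ) * ξ) • q)) + (s⁻¹ - 1) • p, ?_, ?_⟩
    · have := hpk 1
      rw [show y1 - p = (y1 - s⁻¹ • (p + ((1 : ℝ) * ξ) • q)) + (s⁻¹ • (p + ((1 : ℝ) * ξ) • q) - p) by abel, this]
      module
    · refine (norm_add_le _ _).trans_lt ?_
      linarith
  obtain ⟨e2, he2, he2n⟩ : ∃ e : Space n, p - y2 = (ξ * s⁻¹) • q + e ∧ ‖e‖ < 3 / 2 * ξ ^ 2 := by
    refine ⟨-((y2 - s⁻¹ • (p + ((-1 : ℝ) * ξ) • q)) + (s⁻¹ - 1) • p), ?_, ?_⟩
    · have := hpk (-1)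
      rw [show p - y2 = -(y2 - s⁻¹ • (p + ((-1 : ℝ) * ξ) • q)) - (s⁻¹ • (p + ((-1 : ℝ) * ξ) • q) - p) by abel, this]
      module
    · rw [norm_neg]
      refine (norm_add_le _ _).trans_lt ?_
      linarith
  have hy1p : ‖y1 - p‖ < η := by
    rw [he1]
    refine (norm_add_le _ _).trans_lt ?_
    linarith
  have hy2p : ‖y2 - p‖ < η := by
    rw [norm_sub_rev, he2]
    refine (norm_add_le _ _).trans_lt ?_
    linarith
  have hk0 : 0 < ξ * s⁻¹ := by positivity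
  have hk1 : ξ / 2 ≤ ξ * s⁻¹ := by nlinarith
  -- the pair y1, y2
  have hd12 : y1 - y2 = (2 * (ξ * s⁻¹)) • q + (e1 + e2) := by
    rw [show y1 - y2 = (y1 - p) + (p - y2) by abel, he1, he2]
    module
  have he12 : ‖e1 + e2‖ < 3 * ξ ^ 2 := (norm_add_le _ _).trans_lt (by linarith)
  obtain ⟨h12, h12q⟩ := dir_close (by positivity) hq hd12 (by linarith)
  have h12' : y1 ≠ y2 := sub_ne_zero.mp h12
  have h12q' : ‖‖y1 - y2‖⁻¹ • (y1 - y2) - q‖ < η := by
    refine h12q.trans_lt ?_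
    rw [div_lt_iff₀ (by positivity)]
    nlinarith
  obtain ⟨lam, mu, hlm⟩ := mem_pair (hQ y1 y2 hy1 hy2 hy1p hy2p h12' h12q' hd1 hd2)
  -- independence
  have hsum : y1 + y2 ≠ 0 := by
    intro h0
    have h1 : (2 : ℝ) • p = -((y1 - p) - (p - y2)) := by
      have : y1 = -y2 := by rwa [add_eq_zero_iff_eq_neg] at h0
      rw [this]
      module
    have h2 : ‖(2 : ℝ) • p‖ = 2 := by rw [norm_smul, hp]; norm_num
    rw [h1, he1, he2, norm_neg] at h2
    have h3 : (ξ * s⁻¹) • q + e1 - ((ξ * s⁻¹) • q + e2) = e1 - e2 := by abel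
    rw [h3] at h2
    have h4 := norm_sub_le e1 e2
    nlinarith
  have hind : ∀ a b : ℝ, a • y1 + b • y2 = 0 → a = 0 ∧ b = 0 := by
    intro a b hab
    have h1 : a • y1 = -(b • y2) := by rwa [add_eq_zero_iff_eq_neg] at hab
    have h2 : |a| = |b| := by
      have := congrArg norm h1
      rwa [norm_neg, norm_smul, norm_smul, hy1, hy2, mul_one, mul_one, Real.norm_eq_abs, Real.norm_eq_abs] at this
    rcases abs_eq_abs.mp h2 with h3 | h3
    · rw [h3, ← smul_add] at hab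
      rcases smul_eq_zero.mp hab with h4 | h4
      · exact ⟨by rw [h3, h4], h4⟩
      · exact absurd h4 hsum
    · rw [h3, neg_smul, neg_add_eq_zero] at hab
      have h5 : b • (y1 - y2) = 0 := by rw [smul_sub, hab, sub_self]
      rcases smul_eq_zero.mp h5 with h4 | h4
      · exact ⟨by rw [h3, h4, neg_zero], h4⟩
      · exact absurd h4 h12
  refine ⟨gradient h y1 - lam • y1, ξ ^ 2, Submodule.span ℝ {y1, y2}, hξ2', ?_, ?_⟩
  · intro htop
    have h1 : Module.finrank ℝ (Submodule.span ℝ ({y1, y2} : Set (Space n))) ≤ 2 := by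
      classical
      have h2 := finrank_span_finset_le_card (R := ℝ) ({y1, y2} : Finset (Space n))
      rw [Finset.coe_insert, Finset.coe_singleton] at h2
      exact h2.trans Finset.card_le_two
    rw [htop, finrank_top, finrank_euclideanSpace, Fintype.card_fin] at h1
    omega
  · intro y hyP hy hyp hd
    have hypη : ‖y - p‖ < η := by linarith
    -- the pair y1, y
    have hd1y : y1 - y = (ξ * s⁻¹) • q + (e1 - (y - p)) := by
      rw [show y1 - y = (y1 - p) - (y - p) by abel, he1]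
      abel
    have he1y : ‖e1 - (y - p)‖ < 5 / 2 * ξ ^ 2 := (norm_sub_le _ _).trans_lt (by linarith)
    obtain ⟨h1y, h1yq⟩ := dir_close hk0 hq hd1y (by linarith)
    have h1yq' : ‖‖y1 - y‖⁻¹ • (y1 - y) - q‖ < η := by
      refine h1yq.trans_lt ?_
      rw [div_lt_iff₀ hk0]
      nlinarith
    -- the pair y, y2
    have hdy2 : y - y2 = (ξ * s⁻¹) • q + (e2 + (y - p)) := by
      rw [show y - y2 = (y - p) + (p - y2) by abel, he2]
      abel
    have hey2 : ‖e2 + (y - p)‖ < 5 / 2 * ξ ^ 2 := (norm_add_le _ _).trans_lt (by linarith)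
    obtain ⟨hy2', hy2q⟩ := dir_close hk0 hq hdy2 (by linarith)
    have hy2q' : ‖‖y - y2‖⁻¹ • (y - y2) - q‖ < η := by
      refine hy2q.trans_lt ?_
      rw [div_lt_iff₀ hk0]
      nlinarith
    obtain ⟨β, α, h3⟩ := mem_pair (hQ y1 y hy1 hy hy1p hypη (sub_ne_zero.mp h1y) h1yq' hd1 hd)
    obtain ⟨α', β', h4⟩ := mem_pair (hQ y y2 hy hy2 hypη hy2p (sub_ne_zero.mp hy2') hy2q' hd hd2)
    have h5 : (β - lam) • y1 + (β' - mu) • y2 + (α + α') • y = 0 := by
      have h6 : gradient h y1 - gradient h y2 = (gradient h y1 - gradient h y) + (gradient h y - gradient h y2) := by abel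
      rw [hlm, h3, h4] at h6
      have h7 : (β - lam) • y1 + (β' - mu) • y2 + (α + α') • y =
          (β • y1 + α • y + (α' • y + β' • y2)) - (lam • y1 + mu • y2) := by module
      rw [h7, ← h6, sub_self]
    have hα : α + α' = 0 := by
      by_contra hne
      apply hyP
      have h8 : y = (-(α + α')⁻¹ * (β - lam)) • y1 + (-(α + α')⁻¹ * (β' - mu)) • y2 := by
        have h9 : (α + α') • y = -((β - lam) • y1 + (β' - mu) • y2) := by
          rw [add_comm] at h5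
          exact eq_neg_of_add_eq_zero_left h5
        calc y = (α + α')⁻¹ • ((α + α') • y) := by rw [smul_smul, inv_mul_cancel₀ hne, one_smul]
          _ = _ := by
            rw [h9]
            module
      rw [h8]
      exact Submodule.mem_span_pair.mpr ⟨_, _, rfl⟩
    rw [hα, zero_smul, add_zero] at h5
    have hβ : β = lam := by
      have := (hind _ _ h5).1
      linarith
    have hGy : gradient h y = gradient h y1 - lam • y1 - α • y := by
      have : gradient h y = gradient h y1 - (gradient h y1 - gradient h y) := by abel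
      rw [this, h3, hβ]
      abel
    have hself := grad_self hh hd
    rw [hGy, inner_sub_left, inner_smul_left, real_inner_self_eq_norm_sq, hy] at hself
    simp only [conj_trivial, one_pow, mul_one] at hself
    have hk : h y - ⟪gradient h y1 - lam • y1, y⟫ = -α := by linarith
    rw [hk, hGy, neg_smul]
    abel

end Pool.Agent.H34.RT
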