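import Pool.Agent.H34.RT.Loc

/-!
# Glob : rotors for all orientations are balls

By `loc_lin` with `V = univ` and `exists_rot_vec` every unit vector `y` has a neighbourhood in the unit sphere where
`supp K x = ⟪c y, x⟫ + r y`. The pair `(c y, r y)` is locally constant (`lin_unique`: two such representations on a small part of the sphere
coincide: if `⟪d, x⟫ = s` for all unit `x` close to `y` then `d = 0`, `s = 0`, as `n ≥ 2`), and the sphere is connected
(`isPreconnected_sphere`, `1 < n`), so it is constant; `eq_closedBall`. `r > 0` since the interior is not empty.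
-/

set_option autoImplicit false

open scoped RealInnerProductSpace

namespace Pool.Agent.H34.RT

variable {n : ℕ}

/-- a unit vector orthogonal to `y` -/
private theorem Glob_orth (hn : 2 ≤ n) {y : Space n} (hy : ‖y‖ = 1) :
    ∃ w : Space n, ‖w‖ = 1 ∧ ⟪y, w⟫ = 0 := by
  obtain ⟨c, hc, hc0⟩ : ∃ c ∈ ((ℝ ∙ y)ᗮ : Submodule ℝ (Space n)), c ≠ 0 := by
    apply Submodule.exists_mem_ne_zero_of_ne_bot
    intro hbot
    rw [Submodule.orthogonal_eq_bot_iff] at hbot
    have h1 : Module.finrank ℝ (ℝ ∙ y : Submodule ℝ (Space n)) = n := by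
      rw [hbot, finrank_top, finrank_euclideanSpace_fin]
    have hy0 : y ≠ 0 := by
      rintro rfl
      rw [norm_zero] at hy
      exact zero_ne_one hy
    rw [finrank_span_singleton hy0] at h1
    omega
  rw [Submodule.mem_orthogonal_singleton_iff_inner_right] at hc
  have hn0 : ‖c‖ ≠ 0 := norm_ne_zero_iff.2 hc0
  refine ⟨‖c‖⁻¹ • c, ?_, ?_⟩
  · rw [norm_smul, norm_inv, norm_norm, inv_mul_cancel₀ hn0]
  · rw [inner_smul_right, hc, mul_zero]

/-- the inner products with `y` and with a unit vector orthogonal to `y` vanish -/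
private theorem Glob_two {y d w : Space n} {s η : ℝ} (hη : 0 < η) (hy : ‖y‖ = 1) (hw : ‖w‖ = 1)
    (hyw : ⟪y, w⟫ = 0) (h : ∀ x : Space n, ‖x‖ = 1 → ‖x - y‖ < η → ⟪d, x⟫ = s) :
    ⟪d, y⟫ = 0 ∧ ⟪d, w⟫ = 0 := by
  have hunit : ∀ t : ℝ, ‖Real.cos t • y + Real.sin t • w‖ = 1 := by
    intro t
    have h1 : ‖Real.cos t • y + Real.sin t • w‖ ^ 2 = 1 := by
      rw [norm_add_sq_real, norm_smul, norm_smul, inner_smul_left, inner_smul_right, hyw, hy, hw]
      simp [Real.norm_eq_abs, sq_abs]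
    have h2 : 0 ≤ ‖Real.cos t • y + Real.sin t • w‖ := norm_nonneg _
    nlinarith
  have hcont : Continuous fun t : ℝ => ‖(Real.cos t • y + Real.sin t • w) - y‖ := by fun_prop
  have h0 : ‖(Real.cos 0 • y + Real.sin 0 • w) - y‖ < η := by
    simp [hη]
  have hev : ∀ᶠ t : ℝ in nhds 0, ‖(Real.cos t • y + Real.sin t • w) - y‖ < η :=
    hcont.continuousAt.eventually_lt continuousAt_const h0
  obtain ⟨ε, hε, hball⟩ := Metric.eventually_nhds_iff.1 hev
  have hgen : ∀ t : ℝ, |t| < ε → Real.cos t * ⟪d, y⟫ + Real.sin t * ⟪d, w⟫ = s := by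
    intro t ht
    have h1 := h _ (hunit t) (hball (by rwa [Real.dist_eq, sub_zero]))
    rw [inner_add_right, inner_smul_right, inner_smul_right] at h1
    exact h1
  obtain ⟨t, ht0, htε, ht1⟩ : ∃ t : ℝ, 0 < t ∧ t < ε ∧ t < 1 := by
    refine ⟨min ε 1 / 2, by positivity, ?_, ?_⟩
    · have := min_le_left ε 1
      have : 0 < min ε 1 := by positivity
      linarith
    · have := min_le_right ε 1
      have : 0 < min ε 1 := by positivity
      linarith
  have e0 := hgen 0 (by simpa using hε)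
  have e1 := hgen t (by rwa [abs_of_pos ht0])
  have e2 := hgen (-t) (by rwa [abs_neg, abs_of_pos ht0])
  rw [Real.cos_neg, Real.sin_neg] at e2
  rw [Real.cos_zero, Real.sin_zero] at e0
  have hsin : 0 < Real.sin t := Real.sin_pos_of_pos_of_lt_pi ht0 (by linarith [Real.pi_gt_three])
  have hcos : Real.cos t ≠ 1 := by
    intro hc
    have := Real.sin_sq_add_cos_sq t
    rw [hc] at this
    nlinarith
  have h3 : (Real.cos t - 1) * ⟪d, y⟫ = 0 := by linarith
  have h4 : ⟪d, y⟫ = 0 := (mul_eq_zero.1 h3).resolve_left (sub_ne_zero.2 hcos)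
  refine ⟨h4, ?_⟩
  have h5 : Real.sin t * ⟪d, w⟫ = 0 := by linarith
  exact (mul_eq_zero.1 h5).resolve_left hsin.ne'

theorem lin_unique (hn : 2 ≤ n) {y d : Space n} {s η : ℝ} (hη : 0 < η) (hy : ‖y‖ = 1)
    (h : ∀ x : Space n, ‖x‖ = 1 → ‖x - y‖ < η → ⟪d, x⟫ = s) : d = 0 ∧ s = 0 := by
  obtain ⟨w, hw, hyw⟩ := Glob_orth hn hy
  have h1 := (Glob_two hη hy hw hyw h).1
  have hd : d = 0 := by
    by_contra hd
    have hn0 : ‖d‖ ≠ 0 := norm_ne_zero_iff.2 hd
    have h2 : ‖‖d‖⁻¹ • d‖ = 1 := by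
      rw [norm_smul, norm_inv, norm_norm, inv_mul_cancel₀ hn0]
    have h3 : ⟪y, ‖d‖⁻¹ • d⟫ = 0 := by
      rw [inner_smul_right, real_inner_comm, h1, mul_zero]
    have h4 := (Glob_two hη hy h2 h3 h).2
    rw [inner_smul_right, real_inner_self_eq_norm_sq] at h4
    have h5 : ‖d‖⁻¹ * ‖d‖ ^ 2 = ‖d‖ := by field_simp
    rw [h5] at h4
    exact hn0 h4
  refine ⟨hd, ?_⟩
  have h2 := h y hy (by rw [sub_self, norm_zero]; exact hη)
  rw [hd, inner_zero_left] at h2
  exact h2.symm

theorem glue (hn : 2 ≤ n) {h : Space n → ℝ} (hloc : ∀ y : Space n, ‖y‖ = 1 → ∃ (c : Space n) (r η : ℝ), 0 < η ∧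
    ∀ x : Space n, ‖x‖ = 1 → ‖x - y‖ < η → h x = ⟪c, x⟫ + r) :
    ∃ (c : Space n) (r : ℝ), ∀ x : Space n, ‖x‖ = 1 → h x = ⟪c, x⟫ + r := by
  classical
  choose! C R E hE hrep using hloc
  have hrank : 1 < Module.rank ℝ (Space n) := by
    rw [← Module.finrank_eq_rank, finrank_euclideanSpace_fin]
    exact_mod_cast hn
  have hconn : PreconnectedSpace (Metric.sphere (0 : Space n) 1) :=
    Subtype.preconnectedSpace (isPreconnected_sphere hrank 0 1)
  let Φ : Metric.sphere (0 : Space n) 1 → Space n × ℝ := fun y => (C y, R y)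
  have hS : ∀ y : Metric.sphere (0 : Space n) 1, ‖(y : Space n)‖ = 1 := fun y => by
    simp
  have hlc : IsLocallyConstant Φ := by
    rw [IsLocallyConstant.iff_eventually_eq]
    intro y
    have hev : ∀ᶠ y' : Metric.sphere (0 : Space n) 1 in nhds y, ‖(y' : Space n) - y‖ < E y := by
      have hcont : Continuous fun y' : Metric.sphere (0 : Space n) 1 => ‖(y' : Space n) - y‖ := by
        fun_prop
      exact hcont.continuousAt.eventually_lt continuousAt_const (by
        rw [sub_self, norm_zero]; exact hE y (hS y))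
    filter_upwards [hev] with y' hy'
    have hη : 0 < min (E y') (E y - ‖(y' : Space n) - y‖) := by
      have h1 := hE y' (hS y')
      have h2 : 0 < E y - ‖(y' : Space n) - y‖ := by linarith
      exact lt_min h1 h2
    obtain ⟨h1, h2⟩ := lin_unique hn (y := (y' : Space n)) (d := C y' - C y) (s := R y - R y') hη
      (hS y') (fun x hx hxy => by
        have h3 := hrep y' (hS y') x hx (hxy.trans_le (min_le_left _ _))
        have h4 : ‖x - (y : Space n)‖ < E y := by
          have h5 : ‖x - (y : Space n)‖ ≤ ‖x - (y' : Space n)‖ + ‖(y' : Space n) - y‖ := by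
            have h6 : x - (y : Space n) = (x - (y' : Space n)) + ((y' : Space n) - y) := by abel
            rw [h6]
            exact norm_add_le _ _
          have h7 := hxy.trans_le (min_le_right _ _)
          linarith
        have h5 := hrep y (hS y) x hx h4
        rw [inner_sub_left]
        linarith)
    have h3 : C y' = C y := sub_eq_zero.1 h1
    have h4 : R y' = R y := by linarith
    show (C y', R y') = (C y, R y)
    rw [h3, h4]
  obtain ⟨y0, hy0⟩ : ∃ y0 : Space n, ‖y0‖ = 1 := by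
    have : Nontrivial (Space n) := by
      have : Nonempty (Fin n) := ⟨⟨0, by omega⟩⟩
      infer_instance
    exact exists_norm_eq (Space n) zero_le_one
  refine ⟨C y0, R y0, fun x hx => ?_⟩
  have h1 := hlc.apply_eq_of_preconnectedSpace ⟨x, by simpa using hx⟩ ⟨y0, by simpa using hy0⟩
  have h2 : C x = C y0 ∧ R x = R y0 := Prod.mk.inj h1
  have h3 := hrep x hx x hx (by rw [sub_self, norm_zero]; exact hE x hx)
  rw [h3, h2.1, h2.2]

theorem rotor_ball (hn : 3 ≤ n) {J : Type} {u : J → Space n} (hu : ∀ j, ‖u j‖ = 1) {b : J → ℝ} {v : Space n}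
    (hv : v ≠ 0) (huv : ∀ j, ⟪u j, v⟫ = 0) {K : Set (Space n)} (hconv : Convex ℝ K) (hK : IsCompact K)
    (hint : (interior K).Nonempty)
    (hrot : ∀ A ∈ Matrix.specialOrthogonalGroup (Fin n) ℝ, Touches u b K A) {j : J} (hj : Dep u j) :
    ∃ (c : Space n) (r : ℝ), 0 < r ∧ K = Metric.closedBall c r := by
  have hne : K.Nonempty := hint.mono interior_subset
  have hn2 : 2 ≤ n := by omega
  obtain ⟨c, r, h⟩ := glue hn2 (h := supp K) (by
    intro y hy
    obtain ⟨A0, hA0, hA0y⟩ := exists_rot_vec hn2 (hu j) hy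
    obtain ⟨c, r, η, hη, h1⟩ := loc_lin hn hu hv huv hK hne isOpen_univ
      (fun A _ hA => hrot A hA) hj (Set.mem_univ A0) hA0
    rw [hA0y] at h1
    exact ⟨c, r, η, hη, h1⟩)
  obtain ⟨z, hz⟩ := hne
  obtain ⟨w, hw⟩ : ∃ w : Space n, ‖w‖ = 1 := ⟨u j, hu j⟩
  have hr : 0 ≤ r := by
    have h1 := le_supp hK ⟨z, hz⟩ hz w
    have h2 := le_supp hK ⟨z, hz⟩ hz (-w)
    rw [h w hw] at h1
    rw [h (-w) (by rw [norm_neg, hw])] at h2
    rw [inner_neg_right, inner_neg_right] at h2
    linarith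
  have hball : K = Metric.closedBall c r := eq_closedBall hK ⟨z, hz⟩ hconv c r hr (by
    intro v hv
    rw [h v hv]
    ring)
  refine ⟨c, r, ?_, hball⟩
  rcases hr.lt_or_eq with h1 | h1
  · exact h1
  · exfalso
    have : Nontrivial (Space n) := by
      have : Nonempty (Fin n) := ⟨⟨0, by omega⟩⟩
      infer_instance
    rw [hball, ← h1, Metric.closedBall_zero] at hint
    rw [interior_singleton] at hint
    exact Set.not_nonempty_empty hint

end Pool.Agent.H34.RT
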