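import Pool.Agent.H34.RT.Defs

/-!
# Lift : rotations close to the identity with prescribed values

`lift1`: `g = S2 ∘ S1`, `S1` the reflection in `(ℝ ∙ (a + b))ᗮ` (`a + b ≠ 0` since `‖a - b‖ ≤ 1`), `S2` the reflection in `(ℝ ∙ b)ᗮ`; `S1 a = -b`,
`S2 (-b) = b`; the determinant is `(-1)(-1) = 1` (`Submodule.det_reflection`). With `c = ⟪a, b⟫ = 1 - ‖a - b‖² / 2 ≥ 1 / 2`:
`g x = x - ⟪a + b, x⟫ / (1 + c) • (a + b) + 2 ⟪a, x⟫ • b`, `‖g x - x‖² = 2 ‖x‖² - 2 ⟪g x, x⟫ = 2 ((α + β)² - 2 (1 + c) α β) / (1 + c)`,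
`α = ⟪a, x⟫, β = ⟪b, x⟫`, and `(α + β)² - 2 (1 + c) α β = (α - β)² + ‖a - b‖² α β ≤ 2 ‖a - b‖² ‖x‖²`.
`lift2`: `g1` from `lift1` for `e1, f1`; `e2' = g1 e2` is orthogonal to `f1`, `‖e2' - f2‖ ≤ 3 δ`; `g2` from `lift1` for `e2', f2` fixes `f1`.
`lift3`: `g1, g2` as in `lift2`, `e3' = g2 (g1 e3)`, `‖e3' - f3‖ ≤ 9 δ`, `g3` fixes `f1, f2`.
-/

set_option autoImplicit false

open scoped RealInnerProductSpace

namespace Pool.Agent.H34.RT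

variable {n : ℕ}

private theorem det_trans (g g' : Space n ≃ₗᵢ[ℝ] Space n) :
    LinearMap.det ((g.trans g').toLinearEquiv : Space n →ₗ[ℝ] Space n) =
      LinearMap.det (g'.toLinearEquiv : Space n →ₗ[ℝ] Space n) * LinearMap.det (g.toLinearEquiv : Space n →ₗ[ℝ] Space n) := by
  rw [← LinearMap.det_comp]
  rfl

theorem rot_refl : LinearIsometryEquiv.refl ℝ (Space n) ∈ Rot n := by
  show LinearMap.det ((LinearIsometryEquiv.refl ℝ (Space n)).toLinearEquiv : Space n →ₗ[ℝ] Space n) = 1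
  exact LinearMap.det_id

theorem rot_trans {g g' : Space n ≃ₗᵢ[ℝ] Space n} (hg : g ∈ Rot n) (hg' : g' ∈ Rot n) : g.trans g' ∈ Rot n := by
  show LinearMap.det ((g.trans g').toLinearEquiv : Space n →ₗ[ℝ] Space n) = 1
  have h1 : LinearMap.det (g.toLinearEquiv : Space n →ₗ[ℝ] Space n) = 1 := hg
  have h2 : LinearMap.det (g'.toLinearEquiv : Space n →ₗ[ℝ] Space n) = 1 := hg'
  rw [det_trans, h1, h2, one_mul]

theorem rot_symm {g : Space n ≃ₗᵢ[ℝ] Space n} (hg : g ∈ Rot n) : g.symm ∈ Rot n := by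
  show LinearMap.det (g.symm.toLinearEquiv : Space n →ₗ[ℝ] Space n) = 1
  have h1 : LinearMap.det (g.toLinearEquiv : Space n →ₗ[ℝ] Space n) = 1 := hg
  have h2 := det_trans g g.symm
  rw [LinearIsometryEquiv.self_trans_symm, h1, mul_one] at h2
  rw [← h2]
  exact LinearMap.det_id

theorem near_trans {g g' : Space n ≃ₗᵢ[ℝ] Space n} {ε ε' : ℝ} (hg : Near ε g) (hg' : Near ε' g') :
    Near (ε + ε') (g.trans g') := by
  intro x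
  have h1 := hg x
  have h2 := hg' (g x)
  rw [g.norm_map] at h2
  rw [LinearIsometryEquiv.trans_apply]
  calc ‖g' (g x) - x‖ = ‖(g' (g x) - g x) + (g x - x)‖ := by rw [sub_add_sub_cancel]
    _ ≤ ‖g' (g x) - g x‖ + ‖g x - x‖ := norm_add_le _ _
    _ ≤ (ε + ε') * ‖x‖ := by linarith

theorem near_mono {g : Space n ≃ₗᵢ[ℝ] Space n} {ε ε' : ℝ} (hg : Near ε g) (h : ε ≤ ε') : Near ε' g := by
  intro x
  exact (hg x).trans (mul_le_mul_of_nonneg_right h (norm_nonneg x))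

private theorem refl_apply (u x : Space n) : (ℝ ∙ u)ᗮ.reflection x = x - (2 * (⟪u, x⟫ / ‖u‖ ^ 2)) • u := by
  rw [Submodule.reflection_orthogonal_apply, Submodule.reflection_singleton_apply]
  simp only [RCLike.ofReal_real_eq_id, id]
  module

private theorem det_refl {u : Space n} (hu : u ≠ 0) :
    LinearMap.det ((ℝ ∙ u)ᗮ.reflection.toLinearEquiv : Space n →ₗ[ℝ] Space n) = -1 := by
  have h1 := Submodule.det_reflection (𝕜 := ℝ) (K := (ℝ ∙ u)ᗮ)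
  rw [Submodule.orthogonal_orthogonal, finrank_span_singleton hu, pow_one] at h1
  exact h1

theorem lift1 {a b : Space n} (ha : ‖a‖ = 1) (hb : ‖b‖ = 1) (hab : ‖a - b‖ ≤ 1) :
    ∃ g ∈ Rot n, g a = b ∧ (∀ x, ⟪x, a⟫ = 0 → ⟪x, b⟫ = 0 → g x = x) ∧ Near (2 * ‖a - b‖) g := by
  obtain ⟨c, hc⟩ : ∃ c : ℝ, c = ⟪a, b⟫ := ⟨_, rfl⟩
  have haa : ⟪a, a⟫ = 1 := by rw [real_inner_self_eq_norm_sq, ha, one_pow]
  have hbb : ⟪b, b⟫ = 1 := by rw [real_inner_self_eq_norm_sq, hb, one_pow]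
  have hba : ⟪b, a⟫ = c := by rw [real_inner_comm, hc]
  have hd : ‖a - b‖ ^ 2 = 2 - 2 * c := by
    rw [@norm_sub_sq_real, ha, hb, ← hc]
    ring
  have hs : ‖a + b‖ ^ 2 = 2 + 2 * c := by
    rw [@norm_add_sq_real, ha, hb, ← hc]
    ring
  have hc2 : 1 / 2 ≤ c := by
    have h1 : ‖a - b‖ ^ 2 ≤ 1 := by
      have h0 := norm_nonneg (a - b)
      nlinarith
    linarith
  have hc1 : (1 + c) ≠ 0 := by positivity
  have hab0 : a + b ≠ 0 := by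
    intro h
    rw [h, norm_zero] at hs
    nlinarith
  have hb0 : b ≠ 0 := by
    intro h
    rw [h, norm_zero] at hb
    exact zero_ne_one hb
  have hform : ∀ x : Space n, ((ℝ ∙ (a + b))ᗮ.reflection.trans (ℝ ∙ b)ᗮ.reflection) x =
      x - (⟪a + b, x⟫ / (1 + c)) • (a + b) + (2 * ⟪a, x⟫) • b := by
    intro x
    rw [LinearIsometryEquiv.trans_apply, refl_apply, refl_apply, hs, hb]
    have h1 : (2 * (⟪a + b, x⟫ / (2 + 2 * c))) = ⟪a + b, x⟫ / (1 + c) := by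
      have h2 : 2 + 2 * c = 2 * (1 + c) := by ring
      rw [h2]
      field_simp
    rw [h1]
    have h3 : ⟪b, x - (⟪a + b, x⟫ / (1 + c)) • (a + b)⟫ = - ⟪a, x⟫ := by
      rw [inner_sub_right, inner_smul_right, inner_add_right, hba, hbb, inner_add_left]
      field_simp
      ring
    rw [h3]
    module
  refine ⟨(ℝ ∙ (a + b))ᗮ.reflection.trans (ℝ ∙ b)ᗮ.reflection, ?_, ?_, ?_, ?_⟩
  · show LinearMap.det (((ℝ ∙ (a + b))ᗮ.reflection.trans (ℝ ∙ b)ᗮ.reflection).toLinearEquiv : Space n →ₗ[ℝ] Space n) = 1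
    rw [det_trans, det_refl hab0, det_refl hb0]
    norm_num
  · rw [hform, inner_add_left, haa, hba, div_self hc1]
    module
  · intro x h1 h2
    rw [hform, inner_add_left, real_inner_comm, h1, real_inner_comm, h2]
    simp
  · intro x
    have h0 : ((ℝ ∙ (a + b))ᗮ.reflection.trans (ℝ ∙ b)ᗮ.reflection) x - x =
        (2 * ⟪a, x⟫) • b - (⟪a + b, x⟫ / (1 + c)) • (a + b) := by
      rw [hform]
      abel
    obtain ⟨α, hα⟩ : ∃ α : ℝ, α = ⟪a, x⟫ := ⟨_, rfl⟩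
    obtain ⟨β, hβ⟩ : ∃ β : ℝ, β = ⟪b, x⟫ := ⟨_, rfl⟩
    have hsq : ‖((ℝ ∙ (a + b))ᗮ.reflection.trans (ℝ ∙ b)ᗮ.reflection) x - x‖ ^ 2 * (1 + c) =
        2 * ((α - β) ^ 2 + ‖a - b‖ ^ 2 * (α * β)) := by
      rw [h0, @norm_sub_sq_real, norm_smul, norm_smul, mul_pow, mul_pow, hs, hb, inner_smul_left, inner_smul_right, inner_add_right,
        hba, hbb, inner_add_left, ← hα, ← hβ, hd]
      simp only [Real.norm_eq_abs, sq_abs, conj_trivial]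
      field_simp
      ring
    have hx := norm_nonneg x
    have hdn := norm_nonneg (a - b)
    have hαβ : (α - β) ^ 2 ≤ ‖a - b‖ ^ 2 * ‖x‖ ^ 2 := by
      have h1 := abs_real_inner_le_norm (a - b) x
      rw [inner_sub_left, ← hα, ← hβ] at h1
      rw [← mul_pow, ← sq_abs (α - β)]
      exact pow_le_pow_left₀ (abs_nonneg _) h1 2
    have hαβ' : α * β ≤ ‖x‖ ^ 2 := by
      have h1 := abs_real_inner_le_norm a x
      have h2 := abs_real_inner_le_norm b x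
      rw [ha, one_mul, ← hα] at h1
      rw [hb, one_mul, ← hβ] at h2
      calc α * β ≤ |α * β| := le_abs_self _
        _ = |α| * |β| := abs_mul _ _
        _ ≤ ‖x‖ * ‖x‖ := mul_le_mul h1 h2 (abs_nonneg _) hx
        _ = ‖x‖ ^ 2 := (sq _).symm
    have h1 : ‖a - b‖ ^ 2 * (α * β) ≤ ‖a - b‖ ^ 2 * ‖x‖ ^ 2 := mul_le_mul_of_nonneg_left hαβ' (sq_nonneg _)
    refine abs_le_of_sq_le_sq' ?_ (by positivity) |>.2
    have h2 : 0 ≤ ‖((ℝ ∙ (a + b))ᗮ.reflection.trans (ℝ ∙ b)ᗮ.reflection) x - x‖ ^ 2 := sq_nonneg _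
    nlinarith

theorem lift2 {e1 e2 f1 f2 : Space n} (he1 : ‖e1‖ = 1) (he2 : ‖e2‖ = 1) (he : ⟪e1, e2⟫ = 0) (hf1 : ‖f1‖ = 1)
    (hf2 : ‖f2‖ = 1) (hf : ⟪f1, f2⟫ = 0) {δ : ℝ} (hδ : δ ≤ 1 / 9) (h1 : ‖e1 - f1‖ ≤ δ) (h2 : ‖e2 - f2‖ ≤ δ) :
    ∃ g ∈ Rot n, g e1 = f1 ∧ g e2 = f2 ∧ Near (8 * δ) g := by
  have hδ0 : 0 ≤ δ := (norm_nonneg _).trans h1
  obtain ⟨g1, hg1, hg1e, -, hg1n⟩ := lift1 he1 hf1 (by linarith)
  have h3 : ‖g1 e2 - f2‖ ≤ 3 * δ := by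
    have h4 := hg1n e2
    rw [he2, mul_one] at h4
    calc ‖g1 e2 - f2‖ = ‖(g1 e2 - e2) + (e2 - f2)‖ := by rw [sub_add_sub_cancel]
      _ ≤ ‖g1 e2 - e2‖ + ‖e2 - f2‖ := norm_add_le _ _
      _ ≤ 3 * δ := by linarith
  obtain ⟨g2, hg2, hg2e, hg2f, hg2n⟩ := lift1 (a := g1 e2) (b := f2) (by rw [g1.norm_map, he2]) hf2 (by linarith)
  refine ⟨g1.trans g2, rot_trans hg1 hg2, ?_, ?_, near_mono (near_trans hg1n hg2n) (by linarith)⟩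
  · rw [LinearIsometryEquiv.trans_apply, hg1e]
    refine hg2f f1 ?_ hf
    rw [← hg1e, g1.inner_map_map, he]
  · rw [LinearIsometryEquiv.trans_apply, hg2e]

theorem lift3 {e1 e2 e3 f1 f2 f3 : Space n} (he1 : ‖e1‖ = 1) (he2 : ‖e2‖ = 1) (he3 : ‖e3‖ = 1) (he12 : ⟪e1, e2⟫ = 0)
    (he13 : ⟪e1, e3⟫ = 0) (he23 : ⟪e2, e3⟫ = 0) (hf1 : ‖f1‖ = 1) (hf2 : ‖f2‖ = 1) (hf3 : ‖f3‖ = 1)
    (hf12 : ⟪f1, f2⟫ = 0) (hf13 : ⟪f1, f3⟫ = 0) (hf23 : ⟪f2, f3⟫ = 0) {δ : ℝ} (hδ : δ ≤ 1 / 9)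
    (h1 : ‖e1 - f1‖ ≤ δ) (h2 : ‖e2 - f2‖ ≤ δ) (h3 : ‖e3 - f3‖ ≤ δ) :
    ∃ g ∈ Rot n, g e1 = f1 ∧ g e2 = f2 ∧ g e3 = f3 ∧ Near (26 * δ) g := by
  have hδ0 : 0 ≤ δ := (norm_nonneg _).trans h1
  obtain ⟨g1, hg1, hg11, hg12, hg1n⟩ := lift2 he1 he2 he12 hf1 hf2 hf12 hδ h1 h2
  have h4 : ‖g1 e3 - f3‖ ≤ 9 * δ := by
    have h5 := hg1n e3
    rw [he3, mul_one] at h5
    calc ‖g1 e3 - f3‖ = ‖(g1 e3 - e3) + (e3 - f3)‖ := by rw [sub_add_sub_cancel]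
      _ ≤ ‖g1 e3 - e3‖ + ‖e3 - f3‖ := norm_add_le _ _
      _ ≤ 9 * δ := by linarith
  obtain ⟨g2, hg2, hg2e, hg2f, hg2n⟩ := lift1 (a := g1 e3) (b := f3) (by rw [g1.norm_map, he3]) hf3 (by linarith)
  refine ⟨g1.trans g2, rot_trans hg1 hg2, ?_, ?_, ?_, near_mono (near_trans hg1n hg2n) (by linarith)⟩
  · rw [LinearIsometryEquiv.trans_apply, hg11]
    refine hg2f f1 ?_ hf13
    rw [← hg11, g1.inner_map_map, he13]
  · rw [LinearIsometryEquiv.trans_apply, hg12]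
    refine hg2f f2 ?_ hf23
    rw [← hg12, g1.inner_map_map, he23]
  · rw [LinearIsometryEquiv.trans_apply, hg2e]

end Pool.Agent.H34.RT
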