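import Pool.Agent.H34.RT.Lift

/-!
# Mat : rotation matrices and rotations

See `matrix_of_iso`, `iso_of_matrix` in `Pool/Agent/Results/MP_c2e62a_gt/RotorIsBall.lean` for `n = 3`. `near_mat`: the entries of `A` are the
coordinates of `move A 0 e_j`; the topology of matrices is the product topology. `exists_rot_vec`: for unit vectors `a, b` and `n ≥ 2` there is a rotation
matrix with `move Aᵀ 0 a = b` (a reflection maps `a` to `b`; correct the determinant by the reflection in a hyperplane containing `b`, which exists as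
`n ≥ 2`).
-/

set_option autoImplicit false

open scoped RealInnerProductSpace

namespace Pool.Agent.H34.RT

variable {n : ℕ}

private theorem move_ofLp (A : Matrix (Fin n) (Fin n) ℝ) (x : Space n) :
    (move A 0 x).ofLp = A.mulVec x.ofLp := by
  unfold move
  rw [add_zero]

private theorem move_eq_iff (A : Matrix (Fin n) (Fin n) ℝ) (x y : Space n) :
    move A 0 x = y ↔ A.mulVec x.ofLp = y.ofLp := by
  constructor
  · intro h
    rw [← h, move_ofLp]
  · intro h
    apply WithLp.ofLp_injective
    rw [move_ofLp, h]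

private theorem transpose_symm {A : Matrix (Fin n) (Fin n) ℝ} (hA : A.transpose * A = 1)
    {g : Space n ≃ₗᵢ[ℝ] Space n} (hg : ∀ x : Space n, move A 0 x = g x) (x : Space n) :
    move A.transpose 0 x = g.symm x := by
  have h1 := (move_eq_iff A _ _).mp (hg (g.symm x))
  rw [LinearIsometryEquiv.apply_symm_apply] at h1
  rw [move_eq_iff, ← h1, Matrix.mulVec_mulVec, hA, Matrix.one_mulVec]

theorem mat_of_rot {g : Space n ≃ₗᵢ[ℝ] Space n} (hg : g ∈ Rot n) :
    ∃ A ∈ Matrix.specialOrthogonalGroup (Fin n) ℝ, (∀ t x : Space n, move A t x = g x + t) ∧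
      ∀ x : Space n, move A.transpose 0 x = g.symm x := by
  have hdet : LinearMap.det (g.toLinearEquiv : Space n →ₗ[ℝ] Space n) = 1 := hg
  set b := (EuclideanSpace.basisFun (Fin n) ℝ).toBasis with hb
  set A := LinearMap.toMatrix b b (g.toLinearEquiv : Space n →ₗ[ℝ] Space n) with hA
  have hAij : ∀ i j, A i j = g (EuclideanSpace.single j 1) i := by
    intro i j
    rw [hA, LinearMap.toMatrix_apply]
    simp [hb]
  have horth : A.transpose * A = 1 := by
    ext i j
    rw [Matrix.mul_apply]
    simp only [Matrix.transpose_apply, hAij]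
    have h1 : ∑ k, g (EuclideanSpace.single i 1) k * g (EuclideanSpace.single j 1) k =
        ⟪g (EuclideanSpace.single i (1:ℝ)), g (EuclideanSpace.single j (1:ℝ))⟫ := by
      rw [PiLp.inner_apply]
      refine Finset.sum_congr rfl fun k _ => ?_
      rw [real_inner_eq_re_inner]
      simp [mul_comm]
    rw [h1, LinearIsometryEquiv.inner_map_map, EuclideanSpace.inner_single_left]
    by_cases hij : i = j
    · subst hij
      rw [Matrix.one_apply_eq]
      simp
    · simp [hij, Matrix.one_apply_ne hij]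
  have hmove : ∀ t x : Space n, move A t x = g x + t := by
    intro t x
    unfold move
    congr 1
    ext i
    have h2 := LinearMap.toMatrix_mulVec_repr b b (g.toLinearEquiv : Space n →ₗ[ℝ] Space n) x
    have h4 : (⇑(b.repr x) : Fin n → ℝ) = x.ofLp := by
      ext k
      simp [hb]
    have h5 : ∀ y : Space n, (⇑(b.repr y) : Fin n → ℝ) i = y i := by
      intro y
      simp [hb]
    rw [h4] at h2
    have h3 := congrFun h2 i
    rw [h5] at h3
    exact h3
  refine ⟨A, ?_, hmove, ?_⟩
  · rw [Matrix.mem_specialOrthogonalGroup_iff, Matrix.mem_orthogonalGroup_iff']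
    refine ⟨?_, ?_⟩
    · exact horth
    · rw [hA, LinearMap.det_toMatrix, hdet]
  · exact transpose_symm horth (fun x => by rw [hmove, add_zero])

theorem rot_of_mat {A : Matrix (Fin n) (Fin n) ℝ} (hA : A ∈ Matrix.specialOrthogonalGroup (Fin n) ℝ) :
    ∃ g ∈ Rot n, (∀ t x : Space n, move A t x = g x + t) ∧ ∀ x : Space n, move A.transpose 0 x = g.symm x := by
  rw [Matrix.mem_specialOrthogonalGroup_iff, Matrix.mem_orthogonalGroup_iff'] at hA
  have hAA : A.transpose * A = 1 := hA.1
  have hn : ∀ x : Space n, ‖Matrix.toEuclideanLin A x‖ = ‖x‖ := by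
    intro x
    have h1 : ‖Matrix.toEuclideanLin A x‖ ^ 2 = ‖x‖ ^ 2 := by
      have e : ∀ y : Space n, ‖y‖ ^ 2 = y.ofLp ⬝ᵥ y.ofLp := by
        intro y
        rw [EuclideanSpace.norm_sq_eq]
        unfold dotProduct
        refine Finset.sum_congr rfl fun k _ => ?_
        rw [Real.norm_eq_abs, sq_abs, sq]
      rw [e, e]
      change (A.mulVec x.ofLp) ⬝ᵥ (A.mulVec x.ofLp) = x.ofLp ⬝ᵥ x.ofLp
      rw [Matrix.dotProduct_mulVec, Matrix.vecMul_mulVec,
        ← Matrix.dotProduct_mulVec]
      rw [hAA, Matrix.one_mulVec]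
    exact (sq_eq_sq₀ (norm_nonneg _) (norm_nonneg _)).mp h1
  let g : Space n ≃ₗᵢ[ℝ] Space n :=
    LinearIsometry.toLinearIsometryEquiv ⟨Matrix.toEuclideanLin A, hn⟩ rfl
  have hmove : ∀ t x : Space n, move A t x = g x + t := fun t x => rfl
  refine ⟨g, ?_, hmove, transpose_symm hAA (fun x => by rw [hmove, add_zero])⟩
  show LinearMap.det (g.toLinearEquiv : Space n →ₗ[ℝ] Space n) = 1
  have h2 : (g.toLinearEquiv : Space n →ₗ[ℝ] Space n) = Matrix.toEuclideanLin A := by
    ext x
    rfl
  rw [h2, Matrix.toEuclideanLin_eq_toLin_orthonormal, LinearMap.det_toLin]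
  exact hA.2

theorem near_mat {V : Set (Matrix (Fin n) (Fin n) ℝ)} (hV : IsOpen V) {A0 : Matrix (Fin n) (Fin n) ℝ} (hA0 : A0 ∈ V) :
    ∃ ε : ℝ, 0 < ε ∧ ∀ A : Matrix (Fin n) (Fin n) ℝ,
      (∀ x : Space n, ‖move A 0 x - move A0 0 x‖ ≤ ε * ‖x‖) → A ∈ V := by
  let V' : Set (Fin n → Fin n → ℝ) := V
  let A0' : Fin n → Fin n → ℝ := A0
  have hV' : IsOpen V' := hV
  have hA0' : A0' ∈ V' := hA0
  obtain ⟨δ, hδ, hball⟩ := Metric.isOpen_iff.mp hV' A0' hA0'
  refine ⟨δ / 2, by positivity, ?_⟩
  intro A hA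
  have hent : ∀ i j, |A i j - A0 i j| ≤ δ / 2 := by
    intro i j
    have h1 := hA (EuclideanSpace.single j 1)
    have h2 : ‖(EuclideanSpace.single j (1:ℝ) : Space n)‖ = 1 := by simp
    rw [h2, mul_one] at h1
    have h3 : ∀ B : Matrix (Fin n) (Fin n) ℝ, move B 0 (EuclideanSpace.single j 1) i = B i j := by
      intro B
      have h4 : (move B 0 (EuclideanSpace.single j (1:ℝ))).ofLp i
          = B.mulVec (EuclideanSpace.single j (1:ℝ) : Space n).ofLp i := by rw [move_ofLp]
      refine h4.trans ?_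
      simp [Matrix.mulVec, dotProduct, Pi.single_apply]
    have h5 := PiLp.norm_apply_le (move A 0 (EuclideanSpace.single j (1:ℝ))
      - move A0 0 (EuclideanSpace.single j (1:ℝ))) i
    have h6 : (move A 0 (EuclideanSpace.single j (1:ℝ))
      - move A0 0 (EuclideanSpace.single j (1:ℝ))) i = A i j - A0 i j := by
      rw [PiLp.sub_apply, h3, h3]
    rw [h6, Real.norm_eq_abs] at h5
    exact le_trans h5 h1
  let A' : Fin n → Fin n → ℝ := A
  have hmem : A' ∈ V' := by
    apply hball
    rw [Metric.mem_ball]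
    refine (dist_pi_lt_iff hδ).mpr fun i => (dist_pi_lt_iff hδ).mpr fun j => ?_
    rw [Real.dist_eq]
    have h7 : |A' i j - A0' i j| ≤ δ / 2 := hent i j
    linarith
  exact hmem

theorem continuous_move (x : Space n) : Continuous fun A : Matrix (Fin n) (Fin n) ℝ => move A.transpose 0 x := by
  unfold move
  have h1 : Continuous fun A : Matrix (Fin n) (Fin n) ℝ => A.transpose.mulVec x.ofLp :=
    Continuous.matrix_mulVec continuous_id.matrix_transpose continuous_const
  exact ((PiLp.continuous_toLp 2 (fun _ : Fin n => ℝ)).comp h1).add continuous_const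

private theorem det_refl_span {c : Space n} (hc : c ≠ 0) :
    LinearMap.det (((ℝ ∙ c)ᗮ).reflection.toLinearEquiv : Space n →ₗ[ℝ] Space n) = -1 := by
  have h1 := Submodule.det_reflection (K := ((ℝ ∙ c)ᗮ : Submodule ℝ (Space n)))
  rw [Submodule.orthogonal_orthogonal, finrank_span_singleton hc, pow_one] at h1
  exact h1

theorem exists_rot_vec (hn : 2 ≤ n) {a b : Space n} (ha : ‖a‖ = 1) (hb : ‖b‖ = 1) :
    ∃ A ∈ Matrix.specialOrthogonalGroup (Fin n) ℝ, move A.transpose 0 a = b := by
  have key : ∃ g ∈ Rot n, g b = a := by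
    by_cases hab : b = a
    · exact ⟨LinearIsometryEquiv.refl ℝ (Space n), rot_refl, by rw [hab]; rfl⟩
    · -- a vector orthogonal to `a`
      obtain ⟨c, hc, hc0⟩ : ∃ c ∈ ((ℝ ∙ a)ᗮ : Submodule ℝ (Space n)), c ≠ 0 := by
        apply Submodule.exists_mem_ne_zero_of_ne_bot
        intro hbot
        rw [Submodule.orthogonal_eq_bot_iff] at hbot
        have h1 : Module.finrank ℝ (ℝ ∙ a : Submodule ℝ (Space n)) = n := by
          rw [hbot, finrank_top, finrank_euclideanSpace_fin]
        have ha0 : a ≠ 0 := by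
          rintro rfl
          rw [norm_zero] at ha
          exact zero_ne_one ha
        rw [finrank_span_singleton ha0] at h1
        omega
      have hs : b - a ≠ 0 := sub_ne_zero.mpr hab
      refine ⟨((ℝ ∙ (b - a))ᗮ).reflection.trans ((ℝ ∙ c)ᗮ).reflection, ?_, ?_⟩
      · show LinearMap.det ((((ℝ ∙ (b - a))ᗮ).reflection.trans
          ((ℝ ∙ c)ᗮ).reflection).toLinearEquiv : Space n →ₗ[ℝ] Space n) = 1
        have h1 : ((((ℝ ∙ (b - a))ᗮ).reflection.trans
            ((ℝ ∙ c)ᗮ).reflection).toLinearEquiv : Space n →ₗ[ℝ] Space n)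
            = (((ℝ ∙ c)ᗮ).reflection.toLinearEquiv : Space n →ₗ[ℝ] Space n) ∘ₗ
              (((ℝ ∙ (b - a))ᗮ).reflection.toLinearEquiv : Space n →ₗ[ℝ] Space n) := by
          ext x
          rfl
        rw [h1, LinearMap.det_comp, det_refl_span hc0, det_refl_span hs]
        norm_num
      · rw [LinearIsometryEquiv.trans_apply, Submodule.reflection_sub (by rw [ha, hb])]
        apply Submodule.reflection_mem_subspace_eq_self
        rw [Submodule.mem_orthogonal_singleton_iff_inner_right]
        rw [Submodule.mem_orthogonal_singleton_iff_inner_right] at hc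
        rw [real_inner_comm]
        exact hc
  obtain ⟨g, hg, hgb⟩ := key
  obtain ⟨A, hA, -, h2⟩ := mat_of_rot hg
  refine ⟨A, hA, ?_⟩
  rw [h2, ← hgb, LinearIsometryEquiv.symm_apply_apply]

end Pool.Agent.H34.RT
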