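import Pool.Agent.H34.RT.Defs

/-!
# Supp : support functions

`Pool/Agent/H25/RotC.lean` has everything for `n = 3` (`supp_isGreatest`, `le_supp`, `supp_eq`, `supp_smul`, `supp_continuous`,
`eq_closedBall`): copy the proofs for general `n`. Convexity: a supremum of linear functions. `eq_closedBall`: Hahn-Banach as there.
-/

set_option autoImplicit false

open scoped RealInnerProductSpace

namespace Pool.Agent.H34.RT

variable {n : ℕ}

theorem supp_isGreatest {K : Set (Space n)} (hK : IsCompact K) (hne : K.Nonempty) (v : Space n) :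
    IsGreatest ((fun x => ⟪x, v⟫) '' K) (supp K v) := by
  have hc : IsCompact ((fun x : Space n => ⟪x, v⟫) '' K) := by
    apply hK.image_of_continuousOn
    fun_prop
  exact hc.isGreatest_sSup (hne.image _)

theorem le_supp {K : Set (Space n)} (hK : IsCompact K) (hne : K.Nonempty) {x : Space n} (hx : x ∈ K) (v : Space n) :
    ⟪x, v⟫ ≤ supp K v := by
  exact (supp_isGreatest hK hne v).2 ⟨x, hx, rfl⟩

theorem supp_eq {K : Set (Space n)} (hK : IsCompact K) (hne : K.Nonempty) {v : Space n} {c : ℝ}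
    (h1 : ∀ x ∈ K, ⟪x, v⟫ ≤ c) (h2 : ∃ x ∈ K, ⟪x, v⟫ = c) : supp K v = c := by
  have h := supp_isGreatest hK hne v
  apply IsGreatest.unique h
  refine ⟨?_, ?_⟩
  · obtain ⟨x, hx, he⟩ := h2
    exact ⟨x, hx, he⟩
  · rintro _ ⟨x, hx, rfl⟩
    exact h1 x hx

theorem sup_supp {K : Set (Space n)} (hK : IsCompact K) (hne : K.Nonempty) : Sup (supp K) := by
  refine ⟨?_, ?_, ?_⟩
  · intro c v hc
    obtain ⟨⟨x, hx, he⟩, hle⟩ := supp_isGreatest hK hne v
    apply supp_eq hK hne
    · intro y hy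
      rw [inner_smul_right]
      exact mul_le_mul_of_nonneg_left (hle ⟨y, hy, rfl⟩) hc
    · exact ⟨x, hx, by rw [inner_smul_right]; simp only at he; rw [he]⟩
  · refine ⟨convex_univ, fun x _ y _ a b ha hb _ => ?_⟩
    obtain ⟨⟨z, hz, he⟩, -⟩ := supp_isGreatest hK hne (a • x + b • y)
    simp only at he
    rw [← he, inner_add_right, inner_smul_right, inner_smul_right, smul_eq_mul, smul_eq_mul]
    exact add_le_add (mul_le_mul_of_nonneg_left (le_supp hK hne hz x) ha)
      (mul_le_mul_of_nonneg_left (le_supp hK hne hz y) hb)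
  · obtain ⟨M, hM⟩ := hK.isBounded.exists_norm_le
    have key : ∀ v w : Space n, supp K v - supp K w ≤ M * ‖v - w‖ := by
      intro v w
      obtain ⟨⟨x, hx, he⟩, -⟩ := supp_isGreatest hK hne v
      have h1 := le_supp hK hne hx w
      have h2 : ⟪x, v - w⟫ ≤ ‖x‖ * ‖v - w‖ := real_inner_le_norm _ _
      have h3 : ‖x‖ * ‖v - w‖ ≤ M * ‖v - w‖ :=
        mul_le_mul_of_nonneg_right (hM x hx) (norm_nonneg _)
      rw [inner_sub_right] at h2
      simp only at he
      rw [← he]
      linarith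
    have hM0 : 0 ≤ M := by
      obtain ⟨x, hx⟩ := hne
      exact (norm_nonneg x).trans (hM x hx)
    refine ⟨M, hM0, fun v w => ?_⟩
    rw [abs_le]
    constructor
    · have := key w v
      rw [norm_sub_rev] at this
      linarith
    · exact key v w

theorem sup_comp {h : Space n → ℝ} (hh : Sup h) (g : Space n ≃ₗᵢ[ℝ] Space n) : Sup fun x => h (g x) := by
  refine ⟨?_, ?_, ?_⟩
  · intro t x ht
    rw [map_smul]
    exact hh.hom t (g x) ht
  · refine ⟨convex_univ, fun x _ y _ a b ha hb hab => ?_⟩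
    simp only
    rw [map_add, map_smul, map_smul]
    exact hh.conv.2 (Set.mem_univ (g x)) (Set.mem_univ (g y)) ha hb hab
  · obtain ⟨L, hL, h1⟩ := hh.lip
    refine ⟨L, hL, fun x y => ?_⟩
    have h2 := h1 (g x) (g y)
    rw [← map_sub, LinearIsometryEquiv.norm_map] at h2
    exact h2

theorem eq_closedBall {K : Set (Space n)} (hK : IsCompact K) (hne : K.Nonempty) (hconv : Convex ℝ K)
    (V : Space n) (r : ℝ) (hr : 0 ≤ r) (h : ∀ v : Space n, ‖v‖ = 1 → supp K v = r + ⟪V, v⟫) :
    K = Metric.closedBall V r := by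
  ext x
  rw [Metric.mem_closedBall, dist_eq_norm]
  constructor
  · intro hx
    by_cases h0 : x - V = 0
    · rw [h0, norm_zero]; exact hr
    · have hn : 0 < ‖x - V‖ := norm_pos_iff.mpr h0
      have hu : ‖(‖x - V‖⁻¹ • (x - V))‖ = 1 := by
        rw [norm_smul, norm_inv, norm_norm]
        exact inv_mul_cancel₀ hn.ne'
      have h1 := le_supp hK hne hx (‖x - V‖⁻¹ • (x - V))
      rw [h _ hu] at h1
      have h2 : ⟪x - V, ‖x - V‖⁻¹ • (x - V)⟫ ≤ r := by
        rw [inner_sub_left]
        linarith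
      rw [inner_smul_right, real_inner_self_eq_norm_sq] at h2
      have h3 : ‖x - V‖⁻¹ * ‖x - V‖ ^ 2 = ‖x - V‖ := by
        field_simp
      rw [h3] at h2
      exact h2
  · intro hx
    by_contra hxK
    obtain ⟨f, u, hf1, hf2⟩ := geometric_hahn_banach_closed_point hconv hK.isClosed hxK
    -- represent f
    set w : Space n := (InnerProductSpace.toDual ℝ (Space n)).symm f with hw
    have hfw : ∀ y, f y = ⟪y, w⟫ := by
      intro y
      rw [real_inner_comm, hw, InnerProductSpace.toDual_symm_apply]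
    have hw0 : w ≠ 0 := by
      intro hw0
      obtain ⟨y, hy⟩ := hne
      have h1 := hf1 y hy
      rw [hfw, hw0, inner_zero_right] at h1
      rw [hfw, hw0, inner_zero_right] at hf2
      linarith
    have hn : 0 < ‖w‖ := norm_pos_iff.mpr hw0
    have hu : ‖(‖w‖⁻¹ • w)‖ = 1 := by
      rw [norm_smul, norm_inv, norm_norm]
      exact inv_mul_cancel₀ hn.ne'
    have h1 := h _ hu
    obtain ⟨⟨y, hy, he⟩, -⟩ := supp_isGreatest hK hne (‖w‖⁻¹ • w)
    simp only at he
    have h2 : ⟪x - V, ‖w‖⁻¹ • w⟫ ≤ r := by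
      have := real_inner_le_norm (x - V) (‖w‖⁻¹ • w)
      rw [hu, mul_one] at this
      linarith
    have h3 : ⟪x, ‖w‖⁻¹ • w⟫ ≤ ⟪y, ‖w‖⁻¹ • w⟫ := by
      rw [he, h1]
      rw [inner_sub_left] at h2
      linarith
    rw [inner_smul_right, inner_smul_right] at h3
    have h4 : ⟪x, w⟫ ≤ ⟪y, w⟫ := le_of_mul_le_mul_left h3 (inv_pos.mpr hn)
    have h5 := hf1 y hy
    rw [hfw] at h5 hf2
    linarith

end Pool.Agent.H34.RT
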