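import Pool.Agent.H34.RT.Circ
import Pool.Agent.H34.RT.Core
import Pool.Agent.H34.RT.Mat
import Pool.Agent.H34.RT.Supp

/-!
# Loc : local rigidity

`touch_supp`: if `t` is a translation vector of `Touches` then `supp K (Aᵀ u j) = b j - ⟪u j, t⟫` for all `j`. `loc_lin`: `g0` the rotation of `A0`
(`rot_of_mat`); `h x = supp K (g0⁻¹ x)` (`sup_comp`), `circ` gives the relation `u j = ∑ lam i u (k i)`; for a rotation `g` close to the identity the matrix `A` of
`g⁻¹` after `g0` is in `V` (`near_mat`), `Aᵀ u = g0⁻¹ g u`, so `h (g u j) = ∑ lam i h (g u (k i)) + (b j - ∑ lam i b (k i))`; apply `core` and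
translate back. `unique_contact`: if `supp K x = ⟪c, x⟫ + r` for all unit `x` close to the unit vector `y`, then `c + r y ∈ K` is the only point of `K`
where `⟪·, y⟫` is maximal: for `z ∈ K` with `⟪z, y⟫ = supp K y` the function `x ↦ ⟪c - z, x⟫ + r ‖x‖` is `≥ 0` near `y` (homogeneity) and `0` at `y`, its
derivative vanishes: `c - z + r y = 0`. `r ≥ 0` if `n ≥ 2`: `⟪c + r y, x⟫ ≤ ⟪c, x⟫ + r` for a unit `x ≠ y` close to `y`, `⟪y, x⟫ < 1`.
-/

set_option autoImplicit false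

open scoped RealInnerProductSpace

namespace Pool.Agent.H34.RT

variable {n : ℕ}

theorem touch_supp {J : Type} {u : J → Space n} {b : J → ℝ} {K : Set (Space n)} (hK : IsCompact K) (hne : K.Nonempty)
    {A : Matrix (Fin n) (Fin n) ℝ} (hA : A ∈ Matrix.specialOrthogonalGroup (Fin n) ℝ) (hT : Touches u b K A) :
    ∃ t : Space n, ∀ j, supp K (move A.transpose 0 (u j)) = b j - ⟪u j, t⟫ := by
  obtain ⟨t, ht⟩ := hT
  obtain ⟨g, -, hg, hgt⟩ := rot_of_mat hA
  have key : ∀ (j : J) (x : Space n), ⟪x, move A.transpose 0 (u j)⟫ = ⟪u j, move A t x⟫ - ⟪u j, t⟫ := by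
    intro j x
    rw [hgt, hg, inner_add_right, add_sub_cancel_right, ← LinearIsometryEquiv.inner_map_map g x,
      LinearIsometryEquiv.apply_symm_apply, real_inner_comm]
  refine ⟨t, fun j => ?_⟩
  obtain ⟨h1, x, hx, h2⟩ := ht j
  apply supp_eq hK hne
  · intro y hy
    rw [key]
    linarith [h1 y hy]
  · exact ⟨x, hx, by rw [key, h2]⟩

private theorem rot_comp {g g0 : Space n ≃ₗᵢ[ℝ] Space n} (hg : g ∈ Rot n) (hg0 : g0 ∈ Rot n) :
    g0.trans g.symm ∈ Rot n := by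
  have h1 : LinearMap.det (g.toLinearEquiv : Space n →ₗ[ℝ] Space n) = 1 := hg
  have h2 : LinearMap.det (g0.toLinearEquiv : Space n →ₗ[ℝ] Space n) = 1 := hg0
  show LinearMap.det ((g0.trans g.symm).toLinearEquiv : Space n →ₗ[ℝ] Space n) = 1
  have h3 : (g0.toLinearEquiv : Space n →ₗ[ℝ] Space n) = (g.toLinearEquiv : Space n →ₗ[ℝ] Space n) ∘ₗ
      ((g0.trans g.symm).toLinearEquiv : Space n →ₗ[ℝ] Space n) := by
    ext x
    simp
  rw [h3, LinearMap.det_comp, h1, one_mul] at h2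
  exact h2

theorem loc_lin (hn : 3 ≤ n) {J : Type} {u : J → Space n} (hu : ∀ j, ‖u j‖ = 1) {b : J → ℝ} {v : Space n} (hv : v ≠ 0)
    (huv : ∀ j, ⟪u j, v⟫ = 0) {K : Set (Space n)} (hK : IsCompact K) (hne : K.Nonempty)
    {V : Set (Matrix (Fin n) (Fin n) ℝ)} (hV : IsOpen V)
    (hrot : ∀ A ∈ V, A ∈ Matrix.specialOrthogonalGroup (Fin n) ℝ → Touches u b K A) {j : J} (hj : Dep u j)
    {A0 : Matrix (Fin n) (Fin n) ℝ} (hA0 : A0 ∈ V) (hA0' : A0 ∈ Matrix.specialOrthogonalGroup (Fin n) ℝ) :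
    ∃ (c : Space n) (r η : ℝ), 0 < η ∧ ∀ x : Space n, ‖x‖ = 1 → ‖x - move A0.transpose 0 (u j)‖ < η →
      supp K x = ⟪c, x⟫ + r := by
  obtain ⟨g0, hg0, hm0, hm0t⟩ := rot_of_mat hA0'
  obtain ⟨m, k, lam, hm, hli, hlam, hrel⟩ := circ hu hj
  obtain ⟨ε, hε, hnear⟩ := near_mat hV hA0
  have hFE : ∀ g ∈ Rot n, Near ε g → supp K (g0.symm (g (u j))) =
      ∑ i, lam i * supp K (g0.symm (g (u (k i)))) + (b j - ∑ i, lam i * b (k i)) := by
    intro g hg hgn
    obtain ⟨A, hA, hmA, hmAt⟩ := mat_of_rot (rot_comp hg hg0)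
    have hAV : A ∈ V := by
      apply hnear
      intro x
      rw [hmA, hm0, add_zero, add_zero, LinearIsometryEquiv.trans_apply]
      have h1 := hgn (g.symm (g0 x))
      rw [LinearIsometryEquiv.apply_symm_apply, LinearIsometryEquiv.norm_map, LinearIsometryEquiv.norm_map,
        norm_sub_rev] at h1
      exact h1
    obtain ⟨t, ht⟩ := touch_supp hK hne hA (hrot A hAV hA)
    have h2 : ∀ i, supp K (g0.symm (g (u i))) = b i - ⟪u i, t⟫ := by
      intro i
      rw [← ht i, hmAt]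
      rfl
    rw [h2 j]
    simp only [h2]
    have h3 : ⟪u j, t⟫ = ∑ i, lam i * ⟪u (k i), t⟫ := by
      rw [hrel, sum_inner]
      refine Finset.sum_congr rfl fun i _ => ?_
      rw [real_inner_smul_left]
    rw [h3]
    simp only [mul_sub, Finset.sum_sub_distrib]
    ring
  obtain ⟨V', c, η, hη, hc⟩ := core hn (sup_comp (sup_supp hK hne) g0.symm) hε hm (hu j) (fun i => hu (k i)) hli
    hlam hrel hv (fun i => huv (k i)) hFE
  refine ⟨g0.symm V', c, η, hη, fun x hx hxn => ?_⟩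
  rw [hm0t] at hxn
  have h1 := hc (g0 x) (by rw [LinearIsometryEquiv.norm_map, hx]) (by
    rw [← LinearIsometryEquiv.norm_map g0.symm, map_sub, LinearIsometryEquiv.symm_apply_apply]
    exact hxn)
  simp only [LinearIsometryEquiv.symm_apply_apply] at h1
  rw [h1, ← LinearIsometryEquiv.inner_map_map g0 (g0.symm V') x, LinearIsometryEquiv.apply_symm_apply]

/-- unit vectors close to `y` in a direction orthogonal to `y` -/
private theorem near_unit {y e : Space n} (hy : ‖y‖ = 1) (hye : ⟪y, e⟫ = 0) {η : ℝ} (hη : 0 < η) :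
    ∃ δ : ℝ, 0 < δ ∧ ∀ s : ℝ, 0 < s → s < δ → 0 < ‖y + s • e‖ ∧ ‖y + s • e‖ ^ 2 = 1 + s ^ 2 * ‖e‖ ^ 2 ∧
      ‖‖y + s • e‖⁻¹ • (y + s • e)‖ = 1 ∧ ‖‖y + s • e‖⁻¹ • (y + s • e) - y‖ < η := by
  have hsq : ∀ s : ℝ, ‖y + s • e‖ ^ 2 = 1 + s ^ 2 * ‖e‖ ^ 2 := by
    intro s
    rw [norm_add_sq_real, inner_smul_right, hye, hy, norm_smul, mul_pow, Real.norm_eq_abs, sq_abs]
    ring
  have hpos : ∀ s : ℝ, 0 < ‖y + s • e‖ := by
    intro s
    have h1 : 0 < ‖y + s • e‖ ^ 2 := by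
      rw [hsq]
      positivity
    rcases (norm_nonneg (y + s • e)).lt_or_eq with h2 | h2
    · exact h2
    · rw [← h2] at h1
      norm_num at h1
  have hcont : ContinuousAt (fun s : ℝ => ‖y + s • e‖⁻¹ • (y + s • e)) 0 := by
    have h1 : ContinuousAt (fun s : ℝ => y + s • e) 0 := by fun_prop
    exact (h1.norm.inv₀ (hpos 0).ne').smul h1
  obtain ⟨δ, hδ, hb⟩ := Metric.continuousAt_iff.mp hcont η hη
  refine ⟨δ, hδ, fun s hs hsδ => ⟨hpos s, hsq s, ?_, ?_⟩⟩
  · rw [norm_smul, norm_inv, norm_norm, inv_mul_cancel₀ (hpos s).ne']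
  · have h1 := hb (x := s) (by rw [Real.dist_eq, sub_zero, abs_of_pos hs]; exact hsδ)
    simp only [zero_smul, add_zero, hy, inv_one, one_smul] at h1
    rwa [dist_eq_norm] at h1

/-- a point of contact -/
private theorem contact_eq {K : Set (Space n)} (hK : IsCompact K) (hne : K.Nonempty) {c y : Space n} {r η : ℝ}
    (hη : 0 < η) (hy : ‖y‖ = 1) (h : ∀ x : Space n, ‖x‖ = 1 → ‖x - y‖ < η → supp K x = ⟪c, x⟫ + r)
    {z : Space n} (hz : z ∈ K) (hzy : ⟪z, y⟫ = supp K y) : z = c + r • y := by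
  have hy0 := h y hy (by rw [sub_self, norm_zero]; exact hη)
  set e := z - c - r • y with he
  have hyy : ⟪y, y⟫ = (1 : ℝ) := by rw [real_inner_self_eq_norm_sq, hy, one_pow]
  have hye : ⟪y, e⟫ = 0 := by
    rw [he, inner_sub_right, inner_sub_right, inner_smul_right, hyy, real_inner_comm, hzy, hy0, real_inner_comm y c]
    ring
  have hz' : z - c = r • y + e := by
    rw [he]
    abel
  suffices h0 : e = 0 by
    rw [h0, add_zero] at hz'
    rw [← hz']
    abel
  by_contra hne0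
  have hep : 0 < ‖e‖ ^ 2 := by
    have := norm_pos_iff.mpr hne0
    positivity
  obtain ⟨δ, hδ, hs⟩ := near_unit hy hye hη
  -- choose s
  set s := min (δ / 2) (1 / (|r| + 1)) with hsdef
  have hs0 : 0 < s := by
    apply lt_min
    · positivity
    · positivity
  have hsδ : s < δ := lt_of_le_of_lt (min_le_left _ _) (by linarith)
  have hsr : s * (|r| + 1) ≤ 1 := by
    have h1 : s ≤ 1 / (|r| + 1) := min_le_right _ _
    have h2 : 0 < |r| + 1 := by positivity
    calc s * (|r| + 1) ≤ 1 / (|r| + 1) * (|r| + 1) := mul_le_mul_of_nonneg_right h1 h2.le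
      _ = 1 := by field_simp
  obtain ⟨hN, hN2, hu1, hu2⟩ := hs s hs0 hsδ
  set N := ‖y + s • e‖ with hNdef
  have h1 := le_supp hK hne hz (N⁻¹ • (y + s • e))
  rw [h _ hu1 hu2] at h1
  have h2 : ⟪z - c, N⁻¹ • (y + s • e)⟫ ≤ r := by
    rw [inner_sub_left]
    linarith
  have hee : ⟪e, e⟫ = ‖e‖ ^ 2 := real_inner_self_eq_norm_sq e
  rw [hz', inner_smul_right, inner_add_left, inner_smul_left, inner_add_right, inner_add_right, inner_smul_right,
    inner_smul_right, hyy, hye, real_inner_comm y e, hye, hee] at h2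
  simp only [conj_trivial] at h2
  have h3 : N⁻¹ * (r + s * ‖e‖ ^ 2) ≤ r := by
    calc N⁻¹ * (r + s * ‖e‖ ^ 2) = N⁻¹ * (r * (1 + s * 0) + (0 + s * ‖e‖ ^ 2)) := by ring
      _ ≤ r := h2
  have h4 : r + s * ‖e‖ ^ 2 ≤ r * N := by
    have := mul_le_mul_of_nonneg_left h3 hN.le
    rw [← mul_assoc, mul_inv_cancel₀ hN.ne', one_mul] at this
    linarith
  -- `N - 1 ≤ (N ^ 2 - 1) / 2`
  have hN1 : 1 ≤ N := by
    by_contra hlt
    have hlt' : N < 1 := not_le.mp hlt
    have : N ^ 2 < 1 := by nlinarith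
    rw [hN2] at this
    have : 0 ≤ s ^ 2 * ‖e‖ ^ 2 := by positivity
    linarith
  have h5 : r * (N - 1) ≤ |r| * ((N ^ 2 - 1) / 2) := by
    have ha : r * (N - 1) ≤ |r| * (N - 1) := mul_le_mul_of_nonneg_right (le_abs_self r) (by linarith)
    have hb : N - 1 ≤ (N ^ 2 - 1) / 2 := by nlinarith [sq_nonneg (N - 1)]
    exact ha.trans (mul_le_mul_of_nonneg_left hb (abs_nonneg r))
  rw [hN2] at h5
  have h6 : s * ‖e‖ ^ 2 ≤ |r| * ((1 + s ^ 2 * ‖e‖ ^ 2 - 1) / 2) := by linarith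
  have h7 : |r| * ((1 + s ^ 2 * ‖e‖ ^ 2 - 1) / 2) = (s * |r| / 2) * (s * ‖e‖ ^ 2) := by ring
  rw [h7] at h6
  have h8 : 0 < s * ‖e‖ ^ 2 := by positivity
  have h9 : s * |r| / 2 < 1 := by
    have : s * |r| ≤ 1 := by linarith [hs0]
    linarith
  nlinarith

theorem unique_contact (hn : 2 ≤ n) {K : Set (Space n)} (hK : IsCompact K) (hne : K.Nonempty) {c y : Space n} {r η : ℝ}
    (hη : 0 < η) (hy : ‖y‖ = 1) (h : ∀ x : Space n, ‖x‖ = 1 → ‖x - y‖ < η → supp K x = ⟪c, x⟫ + r) :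
    0 ≤ r ∧ c + r • y ∈ K ∧ ∀ x ∈ K, x ≠ c + r • y → ⟪x - c, y⟫ < r := by
  have hy0 := h y hy (by rw [sub_self, norm_zero]; exact hη)
  have hyy : ⟪y, y⟫ = (1 : ℝ) := by rw [real_inner_self_eq_norm_sq, hy, one_pow]
  have hmem : c + r • y ∈ K := by
    obtain ⟨⟨z, hz, he⟩, -⟩ := supp_isGreatest hK hne y
    rw [← contact_eq hK hne hη hy h hz he]
    exact hz
  refine ⟨?_, hmem, fun x hx hxne => ?_⟩
  · -- a unit vector orthogonal to `y`
    obtain ⟨e, he, hye⟩ : ∃ e : Space n, e ≠ 0 ∧ ⟪y, e⟫ = 0 := by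
      have h1 : (ℝ ∙ y)ᗮ ≠ ⊥ := by
        intro hbot
        have h2 : Module.finrank ℝ (ℝ ∙ y) + Module.finrank ℝ ((ℝ ∙ y)ᗮ : Submodule ℝ (Space n)) =
            Module.finrank ℝ (Space n) := Submodule.finrank_add_finrank_orthogonal _
        have hy00 : y ≠ 0 := by
          intro h0
          rw [h0, norm_zero] at hy
          norm_num at hy
        rw [hbot, finrank_bot, finrank_span_singleton hy00, finrank_euclideanSpace, Fintype.card_fin] at h2
        omega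
      obtain ⟨e, he, he0⟩ := Submodule.exists_mem_ne_zero_of_ne_bot h1
      exact ⟨e, he0, Submodule.mem_orthogonal_singleton_iff_inner_right.mp he⟩
    obtain ⟨δ, hδ, hs⟩ := near_unit hy hye hη
    have hs0 : 0 < δ / 2 := by positivity
    obtain ⟨hN, hN2, hu1, hu2⟩ := hs (δ / 2) hs0 (by linarith)
    set N := ‖y + (δ / 2) • e‖ with hNdef
    have h1 := le_supp hK hne hmem (N⁻¹ • (y + (δ / 2) • e))
    rw [h _ hu1 hu2] at h1
    have h2 : ⟪r • y, N⁻¹ • (y + (δ / 2) • e)⟫ ≤ r := by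
      rw [inner_add_left] at h1
      linarith
    rw [inner_smul_left, inner_smul_right, inner_add_right, inner_smul_right, hyy, hye] at h2
    simp only [conj_trivial] at h2
    have hN1 : 1 < N := by
      by_contra hlt
      have hlt' : N ≤ 1 := not_lt.mp hlt
      have h3 : N ^ 2 ≤ 1 := by nlinarith
      rw [hN2] at h3
      have h4 : 0 < (δ / 2) ^ 2 * ‖e‖ ^ 2 := by
        have := norm_pos_iff.mpr he
        positivity
      linarith
    have h3 : r ≤ r * N := by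
      have := mul_le_mul_of_nonneg_left h2 hN.le
      have h4 : N * (r * (N⁻¹ * (1 + δ / 2 * 0))) = r := by
        rw [mul_zero, add_zero, mul_one, mul_comm r, ← mul_assoc, mul_inv_cancel₀ hN.ne', one_mul]
      rw [h4] at this
      linarith
    by_contra hr
    have hr' : r < 0 := not_le.mp hr
    nlinarith
  · have h1 := le_supp hK hne hx y
    have h2 : ⟪x, y⟫ ≠ supp K y := fun heq => hxne (contact_eq hK hne hη hy h hx heq)
    have h3 : ⟪x, y⟫ < supp K y := lt_of_le_of_ne h1 h2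
    rw [inner_sub_left]
    linarith

theorem local_rigidity (hn : 3 ≤ n) {J : Type} {u : J → Space n} (hu : ∀ j, ‖u j‖ = 1) {b : J → ℝ} {v : Space n}
    (hv : v ≠ 0) (huv : ∀ j, ⟪u j, v⟫ = 0) {K : Set (Space n)} (hK : IsCompact K) (hne : K.Nonempty)
    {V : Set (Matrix (Fin n) (Fin n) ℝ)} (hV : IsOpen V)
    (hrot : ∀ A ∈ V, A ∈ Matrix.specialOrthogonalGroup (Fin n) ℝ → Touches u b K A) {j : J} (hj : Dep u j)
    {A0 : Matrix (Fin n) (Fin n) ℝ} (hA0 : A0 ∈ V) (hA0' : A0 ∈ Matrix.specialOrthogonalGroup (Fin n) ℝ) :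
    ∃ W : Set (Matrix (Fin n) (Fin n) ℝ), IsOpen W ∧ A0 ∈ W ∧ ∃ (c : Space n) (r : ℝ), 0 ≤ r ∧
      ∀ A ∈ W, A ∈ Matrix.specialOrthogonalGroup (Fin n) ℝ →
        c + r • move A.transpose 0 (u j) ∈ K ∧
        ∀ x ∈ K, x ≠ c + r • move A.transpose 0 (u j) → ⟪x - c, move A.transpose 0 (u j)⟫ < r := by
  obtain ⟨c, r, η, hη, hlin⟩ := loc_lin hn hu hv huv hK hne hV hrot hj hA0 hA0'
  have hnorm : ∀ A ∈ Matrix.specialOrthogonalGroup (Fin n) ℝ, ‖move A.transpose 0 (u j)‖ = 1 := by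
    intro A hA
    obtain ⟨g, -, -, hgt⟩ := rot_of_mat hA
    rw [hgt, LinearIsometryEquiv.norm_map, hu]
  refine ⟨{A | ‖move A.transpose 0 (u j) - move A0.transpose 0 (u j)‖ < η}, ?_, ?_, c, r, ?_, ?_⟩
  · exact isOpen_lt ((continuous_move (u j)).sub continuous_const).norm continuous_const
  · rw [Set.mem_ofPred_eq, sub_self, norm_zero]
    exact hη
  · exact (unique_contact (by omega) hK hne hη (hnorm A0 hA0') hlin).1
  · intro A hAW hA
    rw [Set.mem_ofPred_eq] at hAW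
    have h1 : ∀ x : Space n, ‖x‖ = 1 → ‖x - move A.transpose 0 (u j)‖ <
        η - ‖move A.transpose 0 (u j) - move A0.transpose 0 (u j)‖ → supp K x = ⟪c, x⟫ + r := by
      intro x hx hxn
      apply hlin x hx
      calc ‖x - move A0.transpose 0 (u j)‖ = ‖(x - move A.transpose 0 (u j)) +
            (move A.transpose 0 (u j) - move A0.transpose 0 (u j))‖ := by
            congr 1
            abel
        _ ≤ _ := norm_add_le _ _
        _ < η := by linarith
    exact (unique_contact (by omega) hK hne (by linarith) (hnorm A hA) h1).2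

end Pool.Agent.H34.RT
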