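import Mathlib
import Pool.Agent.H25.RotC

/-!
# Rotors in a regular triangular prism are balls

We prove that a convex body in Euclidean 3-space is a rotor in the infinite regular triangular
prism over an equilateral triangle of side `a` if and only if it is a closed ball whose radius is
the inradius `a / (2 * √3)` of the triangle.
-/

open scoped RealInnerProductSpace

namespace Pool.Agent.H34.RT.Prism

/-- Euclidean 3-space. -/
abbrev Space : Type := EuclideanSpace ℝ (Fin 3)

/-- The infinite prism `T × ℝ`, where `T` is the triangle with vertices `p 0`, `p 1`, `p 2`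
(used for vertices in the plane `z = 0`): all points whose first two coordinates agree with those
of a point of `T`. -/
def prism (p : Fin 3 → Space) : Set Space :=
  {x | ∃ y ∈ convexHull ℝ (Set.range p), x 0 = y 0 ∧ x 1 = y 1}

/-- The face `e × ℝ` of the prism, where `e` is the edge of `T` opposite to the vertex `p i`
(indices modulo 3). -/
def face (p : Fin 3 → Space) (i : Fin 3) : Set Space :=
  {x | ∃ y ∈ segment ℝ (p (i + 1)) (p (i + 2)), x 0 = y 0 ∧ x 1 = y 1}

/-- The point `A x + t`, for a matrix `A` and vectors `t`, `x`. -/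
noncomputable def move (A : Matrix (Fin 3) (Fin 3) ℝ) (t x : Space) : Space :=
  WithLp.toLp 2 (A.mulVec x.ofLp) + t

/-- `K` is a rotor in the prism over the triangle with vertices `p 0`, `p 1`, `p 2`: for every
rotation `A ∈ SO(3)` there is a translation vector `t` such that `A K + t` lies in the prism and
meets each of the three faces. -/
def IsRotor (p : Fin 3 → Space) (K : Set Space) : Prop :=
  ∀ A ∈ Matrix.specialOrthogonalGroup (Fin 3) ℝ, ∃ t : Space,
    (∀ x ∈ K, move A t x ∈ prism p) ∧ ∀ i : Fin 3, ∃ x ∈ K, move A t x ∈ face p i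

open Pool.Agent.H25.Rot

section geometry

variable (p : Fin 3 → E3) (hz : ∀ i, p i 2 = 0) (a : ℝ) (ha : 0 < a)
  (heq : ∀ i j, i ≠ j → dist (p i) (p j) = a)

/-- centroid -/
noncomputable def cen (p : Fin 3 → E3) : E3 := (1/3 : ℝ) • (p 0 + p 1 + p 2)

/-- outward normals (not normalised) -/
noncomputable def nrm (p : Fin 3 → E3) (i : Fin 3) : E3 := cen p - p i

lemma nrm_sum : nrm p 0 + nrm p 1 + nrm p 2 = 0 := by
  unfold nrm cen
  module

lemma p_eq (i : Fin 3) : p i = cen p - nrm p i := by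
  unfold nrm; abel

include hz in
lemma nrm_two (i : Fin 3) : nrm p i 2 = 0 := by
  unfold nrm cen
  simp [hz]

include heq in
lemma nrm_inner (i j : Fin 3) : ⟪nrm p i, nrm p j⟫ = if i = j then a ^ 2 / 3 else - a ^ 2 / 6 := by
  have d : ∀ i j, i ≠ j → ‖nrm p j - nrm p i‖ ^ 2 = a ^ 2 := by
    intro i j hij
    have : nrm p j - nrm p i = p i - p j := by unfold nrm; abel
    rw [this, ← dist_eq_norm, heq i j hij]
  have d01 := d 0 1 (by decide)
  have d02 := d 0 2 (by decide)
  have d12 := d 1 2 (by decide)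
  have h2 : nrm p 2 = -(nrm p 0 + nrm p 1) := by
    rw [eq_neg_iff_add_eq_zero, add_comm]; exact nrm_sum p
  rw [h2] at d02 d12
  have e1 : -(nrm p 0 + nrm p 1) - nrm p 0 = -((2:ℝ) • nrm p 0 + nrm p 1) := by module
  have e2 : -(nrm p 0 + nrm p 1) - nrm p 1 = -(nrm p 0 + (2:ℝ) • nrm p 1) := by module
  rw [e1, norm_neg, norm_add_sq_real, inner_smul_left, norm_smul] at d02
  rw [e2, norm_neg, norm_add_sq_real, inner_smul_right, norm_smul] at d12
  rw [norm_sub_sq_real, real_inner_comm] at d01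
  simp only [conj_trivial, Real.norm_ofNat] at d02 d12
  have s0 : ‖nrm p 0‖ ^ 2 = a ^ 2 / 3 := by linarith
  have s1 : ‖nrm p 1‖ ^ 2 = a ^ 2 / 3 := by linarith
  have s01 : ⟪nrm p 0, nrm p 1⟫ = - a ^ 2 / 6 := by linarith
  have t00 : ⟪nrm p 0, nrm p 0⟫ = a ^ 2 / 3 := by rw [real_inner_self_eq_norm_sq, s0]
  have t11 : ⟪nrm p 1, nrm p 1⟫ = a ^ 2 / 3 := by rw [real_inner_self_eq_norm_sq, s1]
  have t10 : ⟪nrm p 1, nrm p 0⟫ = - a ^ 2 / 6 := by rw [real_inner_comm, s01]
  fin_cases i <;> fin_cases j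
  · simpa using t00
  · simpa using s01
  · simp only [Fin.zero_eta, Fin.reduceFinMk, h2, inner_neg_right, inner_add_right, t00, s01]
    simp; ring
  · simpa using t10
  · simpa using t11
  · simp only [Fin.mk_one, Fin.reduceFinMk, h2, inner_neg_right, inner_add_right, t11, t10]
    simp; ring
  · simp only [Fin.zero_eta, Fin.reduceFinMk, h2, inner_neg_left, inner_add_left, t00, t10]
    simp; ring
  · simp only [Fin.mk_one, Fin.reduceFinMk, h2, inner_neg_left, inner_add_left, t11, s01]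
    simp; ring
  · simp only [Fin.reduceFinMk, h2, inner_neg_left, inner_add_left, inner_neg_right,
      inner_add_right, t11, s01, t00, t10]
    simp; ring

include heq in
lemma hull_le (i : Fin 3) (y : E3) (hy : y ∈ convexHull ℝ (Set.range p)) :
    ⟪y - cen p, nrm p i⟫ ≤ a ^ 2 / 6 := by
  have hconv : Convex ℝ {y : E3 | ⟪y - cen p, nrm p i⟫ ≤ a ^ 2 / 6} := by
    intro y hy z hz s t hs ht hst
    simp only [Set.mem_ofPred_eq] at hy hz ⊢
    have : s • y + t • z - cen p = s • (y - cen p) + t • (z - cen p) := by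
      rw [smul_sub, smul_sub]
      have : cen p = s • cen p + t • cen p := by rw [← add_smul, hst, one_smul]
      conv_lhs => rw [this]
      abel
    rw [this, inner_add_left, inner_smul_left, inner_smul_left]
    simp only [conj_trivial]
    nlinarith
  refine convexHull_min ?_ hconv hy
  rintro _ ⟨j, rfl⟩
  simp only [Set.mem_ofPred_eq]
  have : p j - cen p = - nrm p j := by unfold nrm; abel
  rw [this, inner_neg_left, nrm_inner p a heq]
  split_ifs
  · nlinarith [sq_nonneg a]
  · linarith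

include heq in
lemma seg_eq (i : Fin 3) (y : E3) (hy : y ∈ segment ℝ (p (i + 1)) (p (i + 2))) :
    ⟪y - cen p, nrm p i⟫ = a ^ 2 / 6 := by
  obtain ⟨s, t, hs, ht, hst, rfl⟩ := hy
  have : s • p (i + 1) + t • p (i + 2) - cen p = -(s • nrm p (i + 1) + t • nrm p (i + 2)) := by
    unfold nrm
    have : cen p = s • cen p + t • cen p := by rw [← add_smul, hst, one_smul]
    conv_lhs => rw [this]
    rw [smul_sub, smul_sub]
    abel
  rw [this, inner_neg_left, inner_add_left, inner_smul_left, inner_smul_left,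
    nrm_inner p a heq, nrm_inner p a heq]
  have h1 : i + 1 ≠ i := by fin_cases i <;> decide
  have h2 : i + 2 ≠ i := by fin_cases i <;> decide
  simp only [h1, h2, if_false, conj_trivial]
  linear_combination (a ^ 2 / 6) * hst

include hz in
/-- the normals do not see the third coordinate -/
lemma inner_flat (x y c : E3) (i : Fin 3) (h0 : x 0 = y 0) (h1 : x 1 = y 1) :
    ⟪x - c, nrm p i⟫ = ⟪y - c, nrm p i⟫ := by
  rw [inner_eq, inner_eq, nrm_two p hz]
  simp [h0, h1]

end geometry

/-- the matrix of a linear isometry of determinant one is in `SO(3)` -/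
lemma matrix_of_iso (ρ : E3 ≃ₗᵢ[ℝ] E3)
    (hdet : LinearMap.det (ρ.toLinearEquiv : E3 →ₗ[ℝ] E3) = 1) :
    ∃ A ∈ Matrix.specialOrthogonalGroup (Fin 3) ℝ, ∀ t x : E3, move A t x = ρ x + t := by
  set b := (EuclideanSpace.basisFun (Fin 3) ℝ).toBasis with hb
  set A := LinearMap.toMatrix b b (ρ.toLinearEquiv : E3 →ₗ[ℝ] E3) with hA
  have hAij : ∀ i j, A i j = ρ (EuclideanSpace.single j 1) i := by
    intro i j
    rw [hA, LinearMap.toMatrix_apply]
    simp [hb]
  have horth : A.transpose * A = 1 := by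
    ext i j
    rw [Matrix.mul_apply]
    simp only [Matrix.transpose_apply, hAij]
    have h1 : ∑ k, ρ (EuclideanSpace.single i 1) k * ρ (EuclideanSpace.single j 1) k =
        ⟪ρ (EuclideanSpace.single i (1:ℝ)), ρ (EuclideanSpace.single j (1:ℝ))⟫ := by
      rw [Fin.sum_univ_three, inner_eq]
    rw [h1, LinearIsometryEquiv.inner_map_map, EuclideanSpace.inner_single_left]
    by_cases hij : i = j
    · subst hij
      rw [Matrix.one_apply_eq]
      simp
    · simp [hij, Matrix.one_apply_ne hij]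
  refine ⟨A, ?_, ?_⟩
  · rw [Matrix.mem_specialOrthogonalGroup_iff, Matrix.mem_orthogonalGroup_iff']
    refine ⟨?_, ?_⟩
    · exact horth
    · rw [hA, LinearMap.det_toMatrix, hdet]
  · intro t x
    unfold move
    congr 1
    ext i
    have h2 := LinearMap.toMatrix_mulVec_repr b b (ρ.toLinearEquiv : E3 →ₗ[ℝ] E3) x
    have h4 : (⇑(b.repr x) : Fin 3 → ℝ) = x.ofLp := by
      ext k
      simp [hb]
    have h5 : ∀ y : E3, (⇑(b.repr y) : Fin 3 → ℝ) i = y i := by
      intro y
      simp [hb]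
    rw [h4] at h2
    have h3 := congrFun h2 i
    rw [h5] at h3
    exact h3

/-- an orthogonal matrix defines a linear isometry -/
lemma iso_of_matrix (A : Matrix (Fin 3) (Fin 3) ℝ)
    (hA : A ∈ Matrix.specialOrthogonalGroup (Fin 3) ℝ) :
    ∃ ρ : E3 ≃ₗᵢ[ℝ] E3, ∀ t x : E3, move A t x = ρ x + t := by
  rw [Matrix.mem_specialOrthogonalGroup_iff, Matrix.mem_orthogonalGroup_iff'] at hA
  have hn : ∀ x : E3, ‖Matrix.toEuclideanLin A x‖ = ‖x‖ := by
    intro x
    have h1 : ‖Matrix.toEuclideanLin A x‖ ^ 2 = ‖x‖ ^ 2 := by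
      have e : ∀ y : E3, ‖y‖ ^ 2 = y.ofLp ⬝ᵥ y.ofLp := by
        intro y
        rw [norm_sq_eq]
        simp [dotProduct, Fin.sum_univ_three]
        ring
      rw [e, e]
      change (A.mulVec x.ofLp) ⬝ᵥ (A.mulVec x.ofLp) = x.ofLp ⬝ᵥ x.ofLp
      rw [Matrix.dotProduct_mulVec, Matrix.vecMul_mulVec,
        ← Matrix.dotProduct_mulVec]
      have : A.transpose * A = 1 := hA.1
      rw [this, Matrix.one_mulVec]
    exact (sq_eq_sq₀ (norm_nonneg _) (norm_nonneg _)).mp h1
  refine ⟨LinearIsometry.toLinearIsometryEquiv ⟨Matrix.toEuclideanLin A, hn⟩ rfl, ?_⟩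
  intro t x
  rfl

/-- rotors satisfy the defining property for linear isometries of determinant one -/
lemma rotor_iso {p : Fin 3 → E3} {K : Set E3} (h : IsRotor p K) (ρ : E3 ≃ₗᵢ[ℝ] E3)
    (hdet : LinearMap.det (ρ.toLinearEquiv : E3 →ₗ[ℝ] E3) = 1) :
    ∃ t : E3, (∀ x ∈ K, ρ x + t ∈ prism p) ∧ ∀ i : Fin 3, ∃ x ∈ K, ρ x + t ∈ face p i := by
  obtain ⟨A, hA, hmove⟩ := matrix_of_iso ρ hdet
  obtain ⟨t, h1, h2⟩ := h A hA
  refine ⟨t, ?_, ?_⟩
  · intro x hx
    rw [← hmove]
    exact h1 x hx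
  · intro i
    obtain ⟨x, hx, hf⟩ := h2 i
    exact ⟨x, hx, by rw [← hmove]; exact hf⟩

/-- sum of the support function over rotated normals -/
lemma supp_sum (p : Fin 3 → E3) (hz : ∀ i, p i 2 = 0) (a : ℝ)
    (heq : ∀ i j, i ≠ j → dist (p i) (p j) = a) (K : Set E3) (hK : IsCompact K)
    (hne : K.Nonempty) (hrot : IsRotor p K) (ρ : E3 ≃ₗᵢ[ℝ] E3)
    (hdet : LinearMap.det (ρ.toLinearEquiv : E3 →ₗ[ℝ] E3) = 1 ∨
      LinearMap.det (ρ.toLinearEquiv : E3 →ₗ[ℝ] E3) = -1) :
    supp K (ρ.symm (nrm p 0)) + supp K (ρ.symm (nrm p 1)) + supp K (ρ.symm (nrm p 2)) =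
      a ^ 2 / 2 := by
  -- first the case of determinant one
  have key : ∀ ρ : E3 ≃ₗᵢ[ℝ] E3, LinearMap.det (ρ.toLinearEquiv : E3 →ₗ[ℝ] E3) = 1 →
      supp K (ρ.symm (nrm p 0)) + supp K (ρ.symm (nrm p 1)) + supp K (ρ.symm (nrm p 2)) =
      a ^ 2 / 2 := by
    intro ρ hρ
    obtain ⟨t, ht1, ht2⟩ := rotor_iso hrot ρ hρ
    have h : ∀ i, supp K (ρ.symm (nrm p i)) = a ^ 2 / 6 - ⟪t - cen p, nrm p i⟫ := by
      intro i
      have hx : ∀ x : E3, ⟪x, ρ.symm (nrm p i)⟫ = ⟪ρ x, nrm p i⟫ := by
        intro x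
        rw [← LinearIsometryEquiv.inner_map_map ρ x, LinearIsometryEquiv.apply_symm_apply]
      have hx2 : ∀ x : E3, ⟪ρ x + t - cen p, nrm p i⟫ = ⟪ρ x, nrm p i⟫ + ⟪t - cen p, nrm p i⟫ := by
        intro x
        rw [← inner_add_left]
        congr 1
        abel
      apply supp_eq hK hne
      · intro x hxK
        obtain ⟨y, hy, h0, h1⟩ := ht1 x hxK
        have h2 := hull_le p a heq i y hy
        rw [← inner_flat p hz _ y _ i h0 h1, hx2] at h2
        rw [hx]
        linarith
      · obtain ⟨x, hxK, y, hy, h0, h1⟩ := ht2 i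
        have h2 := seg_eq p a heq i y hy
        rw [← inner_flat p hz _ y _ i h0 h1, hx2] at h2
        refine ⟨x, hxK, ?_⟩
        rw [hx]
        linarith
    rw [h, h, h]
    have : ⟪t - cen p, nrm p 0⟫ + ⟪t - cen p, nrm p 1⟫ + ⟪t - cen p, nrm p 2⟫ = 0 := by
      rw [← inner_add_right, ← inner_add_right, nrm_sum, inner_zero_right]
    linarith
  rcases hdet with hdet | hdet
  · exact key ρ hdet
  · -- compose with the reflection in the plane z = 0
    set S : E3 ≃ₗᵢ[ℝ] E3 := Submodule.reflection (ℝ ∙ e2)ᗮ with hS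
    have hSdet : LinearMap.det (S.toLinearEquiv : E3 →ₗ[ℝ] E3) = -1 := by
      have h1 : LinearMap.det (S.toLinearEquiv : E3 →ₗ[ℝ] E3) = _ := Submodule.det_reflection _
      rw [h1, Submodule.orthogonal_orthogonal, finrank_span_singleton]
      · norm_num
      · intro h
        have := e2_norm
        rw [h, norm_zero] at this
        exact zero_ne_one this
    have hSn : ∀ i, S (nrm p i) = nrm p i := by
      intro i
      rw [hS]
      apply Submodule.reflection_mem_subspace_eq_self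
      rw [Submodule.mem_orthogonal_singleton_iff_inner_left, inner_e2, nrm_two p hz]
    have hSn' : ∀ i, S.symm (nrm p i) = nrm p i := by
      intro i
      rw [LinearIsometryEquiv.symm_apply_eq, hSn]
    have h2 := key (ρ.trans S) (by
      have hcomp : ((ρ.trans S).toLinearEquiv : E3 →ₗ[ℝ] E3) =
        (S.toLinearEquiv : E3 →ₗ[ℝ] E3) ∘ₗ (ρ.toLinearEquiv : E3 →ₗ[ℝ] E3) := rfl
      rw [hcomp, LinearMap.det_comp, hSdet, hdet]
      norm_num)
    simpa [LinearIsometryEquiv.symm_trans, hSn'] using h2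

/-- rotors are balls -/
lemma rotor_ball (p : Fin 3 → E3) (hz : ∀ i, p i 2 = 0) (a : ℝ) (ha : 0 < a)
    (heq : ∀ i j, i ≠ j → dist (p i) (p j) = a) (K : Set E3) (hK : IsCompact K)
    (hconv : Convex ℝ K) (hne : K.Nonempty) (hrot : IsRotor p K) :
    ∃ c, K = Metric.closedBall c (a / (2 * Real.sqrt 3)) := by
  have hs3 : Real.sqrt 3 ^ 2 = 3 := Real.sq_sqrt (by norm_num)
  have hs3p : 0 < Real.sqrt 3 := Real.sqrt_pos.mpr (by norm_num)
  set r := a / (2 * Real.sqrt 3) with hr
  have hrpos : 0 < r := by positivity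
  -- unit normals
  set k := Real.sqrt 3 / a with hk
  have hkpos : 0 < k := by positivity
  have hun : ∀ i, ‖k • nrm p i‖ = 1 := by
    intro i
    have h1 : ‖nrm p i‖ ^ 2 = a ^ 2 / 3 := by
      rw [← real_inner_self_eq_norm_sq, nrm_inner p a heq]; simp
    have h2 : ‖k • nrm p i‖ ^ 2 = 1 := by
      rw [norm_smul, mul_pow, h1, Real.norm_eq_abs, sq_abs, hk, div_pow, hs3]
      field_simp
    nlinarith [norm_nonneg (k • nrm p i)]
  have hus : k • nrm p 0 + k • nrm p 1 + k • nrm p 2 = 0 := by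
    rw [← smul_add, ← smul_add, nrm_sum, smul_zero]
  -- the function
  have htr : Trine (fun v => supp K v - r * ‖v‖) := by
    intro v hv hv0
    obtain ⟨ρ, hρ, hdet⟩ := exists_iso v (fun i => k • nrm p i) hv hun hv0 hus
    have h1 := supp_sum p hz a heq K hK hne hrot ρ hdet
    have h2 : ∀ i, supp K (v i) = k * supp K (ρ.symm (nrm p i)) := by
      intro i
      have h3 : v i = k • ρ.symm (nrm p i) := by
        rw [← map_smul, LinearIsometryEquiv.eq_symm_apply]
        exact hρ i
      rw [h3, supp_smul hK hne _ _ hkpos.le]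
    simp only [h2, hv]
    have h3 : k * (a ^ 2 / 2) = 3 * r := by
      rw [hk, hr]
      field_simp
      linarith
    linear_combination k * h1 + h3
  obtain ⟨V, hV⟩ := linear_of_trine (f := fun v => supp K v - r * ‖v‖)
    ((supp_continuous hK hne).sub (continuous_const.mul continuous_norm)) htr (by
      intro c x hc
      simp only [supp_smul hK hne _ _ hc, norm_smul, Real.norm_eq_abs, abs_of_nonneg hc]
      ring)
  refine ⟨V, eq_closedBall hK hne hconv V r hrpos.le ?_⟩
  intro v hv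
  have := hV v hv
  simp only [hv] at this
  linarith

/-- planar reconstruction: a planar vector is recovered from its products with the normals -/
lemma planar (p : Fin 3 → E3) (hz : ∀ i, p i 2 = 0) (a : ℝ) (ha : 0 < a)
    (heq : ∀ i j, i ≠ j → dist (p i) (p j) = a) (q : E3) (hq : q 2 = 0) :
    ⟪q, nrm p 0⟫ • nrm p 0 + ⟪q, nrm p 1⟫ • nrm p 1 + ⟪q, nrm p 2⟫ • nrm p 2 =
      (a ^ 2 / 2) • q := by
  have h2 : nrm p 2 = -(nrm p 0 + nrm p 1) := by
    rw [eq_neg_iff_add_eq_zero, add_comm]; exact nrm_sum p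
  have h00 := nrm_inner p a heq 0 0
  have h01 := nrm_inner p a heq 0 1
  have h11 := nrm_inner p a heq 1 1
  rw [inner_eq, nrm_two p hz] at h00 h01 h11
  simp only [if_true, Fin.isValue, zero_ne_one, if_false] at h00 h01 h11
  set α := nrm p 0 0 with hα
  set β := nrm p 0 1 with hβ
  set γ := nrm p 1 0 with hγ
  set δ := nrm p 1 1 with hδ
  have hD : (α * δ - β * γ) ^ 2 = a ^ 4 / 12 := by
    have g00 : α * α + β * β = a ^ 2 / 3 := by linarith
    have g11 : γ * γ + δ * δ = a ^ 2 / 3 := by linarith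
    have g01 : α * γ + β * δ = -a ^ 2 / 6 := by linarith
    have : (α * δ - β * γ) ^ 2 = (α * α + β * β) * (γ * γ + δ * δ)
      - (α * γ + β * δ) ^ 2 := by ring
    rw [this, g00, g11, g01]
    ring
  have hD0 : α * δ - β * γ ≠ 0 := by
    intro h
    rw [h] at hD
    have : 0 < a ^ 4 := by positivity
    norm_num at hD
    linarith
  -- quadratic identities
  have hneg : -a ^ 2 / 6 = -(a ^ 2 / 6) := by ring
  -- both sides have the same products with the two independent normals
  set w := ⟪q, nrm p 0⟫ • nrm p 0 + ⟪q, nrm p 1⟫ • nrm p 1 + ⟪q, nrm p 2⟫ • nrm p 2 -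
      (a ^ 2 / 2) • q with hw
  have hw2 : w 2 = 0 := by
    simp [hw, nrm_two p hz, hq]
  have hin : ∀ i, ⟪w, nrm p i⟫ = 0 := by
    intro i
    rw [hw, inner_sub_left, inner_add_left, inner_add_left, inner_smul_left, inner_smul_left,
      inner_smul_left, inner_smul_left, nrm_inner p a heq, nrm_inner p a heq, nrm_inner p a heq]
    have hs : ⟪q, nrm p 0⟫ + ⟪q, nrm p 1⟫ + ⟪q, nrm p 2⟫ = 0 := by
      rw [← inner_add_right, ← inner_add_right, nrm_sum, inner_zero_right]
    fin_cases i
    · simp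
      linear_combination (-a ^ 2 / 6) * hs
    · simp
      linear_combination (-a ^ 2 / 6) * hs
    · simp
      linear_combination (-a ^ 2 / 6) * hs
  have e0 := hin 0
  have e1 := hin 1
  rw [inner_eq, nrm_two p hz, ← hα, ← hβ] at e0
  rw [inner_eq, nrm_two p hz, ← hγ, ← hδ] at e1
  have hw0 : w 0 = 0 := by
    have : (α * δ - β * γ) * w 0 = 0 := by linear_combination δ * e0 - β * e1
    exact (mul_eq_zero.mp this).resolve_left hD0
  have hw1 : w 1 = 0 := by
    have : (α * δ - β * γ) * w 1 = 0 := by linear_combination α * e1 - γ * e0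
    exact (mul_eq_zero.mp this).resolve_left hD0
  have : w = 0 := by
    ext i
    fin_cases i
    · exact hw0
    · exact hw1
    · exact hw2
  exact sub_eq_zero.mp this

/-- balls are rotors -/
lemma ball_rotor (p : Fin 3 → E3) (hz : ∀ i, p i 2 = 0) (a : ℝ) (ha : 0 < a)
    (heq : ∀ i j, i ≠ j → dist (p i) (p j) = a) (c : E3) :
    IsRotor p (Metric.closedBall c (a / (2 * Real.sqrt 3))) := by
  have hs3 : Real.sqrt 3 ^ 2 = 3 := Real.sq_sqrt (by norm_num)
  have hs3p : 0 < Real.sqrt 3 := Real.sqrt_pos.mpr (by norm_num)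
  intro A hA
  obtain ⟨ρ, hρ⟩ := iso_of_matrix A hA
  refine ⟨cen p - ρ c, ?_, ?_⟩
  all_goals simp only [hρ]
  · intro x hx
    rw [Metric.mem_closedBall, dist_eq_norm] at hx
    -- the planar part of `ρ (x - c)`
    set q0 := ρ (x - c) with hq0
    set q : E3 := !₂[q0 0, q0 1, 0] with hq
    have hq2 : q 2 = 0 := by simp [hq]
    have hx' : ρ x + (cen p - ρ c) = cen p + q0 := by
      rw [hq0, map_sub]; abel
    have hin : ∀ i, ⟪q, nrm p i⟫ = ⟪q0, nrm p i⟫ := by
      intro i
      rw [inner_eq, inner_eq, nrm_two p hz]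
      simp [hq]
    have hle : ∀ i, ⟪q, nrm p i⟫ ≤ a ^ 2 / 6 := by
      intro i
      rw [hin]
      have h1 := real_inner_le_norm q0 (nrm p i)
      have h2 : ‖q0‖ ≤ a / (2 * Real.sqrt 3) := by
        rw [hq0, LinearIsometryEquiv.norm_map]; exact hx
      have h3 : ‖nrm p i‖ ^ 2 = a ^ 2 / 3 := by
        rw [← real_inner_self_eq_norm_sq, nrm_inner p a heq]; simp
      have h4 : ‖nrm p i‖ = a / Real.sqrt 3 := by
        rw [← sq_eq_sq₀ (norm_nonneg _) (by positivity), h3, div_pow, hs3]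
      rw [h4] at h1
      have h5 : ‖q0‖ * (a / Real.sqrt 3) ≤ a / (2 * Real.sqrt 3) * (a / Real.sqrt 3) :=
        mul_le_mul_of_nonneg_right h2 (by positivity)
      have h6 : a / (2 * Real.sqrt 3) * (a / Real.sqrt 3) = a ^ 2 / 6 := by
        field_simp
        rw [hs3]
        norm_num
      linarith
    have hpl := planar p hz a ha heq q hq2
    have hsum : ⟪q, nrm p 0⟫ + ⟪q, nrm p 1⟫ + ⟪q, nrm p 2⟫ = 0 := by
      rw [← inner_add_right, ← inner_add_right, nrm_sum, inner_zero_right]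
    refine ⟨cen p + q, ?_, ?_, ?_⟩
    · -- barycentric coordinates
      have hmem := (convex_convexHull ℝ (Set.range p)).sum_mem (t := Finset.univ)
        (w := fun i => 1/3 - (2 / a ^ 2) * ⟪q, nrm p i⟫) (z := p)
        (by
          intro i _
          have h1 := hle i
          have h2 : (2 / a ^ 2) * ⟪q, nrm p i⟫ ≤ (2 / a ^ 2) * (a ^ 2 / 6) :=
            mul_le_mul_of_nonneg_left h1 (by positivity)
          have h3 : (2 / a ^ 2) * (a ^ 2 / 6) = 1 / 3 := by field_simp; norm_num
          linarith)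
        (by
          rw [Fin.sum_univ_three]
          linear_combination (-(2 / a ^ 2)) * hsum)
        (by
          intro i _
          exact subset_convexHull ℝ _ ⟨i, rfl⟩)
      rw [Fin.sum_univ_three] at hmem
      have hfin : (1/3 - (2 / a ^ 2) * ⟪q, nrm p 0⟫) • p 0 + (1/3 - (2 / a ^ 2) * ⟪q, nrm p 1⟫) • p 1
          + (1/3 - (2 / a ^ 2) * ⟪q, nrm p 2⟫) • p 2 = cen p + q := by
        rw [p_eq p 0, p_eq p 1, p_eq p 2]
        have e : q = (2 / a ^ 2) • ((a ^ 2 / 2) • q) := by
          rw [smul_smul]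
          have : (2 / a ^ 2) * (a ^ 2 / 2) = 1 := by field_simp
          rw [this, one_smul]
        conv_rhs => rw [e, ← hpl]
        have e1 : (1/3 - (2 / a ^ 2) * ⟪q, nrm p 0⟫) • (cen p - nrm p 0) +
            (1/3 - (2 / a ^ 2) * ⟪q, nrm p 1⟫) • (cen p - nrm p 1) +
            (1/3 - (2 / a ^ 2) * ⟪q, nrm p 2⟫) • (cen p - nrm p 2) =
            (1 - (2 / a ^ 2) * (⟪q, nrm p 0⟫ + ⟪q, nrm p 1⟫ + ⟪q, nrm p 2⟫)) • cen p -
            (1/3 : ℝ) • (nrm p 0 + nrm p 1 + nrm p 2) +
            (2 / a ^ 2) • (⟪q, nrm p 0⟫ • nrm p 0 + ⟪q, nrm p 1⟫ • nrm p 1 +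
              ⟪q, nrm p 2⟫ • nrm p 2) := by module
        rw [e1, hsum, nrm_sum]
        simp
      rw [← hfin]
      exact hmem
    · rw [hx']; simp [hq]
    · rw [hx']; simp [hq]
  · intro i
    refine ⟨c + ρ.symm ((1/2 : ℝ) • nrm p i), ?_, ?_⟩
    · rw [Metric.mem_closedBall, dist_eq_norm]
      have h3 : ‖nrm p i‖ ^ 2 = a ^ 2 / 3 := by
        rw [← real_inner_self_eq_norm_sq, nrm_inner p a heq]; simp
      have h4 : ‖nrm p i‖ = a / Real.sqrt 3 := by
        rw [← sq_eq_sq₀ (norm_nonneg _) (by positivity), h3, div_pow, hs3]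
      have : c + ρ.symm ((1/2 : ℝ) • nrm p i) - c = ρ.symm ((1/2 : ℝ) • nrm p i) := by abel
      rw [this, LinearIsometryEquiv.norm_map, norm_smul, h4]
      apply le_of_eq
      norm_num
      field_simp
    · have hx' : ρ (c + ρ.symm ((1/2 : ℝ) • nrm p i)) + (cen p - ρ c) =
          cen p + (1/2 : ℝ) • nrm p i := by
        rw [map_add, LinearIsometryEquiv.apply_symm_apply]; abel
      rw [hx']
      refine ⟨cen p + (1/2 : ℝ) • nrm p i, ?_, rfl, rfl⟩
      refine ⟨1/2, 1/2, by norm_num, by norm_num, by norm_num, ?_⟩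
      fin_cases i
      · simp only [nrm, cen, Fin.zero_eta, Fin.isValue, zero_add]
        module
      · simp only [nrm, cen, Fin.mk_one, Fin.isValue, Fin.reduceAdd]
        module
      · simp only [nrm, cen, Fin.reduceFinMk, Fin.isValue, Fin.reduceAdd]
        module

/-- Let `T` be an equilateral triangle of side `a > 0` in the plane `z = 0` with vertices
`p 0, p 1, p 2`. A convex body `K` (compact convex set with nonempty interior) is a rotor in the
prism `T × ℝ` if and only if it is a closed ball of radius `a / (2 * √3)`. -/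
theorem prism_rotor (p : Fin 3 → Space) (hz : ∀ i, p i 2 = 0) (a : ℝ) (ha : 0 < a)
    (heq : ∀ i j, i ≠ j → dist (p i) (p j) = a)
    (K : Set Space) (hconv : Convex ℝ K) (hK : IsCompact K)
    (hint : (interior K).Nonempty) :
    IsRotor p K ↔ ∃ c : Space, K = Metric.closedBall c (a / (2 * Real.sqrt 3)) := by
  constructor
  · exact rotor_ball p hz a ha heq K hK hconv (hint.mono interior_subset)
  · rintro ⟨c, rfl⟩
    exact ball_rotor p hz a ha heq c

end Pool.Agent.H34.RT.Prism
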