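import Pool.Agent.H34.RT.Ang
import Pool.Agent.H34.RT.Base

/-!
# Trans : chord transfer and periodicity

`pt α σ e f m ψ = √(1 - (σ/α)²) (cos ψ e + sin ψ f) + (σ/α) m` (a unit vector for orthonormal `e, f, m`), and `DD` the difference of `F` at the ends
of the chord. `transfer`: with `y = -(α0 √(1-(σ/α0)²) (cos ψ e + sin ψ f) + α1 √(1-(σ/α1)²) (cos (ψ+θ) e + sin (ψ+θ) f)) / α2`, a unit vector by the law of
cosines `hθ` (`α √(1 - (σ/α)²) = √(α² - σ²)`), both triples `(pt0 σ, pt1 (-σ), y)` and `(pt0 (-σ), pt1 σ, y)` satisfy the linear relation; the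
hypothesis `hE` (the functional equation for these two triples) gives the claim.
`periodic`: `θ01, θ12, θ20` from `angles` (with `tri_ineq`), `q` from `base`. Three transfers: index `0` at the angle `ψ`, index `1` at
`ψ + θ01 σ`, index `2` at `ψ + θ01 σ + θ12 σ`, index `0` at `ψ + θ01 σ + θ12 σ + θ20 σ = ψ - ε' + 2 π`. All points are close to `u0, u1, u2`: the maps
`(e, f, σ, ψ) ↦ √(1-(σ/αi)²) (cos (ψ + ..) e + sin (ψ + ..) f)` and the corresponding `y` are continuous at `(u0, q, 0, 0)` with the values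
`u0, u1, u2` (`cos (θ01 0 + θ12 0) = cos (θ20 0)`, `sin (θ01 0 + θ12 0) = - sin (θ20 0)`), and the terms `(σ/α) m` have norm `σ/α`. `η` is so small
that everything is `< ε`.
-/

set_option autoImplicit false

open scoped RealInnerProductSpace
open Real

namespace Pool.Agent.H34.RT

variable {n : ℕ}

/-- end of a chord -/
noncomputable def pt (α σ : ℝ) (e f m : Space n) (ψ : ℝ) : Space n :=
  √(1 - (σ / α) ^ 2) • (cos ψ • e + sin ψ • f) + (σ / α) • m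

/-- difference at the ends of a chord -/
noncomputable def DD (F : Space n → ℝ) (α σ : ℝ) (e f m : Space n) (ψ : ℝ) : ℝ :=
  F (pt α σ e f m ψ) - F (pt α (-σ) e f m ψ)

private theorem inner_w {e f : Space n} (he : ‖e‖ = 1) (hf : ‖f‖ = 1) (hef : ⟪e, f⟫ = 0) (a b : ℝ) :
    ⟪cos a • e + sin a • f, cos b • e + sin b • f⟫ = cos (a - b) := by
  have h1 : ⟪f, e⟫ = 0 := by rw [real_inner_comm]; exact hef
  simp only [inner_add_left, inner_add_right, real_inner_smul_left, real_inner_smul_right,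
    real_inner_self_eq_norm_sq, he, hf, hef, h1, cos_sub]
  ring

private theorem norm_pt {α σ : ℝ} (a0 : 0 < α) {e f m : Space n} (he : ‖e‖ = 1) (hf : ‖f‖ = 1)
    (hm : ‖m‖ = 1) (hef : ⟪e, f⟫ = 0) (hem : ⟪e, m⟫ = 0) (hfm : ⟪f, m⟫ = 0) (hσ : |σ| ≤ α) (ψ : ℝ) :
    ‖pt α σ e f m ψ‖ = 1 := by
  have hs : (σ / α) ^ 2 ≤ 1 := by
    rw [sq_le_one_iff_abs_le_one, abs_div, abs_of_pos a0, div_le_one a0]
    exact hσ
  have hw := inner_w he hf hef ψ ψ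
  rw [sub_self, cos_zero] at hw
  have hwm : ⟪cos ψ • e + sin ψ • f, m⟫ = 0 := by
    rw [inner_add_left, real_inner_smul_left, real_inner_smul_left, hem, hfm]
    ring
  have hq : √(1 - (σ / α) ^ 2) ^ 2 = 1 - (σ / α) ^ 2 := Real.sq_sqrt (by linarith)
  have h1 : ‖pt α σ e f m ψ‖ ^ 2 = 1 := by
    unfold pt
    rw [norm_add_sq_real, norm_smul, norm_smul, real_inner_smul_left, real_inner_smul_right, hwm, hm,
      mul_pow, ← real_inner_self_eq_norm_sq (cos ψ • e + sin ψ • f), hw, Real.norm_eq_abs, Real.norm_eq_abs,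
      sq_abs, mul_one, mul_one, sq_abs, hq]
    ring
  exact (sq_eq_sq₀ (norm_nonneg _) zero_le_one).1 (by rw [h1, one_pow])

theorem transfer {F0 F1 F2 : Space n → ℝ} {α0 α1 α2 σ θ ψ C : ℝ} {e f m : Space n} (a0 : 0 < α0) (a1 : 0 < α1)
    (a2 : 0 < α2) (he : ‖e‖ = 1) (hf : ‖f‖ = 1) (hm : ‖m‖ = 1) (hef : ⟪e, f⟫ = 0) (hem : ⟪e, m⟫ = 0) (hfm : ⟪f, m⟫ = 0)
    (hσ : 0 ≤ σ) (hσ0 : σ ≤ α0) (hσ1 : σ ≤ α1)
    (hθ : α2 ^ 2 = (α0 ^ 2 - σ ^ 2) + (α1 ^ 2 - σ ^ 2) + 2 * √(α0 ^ 2 - σ ^ 2) * √(α1 ^ 2 - σ ^ 2) * cos θ)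
    (hE : ∀ x0 x1 x2 : Space n, ‖x0‖ = 1 → ‖x1‖ = 1 → ‖x2‖ = 1 → α0 • x0 + α1 • x1 + α2 • x2 = 0 →
      (x0 = pt α0 σ e f m ψ ∧ x1 = pt α1 (-σ) e f m (ψ + θ) ∨ x0 = pt α0 (-σ) e f m ψ ∧ x1 = pt α1 σ e f m (ψ + θ)) →
      x2 = -(α2⁻¹) • (α0 • √(1 - (σ / α0) ^ 2) • (cos ψ • e + sin ψ • f) +
        α1 • √(1 - (σ / α1) ^ 2) • (cos (ψ + θ) • e + sin (ψ + θ) • f)) →
      F0 x0 + F1 x1 + F2 x2 = C) :
    DD F0 α0 σ e f m ψ = DD F1 α1 σ e f m (ψ + θ) := by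
  have hr : ∀ α : ℝ, 0 < α → α * √(1 - (σ / α) ^ 2) = √(α ^ 2 - σ ^ 2) := by
    intro α ha
    have h1 : α ^ 2 - σ ^ 2 = α ^ 2 * (1 - (σ / α) ^ 2) := by
      have := ha.ne'
      field_simp
    rw [h1, Real.sqrt_mul (sq_nonneg α), Real.sqrt_sq ha.le]
  have hq : ∀ α : ℝ, 0 < α → σ ≤ α → (α * √(1 - (σ / α) ^ 2)) ^ 2 = α ^ 2 - σ ^ 2 := by
    intro α ha hs
    rw [hr α ha, Real.sq_sqrt]
    have := mul_self_le_mul_self hσ hs
    nlinarith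
  have hab : ∀ α : ℝ, σ ≤ α → |σ| ≤ α ∧ |-σ| ≤ α := by
    intro α hs
    rw [abs_neg, abs_of_nonneg hσ]
    exact ⟨hs, hs⟩
  have hw00 := inner_w he hf hef ψ ψ
  have hw11 := inner_w he hf hef (ψ + θ) (ψ + θ)
  have hw01 := inner_w he hf hef ψ (ψ + θ)
  rw [sub_self, cos_zero] at hw00 hw11
  rw [show ψ - (ψ + θ) = -θ by ring, cos_neg] at hw01
  obtain ⟨y, hy⟩ : ∃ y : Space n, y = -(α2⁻¹) • (α0 • √(1 - (σ / α0) ^ 2) • (cos ψ • e + sin ψ • f) +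
        α1 • √(1 - (σ / α1) ^ 2) • (cos (ψ + θ) • e + sin (ψ + θ) • f)) := ⟨_, rfl⟩
  have ny : ‖y‖ = 1 := by
    have h1 : ‖α0 • √(1 - (σ / α0) ^ 2) • (cos ψ • e + sin ψ • f) +
        α1 • √(1 - (σ / α1) ^ 2) • (cos (ψ + θ) • e + sin (ψ + θ) • f)‖ ^ 2 = α2 ^ 2 := by
      rw [hθ, ← hr α0 a0, ← hr α1 a1, ← hq α0 a0 hσ0, ← hq α1 a1 hσ1, smul_smul, smul_smul, norm_add_sq_real,
        norm_smul, norm_smul, real_inner_smul_left, real_inner_smul_right, hw01, mul_pow, mul_pow,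
        ← real_inner_self_eq_norm_sq (cos ψ • e + sin ψ • f), hw00,
        ← real_inner_self_eq_norm_sq (cos (ψ + θ) • e + sin (ψ + θ) • f), hw11,
        Real.norm_eq_abs, Real.norm_eq_abs, sq_abs, sq_abs]
      ring
    have h2 : ‖α0 • √(1 - (σ / α0) ^ 2) • (cos ψ • e + sin ψ • f) +
        α1 • √(1 - (σ / α1) ^ 2) • (cos (ψ + θ) • e + sin (ψ + θ) • f)‖ = α2 :=
      (sq_eq_sq₀ (norm_nonneg _) a2.le).1 h1
    rw [hy, norm_smul, h2, norm_neg, norm_inv, Real.norm_eq_abs, abs_of_pos a2, inv_mul_cancel₀ a2.ne']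
  have hneg : ∀ α : ℝ, √(1 - (-σ / α) ^ 2) = √(1 - (σ / α) ^ 2) := by
    intro α
    rw [neg_div, neg_sq]
  have h2y : α2 • y = -(α0 • √(1 - (σ / α0) ^ 2) • (cos ψ • e + sin ψ • f) +
        α1 • √(1 - (σ / α1) ^ 2) • (cos (ψ + θ) • e + sin (ψ + θ) • f)) := by
    rw [hy, smul_smul, mul_neg, mul_inv_cancel₀ a2.ne', neg_smul, one_smul]
  have hcan : ∀ (t s0 s1 : ℝ) (w0 w1 : Space n),
      α0 • (s0 • w0 + (t / α0) • m) + α1 • (s1 • w1 + (-t / α1) • m) + -(α0 • s0 • w0 + α1 • s1 • w1) = 0 ∧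
      α0 • (s0 • w0 + (-t / α0) • m) + α1 • (s1 • w1 + (t / α1) • m) + -(α0 • s0 • w0 + α1 • s1 • w1) = 0 := by
    intro t s0 s1 w0 w1
    have k0 : ∀ α : ℝ, 0 < α → α • (t / α) • m = t • m ∧ α • (-t / α) • m = -(t • m) := by
      intro α ha
      rw [smul_smul, smul_smul, mul_div_cancel₀ t ha.ne', mul_div_cancel₀ (-t) ha.ne', neg_smul]
      exact ⟨rfl, rfl⟩
    rw [smul_add α0 (s0 • w0), smul_add α1 (s1 • w1), smul_add α0 (s0 • w0), smul_add α1 (s1 • w1),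
      (k0 α0 a0).1, (k0 α0 a0).2, (k0 α1 a1).1, (k0 α1 a1).2]
    constructor <;> abel
  have r1 : α0 • pt α0 σ e f m ψ + α1 • pt α1 (-σ) e f m (ψ + θ) + α2 • y = 0 := by
    rw [h2y]
    unfold pt
    rw [hneg]
    exact (hcan σ _ _ _ _).1
  have r2 : α0 • pt α0 (-σ) e f m ψ + α1 • pt α1 σ e f m (ψ + θ) + α2 • y = 0 := by
    rw [h2y]
    unfold pt
    rw [hneg]
    exact (hcan σ _ _ _ _).2
  have E1 := hE _ _ y (norm_pt a0 he hf hm hef hem hfm (hab α0 hσ0).1 ψ)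
    (norm_pt a1 he hf hm hef hem hfm (hab α1 hσ1).2 (ψ + θ)) ny r1 (Or.inl ⟨rfl, rfl⟩) hy
  have E2 := hE _ _ y (norm_pt a0 he hf hm hef hem hfm (hab α0 hσ0).2 ψ)
    (norm_pt a1 he hf hm hef hem hfm (hab α1 hσ1).1 (ψ + θ)) ny r2 (Or.inr ⟨rfl, rfl⟩) hy
  unfold DD
  linarith

/-- the direction of the chord is close to its value at the base point -/
private theorem close (u q : Space n) {α : ℝ} {φ : ℝ → ℝ} (hφ : ContinuousAt φ 0) {δ : ℝ} (hδ : 0 < δ) :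
    ∃ η : ℝ, 0 < η ∧ ∀ e f : Space n, ‖e - u‖ < η → ‖f - q‖ < η → ∀ σ ψ : ℝ, |σ| < η → |ψ| < η →
      ‖√(1 - (σ / α) ^ 2) • (cos (ψ + φ σ) • e + sin (ψ + φ σ) • f) - (cos (φ 0) • u + sin (φ 0) • q)‖ < δ := by
  let G : (Space n × Space n) × (ℝ × ℝ) → Space n := fun x =>
    √(1 - (x.2.1 / α) ^ 2) • (cos (x.2.2 + φ x.2.1) • x.1.1 + sin (x.2.2 + φ x.2.1) • x.1.2)
  have h1 : ContinuousAt (fun x : (Space n × Space n) × (ℝ × ℝ) => x.2.2 + φ x.2.1) ((u, q), (0, 0)) := by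
    have h0 : ContinuousAt (fun x : (Space n × Space n) × (ℝ × ℝ) => x.2.2) ((u, q), (0, 0)) := by fun_prop
    refine h0.add ?_
    exact ContinuousAt.comp (f := fun x : (Space n × Space n) × (ℝ × ℝ) => x.2.1)
      (x := ((u, q), ((0 : ℝ), (0 : ℝ)))) hφ (by fun_prop)
  have hG : ContinuousAt G ((u, q), (0, 0)) := by
    have g1 : ContinuousAt (fun x : (Space n × Space n) × (ℝ × ℝ) => √(1 - (x.2.1 / α) ^ 2))
        ((u, q), (0, 0)) := by fun_prop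
    have g2 : ContinuousAt (fun x : (Space n × Space n) × (ℝ × ℝ) => x.1.1) ((u, q), (0, 0)) := by fun_prop
    have g3 : ContinuousAt (fun x : (Space n × Space n) × (ℝ × ℝ) => x.1.2) ((u, q), (0, 0)) := by fun_prop
    have g4 : ContinuousAt (fun x : (Space n × Space n) × (ℝ × ℝ) => cos (x.2.2 + φ x.2.1))
        ((u, q), (0, 0)) := Real.continuous_cos.continuousAt.comp h1
    have g5 : ContinuousAt (fun x : (Space n × Space n) × (ℝ × ℝ) => sin (x.2.2 + φ x.2.1))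
        ((u, q), (0, 0)) := Real.continuous_sin.continuousAt.comp h1
    exact g1.smul ((g4.smul g2).add (g5.smul g3))
  obtain ⟨η, hη, H⟩ := Metric.continuousAt_iff.1 hG δ hδ
  refine ⟨η, hη, fun e f he hf σ ψ hs hp => ?_⟩
  have h2 : dist (((e, f), (σ, ψ)) : (Space n × Space n) × (ℝ × ℝ)) ((u, q), (0, 0)) < η := by
    rw [Prod.dist_eq, Prod.dist_eq, Prod.dist_eq, dist_eq_norm, dist_eq_norm, Real.dist_eq, Real.dist_eq,
      sub_zero, sub_zero]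
    exact max_lt (max_lt he hf) (max_lt hs hp)
  have h3 := H h2
  rw [dist_eq_norm] at h3
  have h4 : G ((u, q), (0, 0)) = cos (φ 0) • u + sin (φ 0) • q := by
    show √(1 - ((0 : ℝ) / α) ^ 2) • (cos (0 + φ 0) • u + sin (0 + φ 0) • q) = _
    rw [zero_div, zero_pow two_ne_zero, sub_zero, Real.sqrt_one, one_smul, zero_add]
  rw [h4] at h3
  exact h3

/-- one transfer -/
private theorem step {F0 F1 F2 : Space n → ℝ} {α0 α1 α2 C ε σ θ ψ δ : ℝ} {u0 u1 u2 e f m : Space n}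
    (a0 : 0 < α0) (a1 : 0 < α1) (a2 : 0 < α2) (rel : α0 • u0 + α1 • u1 + α2 • u2 = 0)
    (hE : ∀ x0 x1 x2 : Space n, ‖x0‖ = 1 → ‖x1‖ = 1 → ‖x2‖ = 1 → α0 • x0 + α1 • x1 + α2 • x2 = 0 →
      ‖x0 - u0‖ < ε → ‖x1 - u1‖ < ε → ‖x2 - u2‖ < ε → F0 x0 + F1 x1 + F2 x2 = C)
    (he : ‖e‖ = 1) (hf : ‖f‖ = 1) (hm : ‖m‖ = 1) (hef : ⟪e, f⟫ = 0) (hem : ⟪e, m⟫ = 0) (hfm : ⟪f, m⟫ = 0)
    (hσ : 0 ≤ σ) (hσ0 : σ ≤ α0) (hσ1 : σ ≤ α1)
    (hθ : α2 ^ 2 = (α0 ^ 2 - σ ^ 2) + (α1 ^ 2 - σ ^ 2) + 2 * √(α0 ^ 2 - σ ^ 2) * √(α1 ^ 2 - σ ^ 2) * cos θ)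
    (h0 : ‖√(1 - (σ / α0) ^ 2) • (cos ψ • e + sin ψ • f) - u0‖ < δ)
    (h1 : ‖√(1 - (σ / α1) ^ 2) • (cos (ψ + θ) • e + sin (ψ + θ) • f) - u1‖ < δ)
    (d0 : δ + σ * α0⁻¹ ≤ ε) (d1 : δ + σ * α1⁻¹ ≤ ε) (d2 : α2⁻¹ * ((α0 + α1) * δ) ≤ ε) :
    DD F0 α0 σ e f m ψ = DD F1 α1 σ e f m (ψ + θ) := by
  have hneg : ∀ α : ℝ, √(1 - (-σ / α) ^ 2) = √(1 - (σ / α) ^ 2) := by
    intro α
    rw [neg_div, neg_sq]
  have hp : ∀ {α φ : ℝ} {u : Space n}, 0 < α → ‖√(1 - (σ / α) ^ 2) • (cos φ • e + sin φ • f) - u‖ < δ →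
      δ + σ * α⁻¹ ≤ ε → ‖pt α σ e f m φ - u‖ < ε ∧ ‖pt α (-σ) e f m φ - u‖ < ε := by
    intro α φ u ha h d
    have n1 : ‖(σ / α) • m‖ = σ * α⁻¹ := by
      rw [norm_smul, hm, mul_one, Real.norm_eq_abs, abs_of_nonneg (div_nonneg hσ ha.le), div_eq_mul_inv]
    have n2 : ‖(-σ / α) • m‖ = σ * α⁻¹ := by
      rw [neg_div, neg_smul, norm_neg, n1]
    constructor
    · have h3 : pt α σ e f m φ - u = (√(1 - (σ / α) ^ 2) • (cos φ • e + sin φ • f) - u) + (σ / α) • m := by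
        unfold pt; abel
      rw [h3]
      have h4 := norm_add_le (√(1 - (σ / α) ^ 2) • (cos φ • e + sin φ • f) - u) ((σ / α) • m)
      rw [n1] at h4
      linarith
    · have h3 : pt α (-σ) e f m φ - u = (√(1 - (σ / α) ^ 2) • (cos φ • e + sin φ • f) - u) + (-σ / α) • m := by
        unfold pt
        rw [hneg]
        abel
      rw [h3]
      have h4 := norm_add_le (√(1 - (σ / α) ^ 2) • (cos φ • e + sin φ • f) - u) ((-σ / α) • m)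
      rw [n2] at h4
      linarith
  refine transfer (F2 := F2) (C := C) a0 a1 a2 he hf hm hef hem hfm hσ hσ0 hσ1 hθ ?_
  intro x0 x1 x2 n0 n1 n2 hrel hx hx2
  have b0 : ‖x0 - u0‖ < ε := by
    rcases hx with hx | hx
    · rw [hx.1]; exact (hp a0 h0 d0).1
    · rw [hx.1]; exact (hp a0 h0 d0).2
  have b1 : ‖x1 - u1‖ < ε := by
    rcases hx with hx | hx
    · rw [hx.2]; exact (hp a1 h1 d1).2
    · rw [hx.2]; exact (hp a1 h1 d1).1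
  refine hE x0 x1 x2 n0 n1 n2 hrel b0 b1 ?_
  have hu2 : u2 = -(α2⁻¹) • (α0 • u0 + α1 • u1) := by
    have h3 : α0 • u0 + α1 • u1 = -(α2 • u2) := eq_neg_of_add_eq_zero_left rel
    rw [h3, smul_neg, neg_smul, neg_neg, smul_smul, inv_mul_cancel₀ a2.ne', one_smul]
  have h4 : x2 - u2 = -(α2⁻¹) • (α0 • (√(1 - (σ / α0) ^ 2) • (cos ψ • e + sin ψ • f) - u0) +
      α1 • (√(1 - (σ / α1) ^ 2) • (cos (ψ + θ) • e + sin (ψ + θ) • f) - u1)) := by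
    rw [hx2, hu2, ← smul_sub, smul_sub α0, smul_sub α1]
    congr 1
    abel
  rw [h4, norm_smul, norm_neg, norm_inv, Real.norm_eq_abs, abs_of_pos a2]
  have h5 := norm_add_le (α0 • (√(1 - (σ / α0) ^ 2) • (cos ψ • e + sin ψ • f) - u0))
    (α1 • (√(1 - (σ / α1) ^ 2) • (cos (ψ + θ) • e + sin (ψ + θ) • f) - u1))
  rw [norm_smul, norm_smul, Real.norm_eq_abs, Real.norm_eq_abs, abs_of_pos a0, abs_of_pos a1] at h5
  have h6 := mul_lt_mul_of_pos_left h0 a0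
  have h7 := mul_lt_mul_of_pos_left h1 a1
  refine lt_of_lt_of_le ?_ d2
  refine mul_lt_mul_of_pos_left ?_ (inv_pos.2 a2)
  linarith

theorem periodic {F0 F1 F2 : Space n → ℝ} {α0 α1 α2 C ε : ℝ} {u0 u1 u2 : Space n}
    (T : Tri F0 F1 F2 α0 α1 α2 u0 u1 u2 C ε) :
    ∃ (q : Space n) (η C' : ℝ), ‖q‖ = 1 ∧ ⟪u0, q⟫ = 0 ∧ q ∈ Submodule.span ℝ {u0, u1} ∧ 0 < η ∧ η ≤ α0 ∧
      ∀ e f m : Space n, ‖e‖ = 1 → ‖f‖ = 1 → ‖m‖ = 1 → ⟪e, f⟫ = 0 → ⟪e, m⟫ = 0 → ⟪f, m⟫ = 0 →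
        ‖e - u0‖ < η → ‖f - q‖ < η → ∀ σ, 0 < σ → σ < η →
        ∃ ε' : ℝ, 0 < ε' ∧ ε' ≤ C' * σ ^ 2 ∧ ∀ ψ : ℝ, |ψ| < η → DD F0 α0 σ e f m ψ = DD F0 α0 σ e f m (ψ - ε') := by
  obtain ⟨t0, t1, t2⟩ := tri_ineq T.a0 T.a1 T.a2 T.n0 T.n1 T.n2 T.rel T.ang
  obtain ⟨θ01, θ12, θ20, σ0, C', hσ0, h00, h01, h02, k01, k12, k20, p1, p1', p2, p2', hsum, hlaw, hε'⟩ :=
    angles T.a0 T.a1 T.a2 t0 t1 t2
  obtain ⟨l1, l2, l3⟩ := hlaw 0 le_rfl hσ0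
  have a0 := T.a0
  have a1 := T.a1
  have a2 := T.a2
  have hε := T.eps
  have c1 : α2 ^ 2 = α0 ^ 2 + α1 ^ 2 + 2 * α0 * α1 * cos (θ01 0) := by
    have := l1
    rwa [zero_pow two_ne_zero, sub_zero, sub_zero, Real.sqrt_sq a0.le, Real.sqrt_sq a1.le] at this
  have c2 : α1 ^ 2 = α2 ^ 2 + α0 ^ 2 + 2 * α2 * α0 * cos (θ20 0) := by
    have := l3
    rwa [zero_pow two_ne_zero, sub_zero, sub_zero, Real.sqrt_sq a2.le, Real.sqrt_sq a0.le] at this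
  obtain ⟨q, nq, oq, e1, e2⟩ := base a0 a1 a2 T.n0 T.n1 T.n2 T.rel p1 p1' p2 p2' c1 c2
  have hqs : q ∈ Submodule.span ℝ {u0, u1} := by
    have hs : sin (θ01 0) ≠ 0 := (sin_pos_of_pos_of_lt_pi p1 p1').ne'
    have h1 : q = (sin (θ01 0))⁻¹ • (u1 - cos (θ01 0) • u0) := by
      have h2 : u1 - cos (θ01 0) • u0 = sin (θ01 0) • q := by
        nth_rewrite 1 [e1]
        abel
      rw [h2, smul_smul, inv_mul_cancel₀ hs, one_smul]
    rw [h1]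
    refine Submodule.smul_mem _ _ (Submodule.sub_mem _ (Submodule.subset_span ?_)
      (Submodule.smul_mem _ _ (Submodule.subset_span ?_)))
    · exact Set.mem_insert_of_mem _ rfl
    · exact Set.mem_insert _ _
  have i0 := inv_pos.2 a0
  have i1 := inv_pos.2 a1
  have i2 := inv_pos.2 a2
  obtain ⟨S, hS⟩ : ∃ S, S = α0 + α1 + α2 := ⟨_, rfl⟩
  obtain ⟨R, hR⟩ : ∃ R, R = α0⁻¹ + α1⁻¹ + α2⁻¹ := ⟨_, rfl⟩
  have hS0 : 0 < S := by rw [hS]; positivity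
  have hR0 : 0 < R := by rw [hR]; positivity
  have hSR : 0 < S * R := mul_pos hS0 hR0
  obtain ⟨δ, hδ⟩ : ∃ δ, δ = ε / (2 * (1 + S * R)) := ⟨_, rfl⟩
  have hδ0 : 0 < δ := by rw [hδ]; positivity
  have hδe : 2 * (1 + S * R) * δ = ε := by
    rw [hδ]
    field_simp
  have hδS : 0 < S * R * δ := mul_pos hSR hδ0
  have hδ2 : δ ≤ ε / 2 := by nlinarith
  obtain ⟨η0, hη0, H0⟩ := close u0 q (α := α0) (φ := fun _ => 0) continuousAt_const hδ0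
  obtain ⟨η1, hη1, H1⟩ := close u0 q (α := α1) (φ := θ01) k01 hδ0
  obtain ⟨η2, hη2, H2⟩ := close u0 q (α := α2) (φ := fun s => θ01 s + θ12 s) (k01.add k12) hδ0
  obtain ⟨η3, hη3, H3⟩ := close u0 q (α := α0) (φ := fun s => θ01 s + θ12 s + θ20 s) ((k01.add k12).add k20) hδ0
  have v0 : cos ((fun _ : ℝ => (0 : ℝ)) 0) • u0 + sin ((fun _ : ℝ => (0 : ℝ)) 0) • q = u0 := by
    show cos (0 : ℝ) • u0 + sin (0 : ℝ) • q = u0
    rw [cos_zero, sin_zero, one_smul, zero_smul, add_zero]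
  have v1 : cos (θ01 0) • u0 + sin (θ01 0) • q = u1 := e1.symm
  have v2 : cos (θ01 0 + θ12 0) • u0 + sin (θ01 0 + θ12 0) • q = u2 := by
    rw [show θ01 0 + θ12 0 = 2 * π - θ20 0 by linarith, cos_two_pi_sub, sin_two_pi_sub, neg_smul, e2]
    abel
  have v3 : cos (θ01 0 + θ12 0 + θ20 0) • u0 + sin (θ01 0 + θ12 0 + θ20 0) • q = u0 := by
    rw [hsum, cos_two_pi, sin_two_pi, one_smul, zero_smul, add_zero]
  rw [v0] at H0
  rw [v1] at H1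
  have hη4 : 0 < ε / (2 * R) := by positivity
  obtain ⟨η, hη⟩ : ∃ η, η = min (min (min η0 η1) (min η2 η3)) (min σ0 (ε / (2 * R))) := ⟨_, rfl⟩
  have g0 : η ≤ η0 := by rw [hη]; exact (min_le_left _ _).trans ((min_le_left _ _).trans (min_le_left _ _))
  have g1 : η ≤ η1 := by rw [hη]; exact (min_le_left _ _).trans ((min_le_left _ _).trans (min_le_right _ _))
  have g2 : η ≤ η2 := by rw [hη]; exact (min_le_left _ _).trans ((min_le_right _ _).trans (min_le_left _ _))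
  have g3 : η ≤ η3 := by rw [hη]; exact (min_le_left _ _).trans ((min_le_right _ _).trans (min_le_right _ _))
  have g4 : η ≤ σ0 := by rw [hη]; exact (min_le_right _ _).trans (min_le_left _ _)
  have g5 : η ≤ ε / (2 * R) := by rw [hη]; exact (min_le_right _ _).trans (min_le_right _ _)
  have hηpos : 0 < η := by
    rw [hη]
    exact lt_min (lt_min (lt_min hη0 hη1) (lt_min hη2 hη3)) (lt_min hσ0 hη4)
  refine ⟨q, η, C', nq, oq, hqs, hηpos, g4.trans h00, ?_⟩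
  intro e f m he hf hm hef hem hfm heu hfq σ hσp hση
  have hσσ0 : σ < σ0 := lt_of_lt_of_le hση g4
  obtain ⟨L1, L2, L3⟩ := hlaw σ hσp.le hσσ0
  obtain ⟨m1, m2⟩ := hε' σ hσp hσσ0
  refine ⟨2 * π - (θ01 σ + θ12 σ + θ20 σ), m1, m2, ?_⟩
  intro ψ hψ
  have hσa : |σ| < η := by rw [abs_of_pos hσp]; exact hση
  have D0 := H0 e f (lt_of_lt_of_le heu g0) (lt_of_lt_of_le hfq g0) σ ψ (lt_of_lt_of_le hσa g0) (lt_of_lt_of_le hψ g0)
  have D1 := H1 e f (lt_of_lt_of_le heu g1) (lt_of_lt_of_le hfq g1) σ ψ (lt_of_lt_of_le hσa g1) (lt_of_lt_of_le hψ g1)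
  have D2 := H2 e f (lt_of_lt_of_le heu g2) (lt_of_lt_of_le hfq g2) σ ψ (lt_of_lt_of_le hσa g2) (lt_of_lt_of_le hψ g2)
  have D3 := H3 e f (lt_of_lt_of_le heu g3) (lt_of_lt_of_le hfq g3) σ ψ (lt_of_lt_of_le hσa g3) (lt_of_lt_of_le hψ g3)
  have D0' : ‖√(1 - (σ / α0) ^ 2) • (cos ψ • e + sin ψ • f) - u0‖ < δ := by
    have h5 : ψ + (fun _ : ℝ => (0 : ℝ)) σ = ψ := add_zero ψ
    rw [h5] at D0
    exact D0
  have D2' : ‖√(1 - (σ / α2) ^ 2) • (cos (ψ + θ01 σ + θ12 σ) • e + sin (ψ + θ01 σ + θ12 σ) • f) - u2‖ < δ := by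
    have h5 : ‖√(1 - (σ / α2) ^ 2) • (cos (ψ + (θ01 σ + θ12 σ)) • e + sin (ψ + (θ01 σ + θ12 σ)) • f) -
      (cos (θ01 0 + θ12 0) • u0 + sin (θ01 0 + θ12 0) • q)‖ < δ := D2
    rw [v2, ← add_assoc] at h5
    exact h5
  have D3' : ‖√(1 - (σ / α0) ^ 2) • (cos (ψ + θ01 σ + θ12 σ + θ20 σ) • e +
      sin (ψ + θ01 σ + θ12 σ + θ20 σ) • f) - u0‖ < δ := by
    have h5 : ‖√(1 - (σ / α0) ^ 2) • (cos (ψ + (θ01 σ + θ12 σ + θ20 σ)) • e +
      sin (ψ + (θ01 σ + θ12 σ + θ20 σ)) • f) -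
      (cos (θ01 0 + θ12 0 + θ20 0) • u0 + sin (θ01 0 + θ12 0 + θ20 0) • q)‖ < δ := D3
    rw [v3, ← add_assoc, ← add_assoc] at h5
    exact h5
  have hσR : σ * R ≤ ε / 2 := by
    have h6 : σ ≤ ε / (2 * R) := hση.le.trans g5
    rw [le_div_iff₀ (by positivity)] at h6
    linarith
  have w0 : δ + σ * α0⁻¹ ≤ ε := by
    have : σ * α0⁻¹ ≤ σ * R := mul_le_mul_of_nonneg_left (by rw [hR]; linarith) hσp.le
    linarith
  have w1 : δ + σ * α1⁻¹ ≤ ε := by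
    have : σ * α1⁻¹ ≤ σ * R := mul_le_mul_of_nonneg_left (by rw [hR]; linarith) hσp.le
    linarith
  have w2 : δ + σ * α2⁻¹ ≤ ε := by
    have : σ * α2⁻¹ ≤ σ * R := mul_le_mul_of_nonneg_left (by rw [hR]; linarith) hσp.le
    linarith
  have hz : ∀ {i s : ℝ}, 0 < i → i ≤ R → 0 < s → s ≤ S → i * (s * δ) ≤ ε := by
    intro i s hi hiR hs hsS
    have h6 : i * s ≤ R * S := mul_le_mul hiR hsS hs.le hR0.le
    have h7 : i * s * δ ≤ R * S * δ := mul_le_mul_of_nonneg_right h6 hδ0.le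
    nlinarith
  have z2 : α2⁻¹ * ((α0 + α1) * δ) ≤ ε :=
    hz i2 (by rw [hR]; linarith) (by linarith) (by rw [hS]; linarith)
  have z0 : α0⁻¹ * ((α1 + α2) * δ) ≤ ε :=
    hz i0 (by rw [hR]; linarith) (by linarith) (by rw [hS]; linarith)
  have z1 : α1⁻¹ * ((α2 + α0) * δ) ≤ ε :=
    hz i1 (by rw [hR]; linarith) (by linarith) (by rw [hS]; linarith)
  have s0 : σ ≤ α0 := hσσ0.le.trans h00
  have s1 : σ ≤ α1 := hσσ0.le.trans h01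
  have s2 : σ ≤ α2 := hσσ0.le.trans h02
  have A1 : DD F0 α0 σ e f m ψ = DD F1 α1 σ e f m (ψ + θ01 σ) :=
    step (F0 := F0) (F1 := F1) (F2 := F2) (C := C) (ε := ε) (δ := δ) (u0 := u0) (u1 := u1) (u2 := u2)
      a0 a1 a2 T.rel T.eq he hf hm hef hem hfm hσp.le s0 s1 L1 D0' D1 w0 w1 z2
  have A2 : DD F1 α1 σ e f m (ψ + θ01 σ) = DD F2 α2 σ e f m (ψ + θ01 σ + θ12 σ) := by
    refine step (F0 := F1) (F1 := F2) (F2 := F0) (C := C) (ε := ε) (δ := δ) (u0 := u1) (u1 := u2) (u2 := u0)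
      a1 a2 a0 ?_ ?_ he hf hm hef hem hfm hσp.le s1 s2 L2 D1 D2' w1 w2 z0
    · rw [← T.rel]; abel
    · intro x0 x1 x2 n0 n1 n2 hrel b0 b1 b2
      have h8 := T.eq x2 x0 x1 n2 n0 n1 (by rw [← hrel]; abel) b2 b0 b1
      linarith
  have A3 : DD F2 α2 σ e f m (ψ + θ01 σ + θ12 σ) = DD F0 α0 σ e f m (ψ + θ01 σ + θ12 σ + θ20 σ) := by
    refine step (F0 := F2) (F1 := F0) (F2 := F1) (C := C) (ε := ε) (δ := δ) (u0 := u2) (u1 := u0) (u2 := u1)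
      a2 a0 a1 ?_ ?_ he hf hm hef hem hfm hσp.le s2 s0 L3 D2' D3' w2 w0 z1
    · rw [← T.rel]; abel
    · intro x0 x1 x2 n0 n1 n2 hrel b0 b1 b2
      have h8 := T.eq x1 x2 x0 n1 n2 n0 (by rw [← hrel]; abel) b1 b2 b0
      linarith
  rw [A1, A2, A3]
  have h9 : ψ + θ01 σ + θ12 σ + θ20 σ = (ψ - (2 * π - (θ01 σ + θ12 σ + θ20 σ))) + 2 * π := by ring
  rw [h9]
  unfold DD pt
  rw [cos_add_two_pi, sin_add_two_pi]

end Pool.Agent.H34.RT
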